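import Mathlib
import Pool.Agent.Y132.EP.Base

/-!
# Symplectic bases
-/

set_option linter.unusedSectionVars false

namespace Pool.Agent.Y132.AF

open Module Finset Function

/-- The letters. -/
abbrev Lt (G : ℕ) := Fin 2 × Fin (G + 1)

variable {G : ℕ}

/-- the opposite letter -/
def bar (r : Lt G) : Lt G := (if r.1 = 0 then 1 else 0, r.2)

/-- the sign of a letter -/
def sg (r : Lt G) : ℤ := if r.1 = 0 then 1 else -1

theorem fin2 (a : Fin 2) : a = 0 ∨ a = 1 := by
  have := a.isLt
  rcases (by omega : a.val = 0 ∨ a.val = 1) with h | h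
  · exact Or.inl (Fin.ext h)
  · exact Or.inr (Fin.ext h)

@[simp] theorem bar_zero (k : Fin (G + 1)) : bar ((0, k) : Lt G) = (1, k) := rfl

@[simp] theorem bar_one (k : Fin (G + 1)) : bar ((1, k) : Lt G) = (0, k) := rfl

theorem bar_bar (r : Lt G) : bar (bar r) = r := by
  obtain ⟨a, k⟩ := r
  rcases fin2 a with rfl | rfl <;> rfl

@[simp] theorem bar_snd (r : Lt G) : (bar r).2 = r.2 := rfl

@[simp] theorem sg_zero (k : Fin (G + 1)) : sg ((0, k) : Lt G) = 1 := rfl

@[simp] theorem sg_one (k : Fin (G + 1)) : sg ((1, k) : Lt G) = -1 := rfl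

theorem sg_bar (r : Lt G) : sg (bar r) = -sg r := by
  obtain ⟨a, k⟩ := r
  rcases fin2 a with rfl | rfl <;> rfl

theorem sg_sq (r : Lt G) : sg r * sg r = 1 := by
  obtain ⟨a, k⟩ := r
  rcases fin2 a with rfl | rfl <;> rfl

/-- the exchange of the letters -/
def barE : Lt G ≃ Lt G := ⟨bar, bar, bar_bar, bar_bar⟩

theorem sum_bar {M : Type*} [AddCommMonoid M] (h : Lt G → M) : ∑ r, h (bar r) = ∑ r, h r :=
  Fintype.sum_equiv barE _ _ fun _ => rfl

variable {K : Type} [Field K] {T : Type} [AddCommGroup T] [Module K T]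

/-- A symplectic basis, padded by zeroes. -/
structure SBas (B : T →ₗ[K] T →ₗ[K] K) (g : ℕ) (b : Lt G → T) : Prop where
  form : ∀ r r', B (b r) (b r') = if r' = bar r ∧ (r.2 : ℕ) < g then (sg r : K) else 0
  off : ∀ r, g ≤ (r.2 : ℕ) → b r = 0
  expand : ∀ x, x = ∑ r, ((sg r : K) * B x (b (bar r))) • b r

theorem anti {B : T →ₗ[K] T →ₗ[K] K} (halt : ∀ x, B x x = 0) (x y : T) : B x y = -B y x := by
  have h := halt (x + y)
  rw [map_add, map_add, LinearMap.add_apply, LinearMap.add_apply, halt, halt] at h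
  linear_combination h

theorem SBas.canon {B : T →ₗ[K] T →ₗ[K] K} (halt : ∀ x, B x x = 0) {g : ℕ} {b : Lt G → T}
    (h : SBas B g b) (x y : T) :
    ∑ r, (sg r : K) * (B (b r) x * B (b (bar r)) y) = B x y := by
  have h1 := congrArg (fun z => B x z) (h.expand y)
  simp only [map_sum, map_smul, smul_eq_mul] at h1
  rw [h1]
  refine Finset.sum_congr rfl fun r _ => ?_
  rw [anti halt (b r) x, anti halt (b (bar r)) y]
  ring

theorem SBas.pair {B : T →ₗ[K] T →ₗ[K] K} {g : ℕ} {b : Lt G → T} (h : SBas B g b)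
    (k : Fin (G + 1)) (hk : (k : ℕ) < g) : B (b (0, k)) (b (1, k)) = 1 := by
  rw [h.form, if_pos ⟨rfl, hk⟩]
  simp

theorem SBas.span {B : T →ₗ[K] T →ₗ[K] K} {g : ℕ} {b : Lt G → T} (h : SBas B g b) :
    Submodule.span K (Set.range b) = ⊤ := by
  rw [eq_top_iff]
  intro x _
  rw [h.expand x]
  exact Submodule.sum_mem _ fun r _ => Submodule.smul_mem _ _
    (Submodule.subset_span (Set.mem_range_self r))

theorem SBas.card_le {B : T →ₗ[K] T →ₗ[K] K} {g : ℕ} {b : Lt G → T} (h : SBas B g b)
    (hg : g ≤ G + 1) : finrank K T ≤ 2 * g := by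
  have h1 : Submodule.span K (Set.range fun r : Fin 2 × Fin g =>
      b (r.1, Fin.castLE hg r.2)) = ⊤ := by
    rw [eq_top_iff, ← h.span, Submodule.span_le]
    rintro _ ⟨r, rfl⟩
    by_cases hr : (r.2 : ℕ) < g
    · refine Submodule.subset_span ⟨(r.1, ⟨r.2, hr⟩), ?_⟩
      congr 1
    · rw [h.off r (not_lt.1 hr)]
      exact Submodule.zero_mem _
  have h2 := finrank_range_le_card (R := K) fun r : Fin 2 × Fin g => b (r.1, Fin.castLE hg r.2)
  rw [Set.finrank, h1, finrank_top] at h2
  simpa using h2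

/-- A partial symplectic basis of eigenvectors. -/
structure Part (B : T →ₗ[K] T →ₗ[K] K) (Y : T →ₗ[K] T) (w : ℚ) (g : ℕ) (b : Lt G → T)
    (α : Fin (G + 1) → ℚ) : Prop where
  form : ∀ r r', B (b r) (b r') = if r' = bar r ∧ (r.2 : ℕ) < g then (sg r : K) else 0
  off : ∀ r, g ≤ (r.2 : ℕ) → b r = 0
  small : ∀ k, 2 * α k ≤ w
  eig0 : ∀ k, Y (b (0, k)) = (α k : K) • b (0, k)
  eig1 : ∀ k, Y (b (1, k)) = ((w - α k : ℚ) : K) • b (1, k)

section

variable [CharZero K] {B : T →ₗ[K] T →ₗ[K] K} {Y : T →ₗ[K] T} {w : ℚ} {g : ℕ} {b : Lt G → T}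
  {α : Fin (G + 1) → ℚ}

theorem Part.succ (h : Part B Y w g b α) (halt : ∀ x, B x x = 0) (hg : g < G + 1) {e f : T}
    (hef : B e f = 1) (he : ∀ r, B e (b r) = 0) (hf : ∀ r, B f (b r) = 0) {a : ℚ}
    (ha : 2 * a ≤ w) (hYe : Y e = (a : K) • e) (hYf : Y f = ((w - a : ℚ) : K) • f) :
    ∃ b' : Lt G → T, ∃ α' : Fin (G + 1) → ℚ, Part B Y w (g + 1) b' α' := by
  have hfe : B f e = -1 := by rw [anti halt, hef]
  have hbe : ∀ r, B (b r) e = 0 := fun r => by rw [anti halt, he, neg_zero]
  have hbf : ∀ r, B (b r) f = 0 := fun r => by rw [anti halt, hf, neg_zero]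
  refine ⟨fun r => if (r.2 : ℕ) = g then (if r.1 = 0 then e else f) else b r,
    fun k => if (k : ℕ) = g then a else α k, ?_, ?_, ?_, ?_, ?_⟩
  · intro r r'
    obtain ⟨x, k⟩ := r
    obtain ⟨y, l⟩ := r'
    by_cases hk : (k : ℕ) = g
    · by_cases hl : (l : ℕ) = g
      · have hkl : l = k := Fin.ext (hl.trans hk.symm)
        subst hkl
        simp only [if_pos hk]
        rcases fin2 x with rfl | rfl <;> rcases fin2 y with rfl | rfl
        · rw [if_pos rfl, halt, if_neg]
          rintro ⟨h1, -⟩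
          exact absurd (congrArg Prod.fst h1) (by simp)
        · rw [if_pos rfl, if_neg (by decide), hef, if_pos ⟨rfl, by omega⟩]
          simp
        · rw [if_neg (by decide), if_pos rfl, hfe, if_pos ⟨rfl, by omega⟩]
          simp
        · rw [if_neg (by decide), halt, if_neg]
          rintro ⟨h1, -⟩
          exact absurd (congrArg Prod.fst h1) (by simp)
      · simp only [if_pos hk, if_neg hl]
        have h1 : ¬((y, l) = bar ((x, k) : Lt G) ∧ (k : ℕ) < g + 1) := by
          rintro ⟨h1, -⟩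
          exact hl ((congrArg (fun z : Lt G => (z.2 : ℕ)) h1).trans hk)
        rw [if_neg h1]
        rcases fin2 x with rfl | rfl
        · rw [if_pos rfl, he]
        · rw [if_neg (by decide), hf]
    · by_cases hl : (l : ℕ) = g
      · simp only [if_neg hk, if_pos hl]
        have h1 : ¬((y, l) = bar ((x, k) : Lt G) ∧ (k : ℕ) < g + 1) := by
          rintro ⟨h1, -⟩
          exact hk ((congrArg (fun z : Lt G => (z.2 : ℕ)) h1).symm.trans hl)
        rw [if_neg h1]
        rcases fin2 y with rfl | rfl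
        · rw [if_pos rfl, hbe]
        · rw [if_neg (by decide), hbf]
      · simp only [if_neg hk, if_neg hl]
        rw [h.form]
        refine if_congr ?_ rfl rfl
        refine and_congr_right fun _ => ?_
        simp only
        omega
  · intro r hr
    have h1 : (r.2 : ℕ) ≠ g := by omega
    simp only [if_neg h1]
    exact h.off r (by omega)
  · intro k
    by_cases hk : (k : ℕ) = g
    · simp only [if_pos hk]
      exact ha
    · simp only [if_neg hk]
      exact h.small k
  · intro k
    by_cases hk : (k : ℕ) = g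
    · simp only [if_pos hk]
      exact hYe
    · simp only [if_neg hk]
      exact h.eig0 k
  · intro k
    by_cases hk : (k : ℕ) = g
    · simp only [if_pos hk]
      exact hYf
    · simp only [if_neg hk]
      exact h.eig1 k

/-- the eigenvalue of a letter -/
def evl (w : ℚ) (α : Fin (G + 1) → ℚ) (r : Lt G) : ℚ := if r.1 = 0 then α r.2 else w - α r.2

theorem evl_bar (w : ℚ) (α : Fin (G + 1) → ℚ) (r : Lt G) :
    evl w α (bar r) = w - evl w α r := by
  obtain ⟨a, k⟩ := r
  rcases fin2 a with rfl | rfl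
  · rfl
  · change α k = w - (w - α k)
    ring

theorem Part.eig (h : Part B Y w g b α) (r : Lt G) : Y (b r) = (evl w α r : K) • b r := by
  obtain ⟨a, k⟩ := r
  rcases fin2 a with rfl | rfl
  · exact h.eig0 k
  · exact h.eig1 k

theorem Part.card_le (h : Part B Y w g b α) [FiniteDimensional K T] (hg : g ≤ G + 1) :
    2 * g ≤ finrank K T := by
  have h1 : LinearIndependent K fun r : Fin 2 × Fin g => b (r.1, Fin.castLE hg r.2) := by
    rw [Fintype.linearIndependent_iff]
    intro c hc r
    have h2 := congrArg (fun z => B z (b (bar (r.1, Fin.castLE hg r.2)))) hc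
    simp only [map_sum, map_smul, LinearMap.sum_apply, LinearMap.smul_apply, map_zero,
      LinearMap.zero_apply, smul_eq_mul] at h2
    rw [Finset.sum_eq_single r] at h2
    · rw [h.form, if_pos ⟨rfl, by simp⟩] at h2
      refine (mul_eq_zero.1 h2).resolve_right ?_
      have h3 := sg_sq ((r.1, Fin.castLE hg r.2) : Lt G)
      intro h4
      have h5 : (sg ((r.1, Fin.castLE hg r.2) : Lt G) : K) *
        (sg ((r.1, Fin.castLE hg r.2) : Lt G) : K) = 1 := by exact_mod_cast h3
      rw [h4, mul_zero] at h5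
      exact zero_ne_one h5
    · intro r' _ hr'
      rw [h.form, if_neg, mul_zero]
      rintro ⟨h3, -⟩
      apply hr'
      have h4 := congrArg bar h3
      rw [bar_bar, bar_bar] at h4
      have h5 := congrArg Prod.fst h4
      have h6 := congrArg Prod.snd h4
      exact Prod.ext h5.symm (Fin.castLE_injective hg h6.symm)
    · intro h3
      exact absurd (Finset.mem_univ _) h3
  have h2 := h1.fintype_card_le_finrank
  simpa using h2

/-- **Symplectic bases of eigenvectors.** -/
theorem exists_sbas [FiniteDimensional K T] (halt : ∀ x, B x x = 0)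
    (hnd : ∀ x, (∀ y, B x y = 0) → x = 0)
    (hY : ∀ x y, B (Y x) y + B x (Y y) = (w : K) * B x y)
    (hspan : Submodule.span K {x | ∃ a : ℚ, Y x = (a : K) • x} = ⊤) (hG : finrank K T ≤ G) :
    ∃ g ≤ G + 1, ∃ b : Lt G → T, ∃ α : Fin (G + 1) → ℚ, SBas B g b ∧ Part B Y w g b α := by
  classical
  let Q : ℕ → Prop := fun g => ∃ b : Lt G → T, ∃ α : Fin (G + 1) → ℚ, Part B Y w g b α
  have hQ0 : Q 0 := by
    refine ⟨fun _ => 0, fun _ => w / 2, fun r r' => ?_, fun _ _ => rfl, fun k => ?_,
      fun k => ?_, fun k => ?_⟩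
    · rw [if_neg (fun h => absurd h.2 (Nat.not_lt_zero _)), map_zero]
    · exact le_of_eq (by ring)
    · rw [map_zero, smul_zero]
    · rw [map_zero, smul_zero]
  set g := Nat.findGreatest Q (G + 1) with hgdef
  have hg : g ≤ G + 1 := Nat.findGreatest_le _
  have hQg : Q g := Nat.findGreatest_spec (m := 0) (Nat.zero_le _) hQ0
  obtain ⟨b, α, hb⟩ := hQg
  refine ⟨g, hg, b, α, ⟨hb.form, hb.off, ?_⟩, hb⟩
  by_contra hcon
  push Not at hcon
  obtain ⟨x₀, hx₀⟩ := hcon
  have h2g := hb.card_le hg
  have hgG : g < G + 1 := by omega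
  -- the projection
  let P : T →ₗ[K] T := LinearMap.id - ∑ r, ((sg r : K) • B.flip (b (bar r))).smulRight (b r)
  have hP : ∀ x, P x = x - ∑ r, ((sg r : K) * B x (b (bar r))) • b r := by
    intro x
    simp [P, LinearMap.sum_apply]
  have hPb : ∀ x r, B (P x) (b r) = 0 := by
    intro x r
    rw [hP, map_sub, map_sum, LinearMap.sub_apply, LinearMap.sum_apply,
      Finset.sum_eq_single (bar r)]
    · rw [map_smul, LinearMap.smul_apply, hb.form, bar_bar, smul_eq_mul]
      by_cases hr : (r.2 : ℕ) < g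
      · rw [if_pos ⟨rfl, hr⟩]
        have h3 : (sg (bar r) : K) * (sg (bar r) : K) = 1 := by exact_mod_cast sg_sq (bar r)
        linear_combination -(B x (b r)) * h3
      · rw [if_neg fun h => hr h.2, mul_zero, hb.off r (not_lt.1 hr), map_zero, sub_zero]
    · intro r' _ hr'
      rw [map_smul, LinearMap.smul_apply, hb.form, if_neg, smul_zero]
      rintro ⟨h3, -⟩
      exact hr' (by rw [h3, bar_bar])
    · intro h3
      exact absurd (Finset.mem_univ _) h3
  have hPe : ∀ x (a : ℚ), Y x = (a : K) • x → Y (P x) = (a : K) • P x := by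
    intro x a hx
    rw [hP, map_sub, hx, map_sum, smul_sub, Finset.smul_sum]
    congr 1
    refine Finset.sum_congr rfl fun r _ => ?_
    rw [map_smul, hb.eig, smul_smul, smul_smul]
    congr 1
    have h3 := hY x (b (bar r))
    rw [hx, hb.eig, map_smul, map_smul, LinearMap.smul_apply, smul_eq_mul, smul_eq_mul,
      evl_bar] at h3
    push_cast at h3
    linear_combination -(sg r : K) * h3
  -- an eigenvector in the complement
  obtain ⟨x, a, hxa, hx⟩ : ∃ x, ∃ a : ℚ, Y x = (a : K) • x ∧ P x ≠ 0 := by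
    by_contra hcon
    push Not at hcon
    apply hx₀
    have h3 : P = 0 := by
      refine LinearMap.ext_on hspan ?_
      rintro x ⟨a, ha⟩
      exact hcon x a ha
    have h4 := hP x₀
    rw [h3, LinearMap.zero_apply] at h4
    exact (sub_eq_zero.1 h4.symm)
  set e := P x with he
  have hYe := hPe x a hxa
  rw [← he] at hYe
  obtain ⟨y, c, hyc, hy⟩ : ∃ y, ∃ c : ℚ, Y y = (c : K) • y ∧ B e y ≠ 0 := by
    by_contra hcon
    push Not at hcon
    apply hx
    refine hnd e fun y => ?_
    have h3 : B e = 0 := by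
      refine LinearMap.ext_on hspan ?_
      rintro x ⟨a, ha⟩
      exact hcon x a ha
    rw [h3, LinearMap.zero_apply]
  set f := P y with hf
  have hYf := hPe y c hyc
  rw [← hf] at hYf
  have hef : B e f ≠ 0 := by
    have h3 : B e f = B e y := by
      rw [hf, hP, map_sub, map_sum, Finset.sum_eq_zero, sub_zero]
      intro r _
      rw [map_smul, hPb, smul_zero]
    rwa [h3]
  have hac : a + c = w := by
    have h3 := hY e f
    rw [hYe, hYf, map_smul, map_smul, LinearMap.smul_apply, smul_eq_mul, smul_eq_mul] at h3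
    have h4 : ((a : K) + c - w) * B e f = 0 := by linear_combination h3
    have h5 := (mul_eq_zero.1 h4).resolve_right hef
    have h6 : ((a + c - w : ℚ) : K) = 0 := by
      push_cast
      exact h5
    have h7 : a + c - w = 0 := by exact_mod_cast h6
    linarith
  have key : Q (g + 1) := by
    by_cases h3 : 2 * a ≤ w
    · refine hb.succ halt hgG (e := e) (f := (B e f)⁻¹ • f) ?_ (fun r => hPb x r) (fun r => ?_)
        h3 hYe ?_
      · rw [map_smul, smul_eq_mul, inv_mul_cancel₀ hef]
      · rw [map_smul, LinearMap.smul_apply, hPb, smul_zero]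
      · rw [map_smul, hYf, smul_comm]
        congr 2
        rw [← hac]
        ring
    · have hfe : B f e ≠ 0 := by
        rw [anti halt]
        exact neg_ne_zero.2 hef
      refine hb.succ halt hgG (e := f) (f := (B f e)⁻¹ • e) ?_ (fun r => hPb y r) (fun r => ?_)
        (a := c) (by linarith) hYf ?_
      · rw [map_smul, smul_eq_mul, inv_mul_cancel₀ hfe]
      · rw [map_smul, LinearMap.smul_apply, hPb, smul_zero]
      · rw [map_smul, hYe, smul_comm]
        congr 2
        rw [← hac]
        ring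
  have h3 := Nat.le_findGreatest (P := Q) (n := G + 1) (m := g + 1) hgG key
  omega

/-- Symplectic bases. -/
theorem exists_sbas0 [FiniteDimensional K T] (halt : ∀ x, B x x = 0)
    (hnd : ∀ x, (∀ y, B x y = 0) → x = 0) (hG : finrank K T ≤ G) :
    ∃ g ≤ G + 1, ∃ b : Lt G → T, SBas B g b := by
  obtain ⟨g, hg, b, α, h, -⟩ := exists_sbas (Y := 0) (w := 0) halt hnd (fun x y => by simp)
    (by
      rw [eq_top_iff]
      intro x _
      refine Submodule.subset_span ⟨0, by simp⟩) hG
  exact ⟨g, hg, b, h⟩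

end

/-- skew operators of rank two -/
noncomputable def opA (B : T →ₗ[K] T →ₗ[K] K) (u v : T) : T →ₗ[K] T :=
  (B u).smulRight v + (B v).smulRight u

theorem opA_apply (B : T →ₗ[K] T →ₗ[K] K) (u v x : T) : opA B u v x = B u x • v + B v x • u := rfl

theorem opA_skew {B : T →ₗ[K] T →ₗ[K] K} (halt : ∀ x, B x x = 0) (u v x y : T) :
    B (opA B u v x) y + B x (opA B u v y) = 0 := by
  rw [opA_apply, opA_apply, map_add, map_add, map_smul, map_smul, map_smul, map_smul,
    LinearMap.add_apply, LinearMap.smul_apply, LinearMap.smul_apply]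
  simp only [smul_eq_mul]
  rw [anti halt x v, anti halt x u]
  ring

end Pool.Agent.Y132.AF
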