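import Mathlib
import Pool.Agent.Y132.AF.Sym

/-!
# Positivity
-/

set_option linter.unusedSectionVars false
set_option linter.unusedVariables false

namespace Pool.Agent.Y132.AF

open Module Finset Function

variable {G : ℕ} {Λ : Type} [Fintype Λ] [DecidableEq Λ]

theorem sum_update {R : Type} [Fintype R] {M : Type*} [AddCommMonoid M] (s : Λ)
    (y : (Λ → R) → M) :
    ∑ J : Λ → R, ∑ r, y (update J s r) = Fintype.card R • ∑ J, y J := by
  classical
  let φ : (Λ → R) × R ≃ (Λ → R) × R :=
    { toFun := fun p => (update p.1 s p.2, p.1 s)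
      invFun := fun p => (update p.1 s p.2, p.1 s)
      left_inv := fun p => by
        refine Prod.ext ?_ ?_
        · simp only [update_idem, update_eq_self]
        · simp only [update_self]
      right_inv := fun p => by
        refine Prod.ext ?_ ?_
        · simp only [update_idem, update_eq_self]
        · simp only [update_self] }
  rw [← Fintype.sum_prod_type (f := fun p : (Λ → R) × R => y (update p.1 s p.2))]
  have h1 : ∑ p : (Λ → R) × R, y (update p.1 s p.2) = ∑ p : (Λ → R) × R, y p.1 :=
    Fintype.sum_equiv φ _ _ fun p => rfl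
  rw [h1, Fintype.sum_prod_type, Finset.smul_sum]
  refine Finset.sum_congr rfl fun J _ => ?_
  simp

theorem sum_update2 {R : Type} [Fintype R] {M : Type*} [AddCommMonoid M] (p q : Λ)
    (y : (Λ → R) → M) :
    ∑ J : Λ → R, ∑ r, ∑ r', y (update (update J p r) q r') =
      Fintype.card R • (Fintype.card R • ∑ J, y J) := by
  rw [sum_update p (fun J => ∑ r', y (update J q r')), sum_update q y]

/-- the form on letters -/
def omz (g : ℕ) (a b : Lt G) : ℤ := if b = bar a ∧ (a.2 : ℕ) < g then sg a else 0

/-- the contraction -/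
def ctw {E : Type*} [AddCommGroup E] (p q : Λ) (F : (Λ → Lt G) → E) (J : Λ → Lt G) : E :=
  ∑ r, sg r • F (update (update J p r) q (bar r))

theorem upd_four {R : Type} {p q : Λ} (J : Λ → R) (a b x y : R) :
    update (update (update (update J p a) q b) p x) q y = update (update J p x) q y := by
  funext s
  by_cases h1 : s = q
  · rw [h1, update_self, update_self]
  · rw [update_of_ne h1, update_of_ne h1]
    by_cases h2 : s = p
    · rw [h2, update_self, update_self]
    · rw [update_of_ne h2, update_of_ne h2, update_of_ne h1, update_of_ne h2]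

theorem ctw_indep {E : Type*} [AddCommGroup E] {p q : Λ} (hpq : p ≠ q) (F : (Λ → Lt G) → E)
    (J : Λ → Lt G) (a b : Lt G) : ctw p q F (update (update J p a) q b) = ctw p q F J := by
  refine Finset.sum_congr rfl fun r _ => ?_
  rw [upd_four]

theorem sum_omz {M : Type*} [AddCommGroup M] (g : ℕ) (z : Lt G → Lt G → M)
    (hz : ∀ a b, g ≤ (a.2 : ℕ) → z a b = 0) :
    ∑ a, ∑ b, omz g a b • z a b = ∑ a, sg a • z a (bar a) := by
  refine Finset.sum_congr rfl fun a _ => ?_
  rw [Finset.sum_eq_single (bar a)]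
  · by_cases h : (a.2 : ℕ) < g
    · rw [omz, if_pos ⟨rfl, h⟩]
    · rw [hz a _ (not_lt.1 h), smul_zero, smul_zero]
  · intro b _ hb
    rw [omz, if_neg fun h => hb h.1, zero_smul]
  · intro h
    exact absurd (Finset.mem_univ _) h

/-- **Positivity of the operator `Ω`.** -/
theorem omega_q {S : Finset (Λ × Λ)} (hS : ∀ p ∈ S, p.1 ≠ p.2) {g : Λ → ℕ}
    {x : (Λ → Lt G) → ℚ} (off : ∀ p ∈ S, ∀ J, g p.1 ≤ ((J p.1).2 : ℕ) → x J = 0)
    (hΩ : ∀ J, ∑ p ∈ S, omz (g p.1) (J p.1) (J p.2) • ctw p.1 p.2 x J = 0) :
    ∀ p ∈ S, ∀ J, ctw p.1 p.2 x J = 0 := by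
  have key : ∀ p ∈ S, (Fintype.card (Lt G) : ℚ) * ((Fintype.card (Lt G) : ℚ) *
      ∑ J, x J * (omz (g p.1) (J p.1) (J p.2) • ctw p.1 p.2 x J)) =
      ∑ J, ctw p.1 p.2 x J ^ 2 := by
    intro p hp
    have h1 := sum_update2 p.1 p.2 (fun J => x J * (omz (g p.1) (J p.1) (J p.2) •
      ctw p.1 p.2 x J))
    rw [nsmul_eq_mul, nsmul_eq_mul] at h1
    rw [← h1]
    refine Finset.sum_congr rfl fun J _ => ?_
    have h2 : ∀ r r', x (update (update J p.1 r) p.2 r') * (omz (g p.1)
        (update (update J p.1 r) p.2 r' p.1) (update (update J p.1 r) p.2 r' p.2) •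
          ctw p.1 p.2 x (update (update J p.1 r) p.2 r')) =
        omz (g p.1) r r' • (x (update (update J p.1 r) p.2 r') * ctw p.1 p.2 x J) := by
      intro r r'
      rw [update_self, update_of_ne (hS p hp), update_self, ctw_indep (hS p hp), mul_smul_comm]
    simp only [h2]
    rw [sum_omz (g p.1) fun r r' => x (update (update J p.1 r) p.2 r') * ctw p.1 p.2 x J]
    · have h3 : ctw p.1 p.2 x J ^ 2 = (∑ r, sg r • x (update (update J p.1 r) p.2 (bar r))) *
          ctw p.1 p.2 x J := sq _
      rw [h3, Finset.sum_mul]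
      refine Finset.sum_congr rfl fun r _ => ?_
      rw [smul_mul_assoc]
    · intro a b ha
      rw [off p hp _ (by rw [update_of_ne (hS p hp), update_self]; exact ha), zero_mul]
  have h0 : ∑ p ∈ S, ∑ J, ctw p.1 p.2 x J ^ 2 = 0 := by
    rw [← Finset.sum_congr rfl key, ← Finset.mul_sum, ← Finset.mul_sum, Finset.sum_comm]
    rw [Finset.sum_eq_zero, mul_zero, mul_zero]
    intro J _
    rw [← Finset.mul_sum, hΩ, mul_zero]
  intro p hp J
  have h1 := (Finset.sum_eq_zero_iff_of_nonneg (fun p _ => Finset.sum_nonneg fun J _ =>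
    sq_nonneg (ctw p.1 p.2 x J))).1 h0 p hp
  have h2 := (Finset.sum_eq_zero_iff_of_nonneg (fun J _ =>
    sq_nonneg (ctw p.1 p.2 x J))).1 h1 J (Finset.mem_univ _)
  exact pow_eq_zero_iff (two_ne_zero) |>.1 h2

/-- **Positivity: the corner.** -/
theorem corner_q {S : Finset Λ} {g : ℕ} {x : (Λ → Lt G) → ℚ}
    (off : ∀ s ∈ S, ∀ J, g ≤ ((J s).2 : ℕ) → x J = 0)
    (tr : ∀ p ∈ S, ∀ q ∈ S, p ≠ q → ∀ J,
      ∑ k : Fin (G + 1), x (update (update J p (0, k)) q (1, k)) =
        ∑ k : Fin (G + 1), x (update (update J p (1, k)) q (0, k)))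
    (lo : ∀ k l : Fin (G + 1), (k : ℕ) < g → (l : ℕ) < g → ∀ J : Λ → Lt G,
      (∑ s ∈ S, if J s = (0, k) then x (update J s (1, l)) else 0) +
        (∑ s ∈ S, if J s = (0, l) then x (update J s (1, k)) else 0) = 0) :
    ∀ s ∈ S, ∀ J, (J s).1 = 1 → x J = 0 := by
  classical
  let A : Fin (G + 1) → Fin (G + 1) → (Λ → Lt G) → ℚ := fun k l J =>
    ∑ s ∈ S, if J s = (0, k) then x (update J s (1, l)) else 0
  let t : Λ → Λ → Fin (G + 1) → Fin (G + 1) → (Λ → Lt G) → ℚ := fun s s' k l J =>
    if (k : ℕ) < g ∧ (l : ℕ) < g then (if J s = (0, k) then x (update J s (1, l)) else 0) *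
      (if J s' = (0, l) then x (update J s' (1, k)) else 0) else 0
  have hA : ∀ (k l : Fin (G + 1)) (J : Λ → Lt G), (if (k : ℕ) < g ∧ (l : ℕ) < g then A k l J * A l k J else 0) =
      ∑ s ∈ S, ∑ s' ∈ S, t s s' k l J := by
    intro k l J
    by_cases h : (k : ℕ) < g ∧ (l : ℕ) < g
    · simp only [t, if_pos h]
      simp only [A]
      rw [Finset.sum_mul_sum]
    · simp only [t, if_neg h]
      simp
  -- the diagonal terms
  have hdiag : ∀ s k l J, 0 ≤ t s s k l J := by
    intro s k l J
    simp only [t]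
    by_cases h : (k : ℕ) < g ∧ (l : ℕ) < g
    · rw [if_pos h]
      by_cases h1 : J s = (0, k)
      · by_cases h2 : J s = (0, l)
        · have hkl : k = l := congrArg Prod.snd (h1.symm.trans h2)
          subst hkl
          rw [if_pos h1]
          exact mul_self_nonneg _
        · rw [if_neg h2, mul_zero]
      · rw [if_neg h1, zero_mul]
    · rw [if_neg h]
  -- the other terms
  have hoff : ∀ s ∈ S, ∀ s' ∈ S, s ≠ s' → 0 ≤ ∑ J, ∑ k, ∑ l, t s s' k l J := by
    intro s hs s' hs' hss
    have h1 := sum_update2 (R := Lt G) s s' (fun J => ∑ k, ∑ l, t s s' k l J)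
    have h2 : ∀ J : Λ → Lt G, ∑ r, ∑ r', ∑ k, ∑ l, t s s' k l (update (update J s r) s' r') =
        (∑ k : Fin (G + 1), x (update (update J s (0, k)) s' (1, k))) ^ 2 := by
      intro J
      have e1 : ∀ (r r' : Lt G) (k l : Fin (G + 1)), t s s' k l (update (update J s r) s' r') =
          if (k : ℕ) < g ∧ (l : ℕ) < g then (if r = (0, k) ∧ r' = (0, l) then
            x (update (update J s (1, l)) s' (0, l)) * x (update (update J s (0, k)) s' (1, k))
              else 0) else 0 := by
        intro r r' k l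
        simp only [t]
        by_cases h : (k : ℕ) < g ∧ (l : ℕ) < g
        · rw [if_pos h, if_pos h, update_self, update_of_ne hss, update_self]
          by_cases h3 : r = (0, k)
          · by_cases h4 : r' = (0, l)
            · rw [if_pos h3, if_pos h4, if_pos ⟨h3, h4⟩, update_idem, h4, h3,
                update_comm hss.symm, update_idem]
            · rw [if_neg h4, mul_zero, if_neg fun h => h4 h.2]
          · rw [if_neg h3, zero_mul, if_neg fun h => h3 h.1]
        · rw [if_neg h, if_neg h]
      simp only [e1]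
      have e2 : ∀ k l : Fin (G + 1), ∑ r : Lt G, ∑ r' : Lt G, (if (k : ℕ) < g ∧ (l : ℕ) < g then
          (if r = (0, k) ∧ r' = (0, l) then x (update (update J s (1, l)) s' (0, l)) *
            x (update (update J s (0, k)) s' (1, k)) else 0) else 0) =
          x (update (update J s (1, l)) s' (0, l)) *
            x (update (update J s (0, k)) s' (1, k)) := by
        intro k l
        rw [Finset.sum_eq_single ((0, k) : Lt G)]
        · rw [Finset.sum_eq_single ((0, l) : Lt G)]
          · by_cases h : (k : ℕ) < g ∧ (l : ℕ) < g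
            · rw [if_pos h, if_pos ⟨rfl, rfl⟩]
            · rw [if_neg h]
              rw [not_and_or] at h
              rcases h with h | h
              · rw [off s hs (update (update J s (0, k)) s' (1, k)) (by
                  rw [update_of_ne hss, update_self]
                  exact not_lt.1 h), mul_zero]
              · rw [off s hs (update (update J s (1, l)) s' (0, l)) (by
                  rw [update_of_ne hss, update_self]
                  exact not_lt.1 h), zero_mul]
          · intro r' _ hr'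
            by_cases h : (k : ℕ) < g ∧ (l : ℕ) < g
            · rw [if_pos h, if_neg fun h => hr' h.2]
            · rw [if_neg h]
          · intro h
            exact absurd (Finset.mem_univ _) h
        · intro r _ hr
          refine Finset.sum_eq_zero fun r' _ => ?_
          by_cases h : (k : ℕ) < g ∧ (l : ℕ) < g
          · rw [if_pos h, if_neg fun h => hr h.1]
          · rw [if_neg h]
        · intro h
          exact absurd (Finset.mem_univ _) h
      calc ∑ r : Lt G, ∑ r' : Lt G, ∑ k : Fin (G + 1), ∑ l : Fin (G + 1),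
            (if (k : ℕ) < g ∧ (l : ℕ) < g then
            (if r = (0, k) ∧ r' = (0, l) then x (update (update J s (1, l)) s' (0, l)) *
              x (update (update J s (0, k)) s' (1, k)) else 0) else 0)
          = ∑ k : Fin (G + 1), ∑ l : Fin (G + 1), ∑ r : Lt G, ∑ r' : Lt G,
            (if (k : ℕ) < g ∧ (l : ℕ) < g then
            (if r = (0, k) ∧ r' = (0, l) then x (update (update J s (1, l)) s' (0, l)) *
              x (update (update J s (0, k)) s' (1, k)) else 0) else 0) := by
            have e3 : ∀ u : Lt G → Lt G → Fin (G + 1) → Fin (G + 1) → ℚ,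
                ∑ r, ∑ r', ∑ k, ∑ l, u r r' k l = ∑ k, ∑ l, ∑ r, ∑ r', u r r' k l := by
              intro u
              have e4 : ∀ r, ∑ r', ∑ k, ∑ l, u r r' k l = ∑ k, ∑ l, ∑ r', u r r' k l := by
                intro r
                rw [Finset.sum_comm]
                exact Finset.sum_congr rfl fun k _ => Finset.sum_comm
              rw [Finset.sum_congr rfl fun r _ => e4 r, Finset.sum_comm]
              exact Finset.sum_congr rfl fun k _ => Finset.sum_comm
            exact e3 _
        _ = ∑ k : Fin (G + 1), ∑ l : Fin (G + 1), x (update (update J s (1, l)) s' (0, l)) *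
              x (update (update J s (0, k)) s' (1, k)) :=
            Finset.sum_congr rfl fun k _ => Finset.sum_congr rfl fun l _ => e2 k l
        _ = _ := by
            rw [sq, Finset.sum_mul_sum, Finset.sum_comm]
            rw [← Finset.sum_mul_sum, ← Finset.sum_mul_sum, ← tr s hs s' hs' hss]
    simp only [h2] at h1
    rw [nsmul_eq_mul, nsmul_eq_mul] at h1
    have h3 : 0 ≤ ∑ J : Λ → Lt G,
        (∑ k : Fin (G + 1), x (update (update J s (0, k)) s' (1, k))) ^ 2 :=
      Finset.sum_nonneg fun J _ => sq_nonneg _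
    rw [h1] at h3
    have h4 : (0 : ℚ) < (Fintype.card (Lt G) : ℚ) := by
      rw [Nat.cast_pos]
      exact Fintype.card_pos
    by_contra hcon
    rw [not_le] at hcon
    have h5 := mul_neg_of_pos_of_neg h4 (mul_neg_of_pos_of_neg h4 hcon)
    exact absurd h3 (not_le.2 h5)
  -- the sum
  have hsum : ∑ s ∈ S, ∑ s' ∈ S, ∑ J, ∑ k, ∑ l, t s s' k l J ≤ 0 := by
    have e1 : ∑ s ∈ S, ∑ s' ∈ S, ∑ J, ∑ k, ∑ l, t s s' k l J =
        ∑ J, ∑ k, ∑ l, ∑ s ∈ S, ∑ s' ∈ S, t s s' k l J := by
      have e2 : ∀ s ∈ S, ∑ s' ∈ S, ∑ J : Λ → Lt G, ∑ k, ∑ l, t s s' k l J =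
          ∑ J : Λ → Lt G, ∑ k, ∑ l, ∑ s' ∈ S, t s s' k l J := by
        intro s _
        rw [Finset.sum_comm]
        refine Finset.sum_congr rfl fun J _ => ?_
        rw [Finset.sum_comm]
        refine Finset.sum_congr rfl fun k _ => ?_
        rw [Finset.sum_comm]
      rw [Finset.sum_congr rfl e2, Finset.sum_comm]
      refine Finset.sum_congr rfl fun J _ => ?_
      rw [Finset.sum_comm]
      refine Finset.sum_congr rfl fun k _ => ?_
      rw [Finset.sum_comm]
    rw [e1]
    refine Finset.sum_nonpos fun J _ => Finset.sum_nonpos fun k _ => Finset.sum_nonpos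
      fun l _ => ?_
    rw [← hA]
    by_cases h : (k : ℕ) < g ∧ (l : ℕ) < g
    · rw [if_pos h]
      have h1 : A k l J + A l k J = 0 := lo k l h.1 h.2 J
      have h2 : A l k J = -A k l J := by linarith
      rw [h2]
      nlinarith [mul_self_nonneg (A k l J)]
    · rw [if_neg h]
  have hzero : ∀ s ∈ S, ∑ J, ∑ k, ∑ l, t s s k l J = 0 := by
    have h1 : ∀ s ∈ S, ∑ J, ∑ k, ∑ l, t s s k l J ≤ ∑ s' ∈ S, ∑ J, ∑ k, ∑ l, t s s' k l J := by
      intro s hs
      refine Finset.single_le_sum (f := fun s' => ∑ J, ∑ k, ∑ l, t s s' k l J)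
        (fun s' hs' => ?_) hs
      by_cases h : s = s'
      · subst h
        exact Finset.sum_nonneg fun J _ => Finset.sum_nonneg fun k _ => Finset.sum_nonneg
          fun l _ => hdiag s k l J
      · exact hoff s hs s' hs' h
    have h2 : ∑ s ∈ S, ∑ J, ∑ k, ∑ l, t s s k l J ≤ 0 :=
      (Finset.sum_le_sum h1).trans hsum
    have h3 : ∀ s ∈ S, 0 ≤ ∑ J, ∑ k, ∑ l, t s s k l J := fun s _ =>
      Finset.sum_nonneg fun J _ => Finset.sum_nonneg fun k _ => Finset.sum_nonneg
        fun l _ => hdiag s k l J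
    exact fun s hs => (Finset.sum_eq_zero_iff_of_nonneg h3).1
      (le_antisymm h2 (Finset.sum_nonneg h3)) s hs
  intro s hs J hJ
  by_cases hk : g ≤ ((J s).2 : ℕ)
  · exact off s hs J hk
  · rw [not_le] at hk
    have h1 := (Finset.sum_eq_zero_iff_of_nonneg (fun J _ => Finset.sum_nonneg fun k _ =>
      Finset.sum_nonneg fun l _ => hdiag s k l J)).1 (hzero s hs)
        (update J s (0, (J s).2)) (Finset.mem_univ _)
    have h2 := (Finset.sum_eq_zero_iff_of_nonneg (fun k _ =>
      Finset.sum_nonneg fun l _ => hdiag s k l (update J s (0, (J s).2)))).1 h1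
        (J s).2 (Finset.mem_univ _)
    have h3 := (Finset.sum_eq_zero_iff_of_nonneg (fun l _ =>
      hdiag s (J s).2 l (update J s (0, (J s).2)))).1 h2 (J s).2 (Finset.mem_univ _)
    have h4 : update J s (1, (J s).2) = J := by
      have h5 : (1, (J s).2) = J s := Prod.ext hJ.symm rfl
      rw [h5, update_eq_self]
    simp only [t] at h3
    rw [if_pos ⟨hk, hk⟩, update_self, if_pos rfl, update_idem, h4] at h3
    exact mul_self_eq_zero.1 h3

end Pool.Agent.Y132.AF
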