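import Pool.Agent.Y132.EP.Asm2
import Pool.Agent.Y132.AF.Asm

/-!
# Permutations of the factors, pairs of factors
-/

open CategoryTheory AlgebraicGeometry Finset Function
open Pool.Agent.Y132.EP (DG tow idm map_idm exm map_exm)

set_option linter.unusedSectionVars false

universe u v w

namespace Pool.Agent.Y132.AF

open Pool.Agent.H914 Pool.Agent.H914.VarClass Pool.Agent.H914.VarClass.Obj
  Pool.Agent.H914.WeilCohomology Pool.Agent.H281R3.HT Pool.Agent.W552 Pool.Agent.TH125.Gal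

section upd

variable {κ : ℕ} {Λ : Type} [DecidableEq Λ] {E : Type*}

theorem upd_comm {s t : Λ} (hst : s ≠ t) (a b : Lt κ) (G : (Λ → Lt κ) → E) :
    upd s a (upd t b G) = upd t b (upd s a G) := by
  funext J
  simp only [upd]
  rw [update_comm hst]

end upd

variable {κ : ℕ} {k : Type u} [Field k] {𝒱 : VarClass k} {ops : CycleOps 𝒱}
  {W : WeilCohomology.{u, 0} ops} {Γ : Type} [Group Γ] {ι : Type} {Λ : Type} [DecidableEq Λ]
  {X : ι → DG W Γ} {c : Λ → ι} {f : ∀ i, SFrame κ (X i).X W}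

/-- **Permutations of the factors.** -/
theorem asm_perm {Z : DG W Γ} (hmid : ∀ i, transcendental W (X i).X ≤
    W.gr (X i).X (X i).X.dim) {l l' : List Λ} (h : l.Perm l') (hl : l.Nodup) :
    ∃ (φ : (tow X Z c l).X ⟶ (tow X Z c l').X) (ε : W.K), ∀ F,
      asm X c f Z l F = ε • W.map φ (asm X c f Z l' F) := by
  induction h with
  | nil => exact ⟨𝟙 _, 1, fun F => by rw [W.map_id, one_smul]⟩
  | @cons s l l' _ ih =>
    obtain ⟨φ, ε, h⟩ := ih (List.nodup_cons.1 hl).2
    refine ⟨idm (X (c s)).X φ, ε, fun F => ?_⟩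
    rw [asm_cons, asm_cons, map_sum, Finset.smul_sum]
    refine Finset.sum_congr rfl fun a _ => ?_
    rw [h, map_smul, mul_smul_comm]
    congr 1
    exact (map_idm _ φ _ _).symm
  | swap s t l =>
    have hst : t ≠ s := by
      rintro rfl
      exact (List.nodup_cons.1 hl).1 List.mem_cons_self
    refine ⟨exm (X (c t)).X (X (c s)).X (tow X Z c l).X,
      (-1 : W.K) ^ ((X (c t)).X.dim * (X (c s)).X.dim), fun F => ?_⟩
    simp only [asm_cons, map_sum, Finset.mul_sum, Finset.smul_sum]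
    rw [Finset.sum_comm]
    refine Finset.sum_congr rfl fun a _ => Finset.sum_congr rfl fun b _ => ?_
    have h1 := map_exm (W := W) (X (c t)).X (X (c s)).X (tow X Z c l).X ((f (c s)).t a)
      ((f (c t)).t b) (asm X c f Z l (upd t b (upd s a F)))
    refine Eq.trans ?_ (congrArg (fun x => (-1 : W.K) ^ ((X (c t)).X.dim * (X (c s)).X.dim) • x)
      h1.symm)
    rw [upd_comm hst]
    have h2 : W.map (fst (X (c t)).X ((X (c s)).X.prod (tow X Z c l).X)) ((f (c t)).t b) *
        W.map (snd (X (c t)).X ((X (c s)).X.prod (tow X Z c l).X))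
          (W.map (fst (X (c s)).X (tow X Z c l).X) ((f (c s)).t a)) =
        (-1 : W.K) ^ ((X (c t)).X.dim * (X (c s)).X.dim) •
        (W.map (snd (X (c t)).X ((X (c s)).X.prod (tow X Z c l).X))
          (W.map (fst (X (c s)).X (tow X Z c l).X) ((f (c s)).t a)) *
          W.map (fst (X (c t)).X ((X (c s)).X.prod (tow X Z c l).X)) ((f (c t)).t b)) :=
      W.comm (W.map_mem _ (hmid _ ((f (c t)).t_mem b)))
        (W.map_mem _ (W.map_mem _ (hmid _ ((f (c s)).t_mem a))))
    change W.map (fst (X (c t)).X ((X (c s)).X.prod (tow X Z c l).X)) ((f (c t)).t b) *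
        W.map (snd (X (c t)).X ((X (c s)).X.prod (tow X Z c l).X))
          (W.map (fst (X (c s)).X (tow X Z c l).X) ((f (c s)).t a) *
            W.map (snd (X (c s)).X (tow X Z c l).X) (asm X c f Z l (upd s a (upd t b F)))) = _
    rw [map_mul, ← mul_assoc, h2, smul_mul_assoc, mul_assoc]
  | trans h1 _ ih1 ih2 =>
    obtain ⟨φ, ε, h⟩ := ih1 hl
    obtain ⟨φ', ε', h'⟩ := ih2 (h1.nodup_iff.1 hl)
    exact ⟨φ ≫ φ', ε * ε', fun F => by rw [h, h', map_smul, smul_smul, W.map_comp]⟩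

/-- the class of a pair -/
noncomputable def dOm {A A' : 𝒱.Obj} (f : SFrame κ A W) (f' : SFrame κ A' W) : W.H (A.prod A') :=
  ∑ a, ∑ b, (omz f.g a b : W.K) • (W.map (fst A A') (f.t a) * W.map (snd A A') (f'.t b))

theorem SFrame.canon {A : 𝒱.Obj} (f : SFrame κ A W) {x y : W.H A} (hx : x ∈ transcendental W A)
    (hy : y ∈ transcendental W A) :
    ∑ a, ∑ b, (omz f.g a b : W.K) * (bil W A x (f.t a) * bil W A y (f.t b)) = bil W A x y := by
  have h1 := f.sb.canon f.alt ⟨x, hx⟩ ⟨y, hy⟩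
  have h2 := sum_omz f.g (fun a b => bil W A x (f.t a) * bil W A y (f.t b)) (fun a b ha => by
    rw [f.t_off ha, map_zero, zero_mul])
  simp only [zsmul_eq_mul] at h2
  rw [h2]
  refine Eq.trans (Finset.sum_congr rfl fun a _ => ?_) h1
  have h3 : rform W A (transcendental W A) (f.b a) ⟨x, hx⟩ = bil W A (f.t a) x := rfl
  have h4 : rform W A (transcendental W A) (f.b (bar a)) ⟨y, hy⟩ = bil W A (f.t (bar a)) y := rfl
  rw [h3, h4, f.anti_t hx (f.t_mem a), f.anti_t hy (f.t_mem (bar a))]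
  ring

theorem dOm_eq {A : 𝒱.Obj} (f : SFrame κ A W) : dOm f f = dQ f.s := by
  have h1 : dQ f.s = ∑ i, ∑ j, bil W A (f.s.uT i) (f.s.uT j) •
      (W.map (fst A A) (f.s.bT i : W.H A) * W.map (snd A A) (f.s.bT j : W.H A)) := by
    have h2 := Fintype.sum_equiv (finTwoArrowEquiv (Fin f.s.NT))
      (fun a : Fin 2 → Fin f.s.NT => bil W A (f.s.uT (a 0)) (f.s.uT (a 1)) •
        (W.map (fst A A) (f.s.bT (a 0) : W.H A) * W.map (snd A A) (f.s.bT (a 1) : W.H A)))
      (fun a => bil W A (f.s.uT a.1) (f.s.uT a.2) •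
        (W.map (fst A A) (f.s.bT a.1 : W.H A) * W.map (snd A A) (f.s.bT a.2 : W.H A)))
      (fun a => rfl)
    rw [dQ, h2, Fintype.sum_prod_type]
  have h2 : ∀ a b : Lt κ, (omz f.g a b : W.K) • (W.map (fst A A) (f.t a) *
      W.map (snd A A) (f.t b)) = ∑ i, ∑ j, ((omz f.g a b : W.K) *
        (bil W A (f.s.uT i) (f.t a) * bil W A (f.s.uT j) (f.t b))) •
      (W.map (fst A A) (f.s.bT i : W.H A) * W.map (snd A A) (f.s.bT j : W.H A)) := by
    intro a b
    conv_lhs => rw [f.s.expand_T (f.t_mem a), f.s.expand_T (f.t_mem b)]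
    rw [map_sum, map_sum, Finset.sum_mul_sum, Finset.smul_sum]
    refine Finset.sum_congr rfl fun i _ => ?_
    rw [Finset.smul_sum]
    refine Finset.sum_congr rfl fun j _ => ?_
    rw [map_smul, map_smul, smul_mul_assoc, mul_smul_comm, smul_smul, smul_smul]
    congr 1
    ring
  rw [h1, dOm]
  simp only [h2]
  have h3 : ∀ u : Lt κ → Lt κ → Fin f.s.NT → Fin f.s.NT → W.H (A.prod A),
      ∑ a, ∑ b, ∑ i, ∑ j, u a b i j = ∑ i, ∑ j, ∑ a, ∑ b, u a b i j := by
    intro u
    have e4 : ∀ a, ∑ b, ∑ i, ∑ j, u a b i j = ∑ i, ∑ j, ∑ b, u a b i j := by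
      intro a
      rw [Finset.sum_comm]
      exact Finset.sum_congr rfl fun i _ => Finset.sum_comm
    rw [Finset.sum_congr rfl fun a _ => e4 a, Finset.sum_comm]
    exact Finset.sum_congr rfl fun i _ => Finset.sum_comm
  rw [h3]
  refine Finset.sum_congr rfl fun i _ => Finset.sum_congr rfl fun j _ => ?_
  simp only [← Finset.sum_smul]
  rw [f.canon (f.s.uT i).2 (f.s.uT j).2]

theorem dOm_alg {A : 𝒱.Obj} (hDX : HomEqNum W A) (hmid : transcendental W A ≤ W.gr A A.dim)
    (f : SFrame κ A W) : dOm f f ∈ algSpan W (A.prod A) := by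
  rw [dOm_eq]
  exact dQ_alg hDX hmid f.s

/-- **A pair of factors.** -/
theorem asm_pair {Z : DG W Γ} {p q : Λ} {l : List Λ} (hpq : p ≠ q)
    {F' : (Λ → Lt κ) → W.H Z.X} (hp : ∀ a, upd p a F' = F') (hq : ∀ a, upd q a F' = F') :
    asm X c f Z (p :: q :: l) (fun J => (omz (f (c p)).g (J p) (J q) : W.K) • F' J) =
      W.map (Obj.lift (fst (X (c p)).X ((X (c q)).X.prod (tow X Z c l).X))
        (snd (X (c p)).X ((X (c q)).X.prod (tow X Z c l).X) ≫ fst (X (c q)).X (tow X Z c l).X))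
        (dOm (f (c p)) (f (c q))) *
      W.map (snd (X (c p)).X ((X (c q)).X.prod (tow X Z c l).X) ≫
        snd (X (c q)).X (tow X Z c l).X) (asm X c f Z l F') := by
  have h1 : ∀ a b, upd q b (upd p a (fun J => (omz (f (c p)).g (J p) (J q) : W.K) • F' J)) =
      (omz (f (c p)).g a b : W.K) • F' := by
    intro a b
    have h2 := hp a
    have h3 := hq b
    funext J
    have h4 : F' (update (update J q b) p a) = F' J := by
      have h5 := congrFun h2 (update J q b)
      have h6 := congrFun h3 J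
      rw [upd] at h5 h6
      rw [h5, h6]
    simp only [upd, Pi.smul_apply]
    rw [h4, update_self, update_of_ne hpq.symm, update_self]
  simp only [asm_cons, h1]
  rw [dOm, map_sum, Finset.sum_mul]
  refine Finset.sum_congr rfl fun a _ => ?_
  rw [map_sum, map_sum, Finset.sum_mul, Finset.mul_sum]
  refine Finset.sum_congr rfl fun b _ => ?_
  have e1 : W.map (Obj.lift (fst (X (c p)).X ((X (c q)).X.prod (tow X Z c l).X))
      (snd (X (c p)).X ((X (c q)).X.prod (tow X Z c l).X) ≫ fst (X (c q)).X (tow X Z c l).X))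
      (W.map (fst (X (c p)).X (X (c q)).X) ((f (c p)).t a)) =
      W.map (fst (X (c p)).X ((X (c q)).X.prod (tow X Z c l).X)) ((f (c p)).t a) := by
    rw [← W.map_comp, Obj.lift_fst]
  have e2 : W.map (Obj.lift (fst (X (c p)).X ((X (c q)).X.prod (tow X Z c l).X))
      (snd (X (c p)).X ((X (c q)).X.prod (tow X Z c l).X) ≫ fst (X (c q)).X (tow X Z c l).X))
      (W.map (snd (X (c p)).X (X (c q)).X) ((f (c q)).t b)) =
      W.map (snd (X (c p)).X ((X (c q)).X.prod (tow X Z c l).X))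
        (W.map (fst (X (c q)).X (tow X Z c l).X) ((f (c q)).t b)) := by
    rw [← W.map_comp, Obj.lift_snd, W.map_comp]
  simp only [asm_smul, map_smul, mul_smul_comm, smul_mul_assoc, map_mul, mul_assoc]
  rw [e1, e2, W.map_comp]

theorem dOm_alg' {i i' : ι} (h : i = i') (hDX : HomEqNum W (X i).X)
    (hmid : transcendental W (X i).X ≤ W.gr (X i).X (X i).X.dim) :
    dOm (f i) (f i') ∈ algSpan W ((X i).X.prod (X i').X) := by
  subst h
  exact dOm_alg hDX hmid (f i)

end Pool.Agent.Y132.AF
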