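import Mathlib
import Pool.Agent.Y132.AF.Pos

/-!
# Positivity for functions with values in a vector space
-/

set_option linter.unusedSectionVars false
set_option linter.unusedVariables false

namespace Pool.Agent.Y132.AF

open Module Finset Function

variable {G : ℕ} {Λ : Type} [Fintype Λ] [DecidableEq Λ] {E : Type} [AddCommGroup E] [Module ℚ E]

theorem ctw_map (φ : E →ₗ[ℚ] ℚ) (p q : Λ) (F : (Λ → Lt G) → E) (J : Λ → Lt G) :
    ctw p q (fun J => φ (F J)) J = φ (ctw p q F J) := by
  rw [ctw, ctw, map_sum]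
  exact Finset.sum_congr rfl fun r _ => (map_zsmul φ _ _).symm

/-- **Positivity of the operator `Ω`.** -/
theorem omega_zero {S : Finset (Λ × Λ)} (hS : ∀ p ∈ S, p.1 ≠ p.2) {g : Λ → ℕ}
    {F : (Λ → Lt G) → E} (off : ∀ p ∈ S, ∀ J, g p.1 ≤ ((J p.1).2 : ℕ) → F J = 0)
    (hΩ : ∀ J, ∑ p ∈ S, omz (g p.1) (J p.1) (J p.2) • ctw p.1 p.2 F J = 0) :
    ∀ p ∈ S, ∀ J, ctw p.1 p.2 F J = 0 := by
  intro p hp J
  rw [← Module.forall_dual_apply_eq_zero_iff ℚ]
  intro φ
  have h1 := omega_q hS (g := g) (x := fun J => φ (F J))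
    (fun p hp J hJ => by rw [off p hp J hJ, map_zero]) (fun J => by
      have h2 := congrArg φ (hΩ J)
      rw [map_sum, map_zero] at h2
      rw [← h2]
      refine Finset.sum_congr rfl fun p _ => ?_
      rw [map_zsmul, ctw_map]) p hp J
  rw [ctw_map] at h1
  exact h1

/-- the number of positive letters -/
def nE (J : Λ → Lt G) : ℕ := ∑ s, if (J s).1 = 0 then 1 else 0

theorem nE_update (J : Λ → Lt G) (s : Λ) (r : Lt G) :
    nE (update J s r) = (if r.1 = 0 then 1 else 0) +
      ∑ x ∈ univ.erase s, if (J x).1 = 0 then 1 else 0 := by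
  rw [nE, ← Finset.add_sum_erase _ _ (Finset.mem_univ s), update_self]
  congr 1
  refine Finset.sum_congr rfl fun x hx => ?_
  rw [update_of_ne (Finset.ne_of_mem_erase hx)]

theorem nE_eq (J : Λ → Lt G) (s : Λ) :
    nE J = (if (J s).1 = 0 then 1 else 0) +
      ∑ x ∈ univ.erase s, if (J x).1 = 0 then 1 else 0 := by
  rw [nE, ← Finset.add_sum_erase _ _ (Finset.mem_univ s)]

theorem nE_two (J : Λ → Lt G) {p q : Λ} (hpq : p ≠ q) (a b c d : Lt G)
    (h : (if a.1 = 0 then 1 else 0) + (if b.1 = 0 then 1 else 0) =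
      (if c.1 = 0 then 1 else 0) + (if d.1 = 0 then 1 else 0)) :
    nE (update (update J p a) q b) = nE (update (update J p c) q d) := by
  rw [nE_update, nE_update]
  have h1 : ∀ a : Lt G, ∑ x ∈ univ.erase q, (if (update J p a x).1 = 0 then 1 else 0) =
      (if a.1 = 0 then 1 else 0) +
        ∑ x ∈ (univ.erase q).erase p, if (J x).1 = 0 then 1 else 0 := by
    intro a
    rw [← Finset.add_sum_erase _ _ (Finset.mem_erase.2 ⟨hpq, Finset.mem_univ p⟩), update_self]
    congr 1
    refine Finset.sum_congr rfl fun x hx => ?_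
    rw [update_of_ne (Finset.ne_of_mem_erase hx)]
  rw [h1, h1]
  omega

/-- **The corner.** -/
theorem corner {I : Type} [DecidableEq I] {c : Λ → I} {g : I → ℕ} {F : (Λ → Lt G) → E}
    (off : ∀ J s, g (c s) ≤ ((J s).2 : ℕ) → F J = 0)
    (tr : ∀ p q, p ≠ q → c p = c q → ∀ J, ctw p q F J = 0)
    (lo : ∀ i (k l : Fin (G + 1)), (k : ℕ) < g i → (l : ℕ) < g i → ∃ D : E →+ E,
      ∀ J, (∑ s, if c s = i ∧ J s = (0, k) then F (update J s (1, l)) else 0) +
        (∑ s, if c s = i ∧ J s = (0, l) then F (update J s (1, k)) else 0) = D (F J))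
    (hne : ∃ J, F J ≠ 0) : ∃ J, F J ≠ 0 ∧ ∀ s, (J s).1 = 0 := by
  classical
  obtain ⟨J₀, hJ₀⟩ := hne
  obtain ⟨J, hJm, hmax⟩ := Finset.exists_max_image (univ.filter fun J => F J ≠ 0) nE
    ⟨J₀, by simpa using hJ₀⟩
  have hJ : F J ≠ 0 := by simpa using hJm
  refine ⟨J, hJ, ?_⟩
  by_contra hcon
  push Not at hcon
  obtain ⟨s₀, hs₀⟩ := hcon
  have hs₁ : (J s₀).1 = 1 := (fin2 _).resolve_left hs₀
  obtain ⟨φ, hφ⟩ : ∃ φ : Module.Dual ℚ E, φ (F J) ≠ 0 := by
    by_contra hcon
    push Not at hcon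
    exact hJ ((Module.forall_dual_apply_eq_zero_iff ℚ _).1 hcon)
  have h1 := corner_q (S := univ.filter fun s => c s = c s₀) (g := g (c s₀))
    (x := fun J' => if nE J' = nE J then φ (F J') else 0) ?_ ?_ ?_ s₀
    (Finset.mem_filter.2 ⟨Finset.mem_univ _, rfl⟩) J hs₁
  · rw [if_pos rfl] at h1
    exact hφ h1
  · intro s hs J' hJ'
    rw [← (Finset.mem_filter.1 hs).2] at hJ'
    beta_reduce
    rw [off J' s hJ', map_zero, ite_self]
  · intro p hp q hq hpq J'
    have hc : c p = c q := (Finset.mem_filter.1 hp).2.trans (Finset.mem_filter.1 hq).2.symm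
    have h2 := congrArg φ (tr p q hpq hc J')
    rw [map_zero, ctw, map_sum, Fintype.sum_prod_type, Fin.sum_univ_two] at h2
    have e1 : ∀ k : Fin (G + 1), nE (update (update J' p (0, k)) q (1, k)) =
        nE (update (update J' p (0, 0)) q (1, 0)) := fun k =>
      nE_two J' hpq _ _ _ _ rfl
    have e2 : ∀ k : Fin (G + 1), nE (update (update J' p (1, k)) q (0, k)) =
        nE (update (update J' p (0, 0)) q (1, 0)) := fun k =>
      nE_two J' hpq _ _ _ _ rfl
    simp only [e1, e2]
    by_cases h3 : nE (update (update J' p (0, 0)) q (1, 0)) = nE J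
    · simp only [if_pos h3]
      simp only [sg_zero, sg_one, bar_zero, bar_one, one_smul, neg_smul, map_neg,
        Finset.sum_neg_distrib] at h2
      linarith
    · simp only [if_neg h3]
  · intro k l hk hl J'
    obtain ⟨D, hD⟩ := lo (c s₀) k l hk hl
    have hcv : ∀ a b : Fin (G + 1),
        (∑ s ∈ univ.filter fun s => c s = c s₀, if J' s = (0, a) then
          (if nE (update J' s (1, b)) = nE J then φ (F (update J' s (1, b))) else 0) else 0) =
        if nE J' = nE J + 1 then φ (∑ s, if c s = c s₀ ∧ J' s = (0, a) then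
          F (update J' s (1, b)) else 0) else 0 := by
      intro a b
      have e1 : ∀ s, J' s = (0, a) → (nE (update J' s (1, b)) = nE J ↔ nE J' = nE J + 1) := by
        intro s hs
        have h01 : ¬((1 : Fin 2) = 0) := by decide
        rw [nE_update, nE_eq J' s, hs, if_pos rfl, if_neg h01]
        omega
      rw [Finset.sum_filter]
      by_cases h2 : nE J' = nE J + 1
      · rw [if_pos h2, map_sum]
        refine Finset.sum_congr rfl fun s _ => ?_
        by_cases h3 : c s = c s₀
        · by_cases h4 : J' s = (0, a)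
          · rw [if_pos h3, if_pos h4, if_pos ((e1 s h4).2 h2), if_pos ⟨h3, h4⟩]
          · rw [if_pos h3, if_neg h4, if_neg fun h => h4 h.2, map_zero]
        · rw [if_neg h3, if_neg fun h => h3 h.1, map_zero]
      · rw [if_neg h2]
        refine Finset.sum_eq_zero fun s _ => ?_
        by_cases h3 : c s = c s₀
        · by_cases h4 : J' s = (0, a)
          · rw [if_pos h3, if_pos h4, if_neg fun h => h2 ((e1 s h4).1 h)]
          · rw [if_pos h3, if_neg h4]
        · rw [if_neg h3]
    have h2 := hcv k l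
    have h3 := hcv l k
    beta_reduce
    rw [h2, h3]
    by_cases h4 : nE J' = nE J + 1
    · rw [if_pos h4, if_pos h4, ← map_add, hD J']
      have h5 : F J' = 0 := by
        by_contra hcon
        have h6 := hmax J' (by simpa using hcon)
        omega
      rw [h5, map_zero, map_zero]
    · rw [if_neg h4, if_neg h4, add_zero]

end Pool.Agent.Y132.AF
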