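import Pool.Agent.Y132.AF.Asm3
import Pool.Agent.Y132.AF.Pos2

/-!
# Contraction and insertion
-/

open CategoryTheory AlgebraicGeometry Finset Function
open Pool.Agent.Y132.EP (DG tow)

set_option linter.unusedSectionVars false

universe u v w

namespace Pool.Agent.Y132.AF

open Pool.Agent.H914 Pool.Agent.H914.VarClass Pool.Agent.H914.VarClass.Obj
  Pool.Agent.H914.WeilCohomology Pool.Agent.H281R3.HT Pool.Agent.W552 Pool.Agent.TH125.Gal

section words

variable {κ : ℕ} {K : Type*} [Field K] {E : Type*} [AddCommGroup E] [Module K E] {Λ : Type}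
  [DecidableEq Λ]

theorem SL_zero (N : Λ → Lt κ → Lt κ → K) (l : List Λ) :
    SL N l (0 : (Λ → Lt κ) → E) = 0 := by
  have h := SL_smul N l 0 (0 : (Λ → Lt κ) → E)
  rwa [zero_smul, zero_smul] at h

theorem SL_sum (N : Λ → Lt κ → Lt κ → K) (l : List Λ) {R : Type*} (t : Finset R)
    (G : R → (Λ → Lt κ) → E) : SL N l (∑ r ∈ t, G r) = ∑ r ∈ t, SL N l (G r) := by
  classical
  induction t using Finset.induction_on with
  | empty => rw [Finset.sum_empty, Finset.sum_empty, SL_zero]
  | insert r t hr ih => rw [Finset.sum_insert hr, Finset.sum_insert hr, SL_add, ih]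

/-- the contraction -/
theorem ctw_eq (K : Type*) [Field K] [Module K E] (p q : Λ) (G : (Λ → Lt κ) → E) :
    (∑ r : Lt κ, (sg r : K) • upd p r (upd q (bar r) G)) = fun J =>
      ∑ r : Lt κ, sg r • G (update (update J p r) q (bar r)) := by
  funext J
  rw [Finset.sum_apply]
  refine Finset.sum_congr rfl fun r _ => ?_
  rw [Pi.smul_apply, Int.cast_smul_eq_zsmul]
  rfl

end words

variable {κ : ℕ} {k : Type u} [Field k] {𝒱 : VarClass k} {ops : CycleOps 𝒱}
  {W : WeilCohomology.{u, 0} ops} {Γ : Type} [Group Γ] {ι : Type} {Λ : Type} [DecidableEq Λ]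
  {χ : Γ →* W.Kˣ} {X : ι → DG W Γ} {c : Λ → ι} {f : ∀ i, SFrame κ (X i).X W}

/-- The contraction of a function on words. -/
def cw (p q : Λ) {E : Type*} [AddCommGroup E] (G : (Λ → Lt κ) → E) : (Λ → Lt κ) → E :=
  fun J => ∑ r : Lt κ, sg r • G (update (update J p r) q (bar r))

theorem cw_add (p q : Λ) {E : Type*} [AddCommGroup E] (G G' : (Λ → Lt κ) → E) :
    cw p q (G + G') = cw p q G + cw p q G' := by
  funext J
  rw [Pi.add_apply, cw, cw, cw, ← Finset.sum_add_distrib]
  refine Finset.sum_congr rfl fun r _ => ?_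
  rw [Pi.add_apply, smul_add]

theorem cw_smul (p q : Λ) {E : Type*} [AddCommGroup E] [Module W.K E] (x : W.K)
    (G : (Λ → Lt κ) → E) : cw p q (x • G) = x • cw p q G := by
  funext J
  simp only [cw, Pi.smul_apply, Finset.smul_sum]
  exact Finset.sum_congr rfl fun r _ => smul_comm _ _ _

theorem cw_upd1 {p q : Λ} {E : Type*} [AddCommGroup E] (G : (Λ → Lt κ) → E) (a : Lt κ) :
    upd p a (cw p q G) = cw p q G := by
  funext J
  simp only [upd, cw, update_idem]

theorem cw_upd2 {p q : Λ} (hpq : p ≠ q) {E : Type*} [AddCommGroup E] (G : (Λ → Lt κ) → E)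
    (a : Lt κ) : upd q a (cw p q G) = cw p q G := by
  funext J
  simp only [upd, cw]
  refine Finset.sum_congr rfl fun r _ => ?_
  rw [update_comm hpq.symm, update_idem]

theorem upd_four' {R : Type} {p q : Λ} (J : Λ → R) (a b x y : R) :
    update (update (update (update J p a) q b) p x) q y = update (update J p x) q y := by
  funext s
  by_cases h1 : s = q
  · rw [h1, update_self, update_self]
  · rw [update_of_ne h1, update_of_ne h1]
    by_cases h2 : s = p
    · rw [h2, update_self, update_self]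
    · rw [update_of_ne h2, update_of_ne h2, update_of_ne h1, update_of_ne h2]

theorem dsum_perm {l l' : List Λ} (h : l.Perm l') : dsum X c l = dsum X c l' := by
  rw [dsum, dsum]
  exact (h.map _).sum_eq

theorem perm_two {l : List Λ} {p q : Λ} (hp : p ∈ l) (hq : q ∈ l) (hpq : p ≠ q) :
    l.Perm (p :: q :: (l.erase p).erase q) := by
  refine (List.perm_cons_erase hp).trans (List.Perm.cons p ?_)
  exact List.perm_cons_erase ((List.mem_erase_of_ne hpq.symm).2 hq)

theorem Nm_off (g : Γ) (s : Λ) {a : Lt κ} (ha : (f (c s)).g ≤ (a.2 : ℕ)) (b : Lt κ) :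
    Nm X c f g s a b = 0 := by
  rw [Nm, (f (c s)).u_off ha, map_zero, LinearMap.zero_apply]

theorem Nm_congr {p q : Λ} (hc : c p = c q) (g : Γ) : Nm X c f g q = Nm X c f g p := by
  have : ∀ i i' : ι, i = i' → ∀ a b, bil W (X i).X ((f i).u a) ((X i).act g ((f i).t b)) =
      bil W (X i').X ((f i').u a) ((X i').act g ((f i').t b)) := by
    rintro i _ rfl a b
    rfl
  funext a b
  exact (this _ _ hc a b).symm

theorem omz_congr {p q : Λ} (hc : c p = c q) (a b : Lt κ) :
    omz (f (c q)).g a b = omz (f (c p)).g a b := by rw [hc]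

/-- Tate functions vanish on the words with inactive letters. -/
theorem IsT.off {B : DG W Γ} {l : List Λ} (hl : l.Nodup) {m j : ℕ} {F : (Λ → Lt κ) → W.H B.X}
    (hF : IsT χ X c f B l m j F) {s : Λ} (hs : s ∈ l) {J : Λ → Lt κ}
    (hJ : (f (c s)).g ≤ ((J s).2 : ℕ)) : F J = 0 := by
  obtain ⟨Δ, hΔ, hact⟩ := hF.act
  have h1 := congrFun (hact 1 (one_mem Δ)) J
  have hχ1 : (χ (1 : Γ) : W.K) = 1 := by rw [map_one, Units.val_one]
  rw [SL_perm _ (List.perm_cons_erase hs) hl, Pi.smul_apply, hχ1, one_pow, one_smul] at h1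
  rw [← h1, SL, Sp]
  exact Finset.sum_eq_zero fun b _ => by rw [Nm_off 1 s hJ, zero_smul]

/-- The symplectic relations for the columns. -/
theorem Nm_col (hG : ∀ i, IsGalois W χ (X i).X (X i).act) (g : Γ) (s : Λ) (a b : Lt κ) :
    ∑ r, (sg r : W.K) * (Nm X c f g s r a * Nm X c f g s (bar r) b) =
      (χ g : W.K) ^ (X (c s)).X.dim * (omz (f (c s)).g a b : W.K) := by
  have h1 := bil_act (hG (c s)) g ((f (c s)).t a) ((f (c s)).t b)
  rw [(f (c s)).bil_t] at h1
  rw [← h1]
  have h2 : ∀ a, (X (c s)).act g ((f (c s)).t a) = ∑ r, Nm X c f g s r a • (f (c s)).t r := fun a =>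
    (f (c s)).expand_t (act_trans (hG (c s)) g ((f (c s)).t_mem a))
  rw [h2 a, h2 b]
  simp only [map_sum, LinearMap.sum_apply, map_smul, LinearMap.smul_apply, smul_eq_mul,
    (f (c s)).bil_t]
  have h3 := sum_omz (f (c s)).g (fun r r' => Nm X c f g s r a * Nm X c f g s r' b)
    (fun r r' hr => by rw [Nm_off g s hr, zero_mul])
  simp only [zsmul_eq_mul] at h3
  rw [← h3, Finset.sum_comm]
  refine Finset.sum_congr rfl fun r _ => ?_
  rw [Finset.mul_sum]
  refine Finset.sum_congr rfl fun r' _ => ?_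
  ring

theorem bil_u (s : ι) (x y : Lt κ) :
    bil W (X s).X ((f s).u x) ((f s).u y) = (omz (f s).g x y : W.K) := by
  rw [SFrame.u, SFrame.u]
  simp only [map_smul, LinearMap.smul_apply, smul_eq_mul, (f s).bil_t]
  rw [omz, omz, bar_bar, bar_snd]
  by_cases h : bar y = x ∧ (x.2 : ℕ) < (f s).g
  · have h1 : y = bar x := by rw [← h.1, bar_bar]
    rw [if_pos h, if_pos ⟨h1, h.2⟩, h1, sg_bar]
    have h2 : (sg x : W.K) * (sg x : W.K) = 1 := by exact_mod_cast sg_sq x
    push_cast
    linear_combination (sg x : W.K) * h2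
  · have h1 : ¬(y = bar x ∧ (x.2 : ℕ) < (f s).g) := fun h' => h ⟨by rw [h'.1, bar_bar], h'.2⟩
    rw [if_neg h, if_neg h1]
    simp

/-- The symplectic relations for the rows. -/
theorem Nm_row (hG : ∀ i, IsGalois W χ (X i).X (X i).act) (g : Γ) (s : Λ) (x y : Lt κ) :
    ∑ a, ∑ b, (omz (f (c s)).g a b : W.K) * (Nm X c f g s x a * Nm X c f g s y b) =
      (χ g : W.K) ^ (X (c s)).X.dim * (omz (f (c s)).g x y : W.K) := by
  have h1 : ∀ x a, Nm X c f g s x a = (χ g : W.K) ^ (X (c s)).X.dim *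
      bil W (X (c s)).X ((X (c s)).act g⁻¹ ((f (c s)).u x)) ((f (c s)).t a) := by
    intro x a
    rw [← bil_act (hG (c s)) g, act_inv]
    rfl
  have hu : ∀ x, (X (c s)).act g⁻¹ ((f (c s)).u x) ∈ transcendental W (X (c s)).X := fun x =>
    act_trans (hG (c s)) g⁻¹ ((f (c s)).u_mem x)
  have h2 := (f (c s)).canon (hu x) (hu y)
  have h3 := bil_act (hG (c s)) g ((X (c s)).act g⁻¹ ((f (c s)).u x))
    ((X (c s)).act g⁻¹ ((f (c s)).u y))
  rw [act_inv, act_inv, bil_u] at h3
  rw [h3, ← h2, Finset.mul_sum, Finset.mul_sum]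
  refine Finset.sum_congr rfl fun a _ => ?_
  rw [Finset.mul_sum, Finset.mul_sum]
  refine Finset.sum_congr rfl fun b _ => ?_
  rw [h1, h1]
  ring

/-- **The contraction.** -/
theorem IsT.contract (hG : ∀ i, IsGalois W χ (X i).X (X i).act)
    {B : DG W Γ} {l : List Λ} {m j : ℕ}
    {F : (Λ → Lt κ) → W.H B.X} (hF : IsT χ X c f B l m j F) {p q : Λ} (hp : p ∈ l) (hq : q ∈ l)
    (hpq : p ≠ q) (hc : c p = c q) (hl : l.Nodup) :
    IsT χ X c f B ((l.erase p).erase q) m (j - (X (c p)).X.dim) (cw p q F) := by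
  have hperm := perm_two hp hq hpq
  have hnd : (p :: q :: (l.erase p).erase q).Nodup := hperm.nodup_iff.1 hl
  set l' := (l.erase p).erase q with hl'
  have hp' : p ∉ l' := fun h => (List.nodup_cons.1 hnd).1 (List.mem_cons_of_mem _ h)
  have hq' : q ∉ l' := (List.nodup_cons.1 (List.nodup_cons.1 hnd).2).1
  have hdim : dsum X c l = (X (c p)).X.dim + ((X (c p)).X.dim + dsum X c l') := by
    rw [dsum_perm hperm]
    simp only [dsum, List.map_cons, List.sum_cons, hc]
  have hdeg := hF.deg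
  obtain ⟨Δ, hΔ, hact⟩ := hF.act
  refine ⟨fun J J' hJ => ?_, fun J => Submodule.sum_mem _ fun r _ =>
    Submodule.smul_of_tower_mem _ _ (hF.gr _), by omega, Δ, hΔ, fun g hg => ?_⟩
  · refine Finset.sum_congr rfl fun r _ => ?_
    congr 1
    refine hF.dep _ _ fun s hs => ?_
    by_cases h2 : s = q
    · rw [h2, update_self, update_self]
    · rw [update_of_ne h2, update_of_ne h2]
      by_cases h3 : s = p
      · rw [h3, update_self, update_self]
      · rw [update_of_ne h3, update_of_ne h3]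
        refine hJ s ?_
        have h4 := hperm.mem_iff.1 hs
        rw [List.mem_cons, List.mem_cons] at h4
        exact (h4.resolve_left h3).resolve_left h2
  · have hχ : (χ g : W.K) ≠ 0 := Units.ne_zero _
    set N := Nm X c f g with hN
    have hNpq : N q = N p := Nm_congr hc g
    set G : (Λ → Lt κ) → W.H B.X := SL N l' (fun J => B.act g (F J)) with hGdef
    have h1 : ∀ J, (χ g : W.K) ^ j • F J = ∑ a, N p (J p) a • ∑ b, N p (J q) b •
        G (update (update J p a) q b) := by
      intro J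
      have h2 := congrFun (hact g hg) J
      rw [SL_perm _ hperm hl] at h2
      rw [Pi.smul_apply] at h2
      rw [← h2, ← hN]
      simp only [SL, Sp]
      refine Finset.sum_congr rfl fun a _ => ?_
      congr 1
      refine Finset.sum_congr rfl fun b _ => ?_
      rw [update_of_ne hpq.symm, hNpq]
    have h3 : ∀ J a₀ b₀, (χ g : W.K) ^ j • F (update (update J p a₀) q b₀) =
        ∑ a, ∑ b, (N p a₀ a * N p b₀ b) • G (update (update J p a) q b) := by
      intro J a₀ b₀
      rw [h1]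
      refine Finset.sum_congr rfl fun a _ => ?_
      rw [Finset.smul_sum]
      refine Finset.sum_congr rfl fun b _ => ?_
      rw [update_of_ne hpq, update_self, update_self, upd_four', smul_smul]
    -- the action on the contraction
    have h4 : SL N l' (fun J => B.act g (cw p q F J)) = cw p q G := by
      have e1 : (fun J => B.act g (cw p q F J)) =
          ∑ r : Lt κ, (sg r : W.K) • upd p r (upd q (bar r) fun J => B.act g (F J)) := by
        rw [ctw_eq]
        funext J
        rw [cw, map_sum]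
        exact Finset.sum_congr rfl fun r _ => map_zsmul _ _ _
      have e2 : cw p q G = ∑ r : Lt κ, (sg r : W.K) • upd p r (upd q (bar r) G) := by
        rw [ctw_eq]
        rfl
      rw [e1, e2, SL_sum]
      refine Finset.sum_congr rfl fun r _ => ?_
      rw [SL_smul, SL_upd _ hp', SL_upd _ hq']
    -- inactive letters
    have h5 : ∀ J a b, (f (c p)).g ≤ (a.2 : ℕ) → G (update (update J p a) q b) = 0 := by
      intro J a b ha
      have e1 : upd q b (upd p a fun J => B.act g (F J)) = 0 := by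
        funext J
        change B.act g (F (update (update J q b) p a)) = 0
        rw [hF.off hl hp (J := update (update J q b) p a) (by rw [update_self]; exact ha), map_zero]
      have e2 : SL N l' (upd q b (upd p a fun J => B.act g (F J))) = 0 := by
        rw [e1, SL_zero]
      rw [SL_upd _ hq', SL_upd _ hp'] at e2
      rw [update_comm hpq]
      exact congrFun e2 J
    rw [h4]
    funext J
    have h6 : (χ g : W.K) ^ j • cw p q F J = (χ g : W.K) ^ (X (c p)).X.dim • cw p q G J := by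
      rw [cw, Finset.smul_sum]
      have e1 : ∀ r : Lt κ, (χ g : W.K) ^ j • sg r • F (update (update J p r) q (bar r)) =
          ∑ a, ∑ b, ((sg r : W.K) * (N p r a * N p (bar r) b)) •
            G (update (update J p a) q b) := by
        intro r
        rw [smul_comm, h3, ← Int.cast_smul_eq_zsmul W.K, Finset.smul_sum]
        refine Finset.sum_congr rfl fun a _ => ?_
        rw [Finset.smul_sum]
        refine Finset.sum_congr rfl fun b _ => ?_
        rw [smul_smul]
      rw [Finset.sum_congr rfl fun r _ => e1 r, Finset.sum_comm]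
      have e2 : ∀ a : Lt κ, ∑ r : Lt κ, ∑ b : Lt κ, ((sg r : W.K) * (N p r a * N p (bar r) b)) •
          G (update (update J p a) q b) = ∑ b : Lt κ, ((χ g : W.K) ^ (X (c p)).X.dim *
            (omz (f (c p)).g a b : W.K)) • G (update (update J p a) q b) := by
        intro a
        rw [Finset.sum_comm]
        refine Finset.sum_congr rfl fun b _ => ?_
        rw [← Finset.sum_smul, Nm_col hG g p a b]
      rw [Finset.sum_congr rfl fun a _ => e2 a]
      have e3 := sum_omz (f (c p)).g (fun a b => G (update (update J p a) q b))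
        (fun a b ha => h5 J a b ha)
      rw [cw, ← e3, Finset.smul_sum]
      refine Finset.sum_congr rfl fun a _ => ?_
      rw [Finset.smul_sum]
      refine Finset.sum_congr rfl fun b _ => ?_
      rw [mul_smul, Int.cast_smul_eq_zsmul]
    have h9 : (χ g : W.K) ^ j = (χ g : W.K) ^ (X (c p)).X.dim *
        (χ g : W.K) ^ (j - (X (c p)).X.dim) := by
      rw [← pow_add]
      congr 1
      omega
    rw [h9, mul_smul] at h6
    rw [Pi.smul_apply]
    exact (smul_right_injective _ (pow_ne_zero _ hχ) h6).symm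

/-- The insertion. -/
noncomputable def iw (f : ∀ i, SFrame κ (X i).X W) (c : Λ → ι) (p q : Λ) {E : Type*}
    [AddCommGroup E] [Module W.K E] (y : (Λ → Lt κ) → E) : (Λ → Lt κ) → E :=
  fun J => (omz (f (c p)).g (J p) (J q) : W.K) • y J

/-- **The insertion.** -/
theorem IsT.insert (hG : ∀ i, IsGalois W χ (X i).X (X i).act)
    {B : DG W Γ} {l : List Λ} {m j : ℕ} {y : (Λ → Lt κ) → W.H B.X} {p q : Λ} (hp : p ∈ l)
    (hq : q ∈ l) (hpq : p ≠ q) (hc : c p = c q) (hl : l.Nodup) (hdeg : m + dsum X c l = 2 * j)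
    (hy : IsT χ X c f B ((l.erase p).erase q) m (j - (X (c p)).X.dim) y) :
    IsT χ X c f B l m j (iw f c p q y) := by
  have hperm := perm_two hp hq hpq
  have hnd : (p :: q :: (l.erase p).erase q).Nodup := hperm.nodup_iff.1 hl
  set l' := (l.erase p).erase q with hl'
  have hp' : p ∉ l' := fun h => (List.nodup_cons.1 hnd).1 (List.mem_cons_of_mem _ h)
  have hq' : q ∉ l' := (List.nodup_cons.1 (List.nodup_cons.1 hnd).2).1
  have hdim : dsum X c l = (X (c p)).X.dim + ((X (c p)).X.dim + dsum X c l') := by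
    rw [dsum_perm hperm]
    simp only [dsum, List.map_cons, List.sum_cons, hc]
  obtain ⟨Δ, hΔ, hact⟩ := hy.act
  have hyi : ∀ J a b, y (update (update J p a) q b) = y J := by
    intro J a b
    refine hy.dep _ _ fun s hs => ?_
    rw [update_of_ne, update_of_ne]
    · rintro rfl
      exact hp' hs
    · rintro rfl
      exact hq' hs
  refine ⟨fun J J' hJ => ?_, fun J => Submodule.smul_mem _ _ (hy.gr _), hdeg, Δ, hΔ,
    fun g hg => ?_⟩
  · rw [iw, iw, hJ p hp, hJ q hq]
    congr 1
    exact hy.dep _ _ fun s hs => hJ s (List.mem_of_mem_erase (List.mem_of_mem_erase hs))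
  · rw [SL_perm _ hperm hl]
    set N := Nm X c f g with hN
    have hNpq : N q = N p := Nm_congr hc g
    have e1 : SL N l' (fun J => B.act g (iw f c p q y J)) = fun J =>
        (omz (f (c p)).g (J p) (J q) : W.K) • ((χ g : W.K) ^ (j - (X (c p)).X.dim) • y J) := by
      have e2 := SL_lin N (l := l') (fun J => (omz (f (c p)).g (J p) (J q) : W.K) •
        (LinearMap.id : W.H B.X →ₗ[W.K] W.H B.X)) (fun s hs b J => by
          rw [update_of_ne, update_of_ne]
          · rintro rfl
            exact hq' hs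
          · rintro rfl
            exact hp' hs) (fun J => B.act g (y J))
      have e3 : (fun J => B.act g (iw f c p q y J)) = fun J =>
          ((omz (f (c p)).g (J p) (J q) : W.K) • (LinearMap.id : W.H B.X →ₗ[W.K] W.H B.X))
            (B.act g (y J)) := by
        funext J
        rw [iw, map_smul]
        rfl
      rw [e3, e2, hact g hg]
      rfl
    rw [SL, SL, e1]
    funext J
    simp only [Sp, update_self, update_of_ne hpq, update_of_ne hpq.symm, hyi]
    rw [Pi.smul_apply, iw]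
    have e2 : ∑ a, N p (J p) a • ∑ b, N q (J q) b • (omz (f (c p)).g a b : W.K) •
        (χ g : W.K) ^ (j - (X (c p)).X.dim) • y J =
        (∑ a, ∑ b, (omz (f (c p)).g a b : W.K) * (N p (J p) a * N p (J q) b)) •
          ((χ g : W.K) ^ (j - (X (c p)).X.dim) • y J) := by
      rw [Finset.sum_smul]
      refine Finset.sum_congr rfl fun a _ => ?_
      rw [Finset.smul_sum, Finset.sum_smul]
      refine Finset.sum_congr rfl fun b _ => ?_
      rw [hNpq, smul_smul, smul_smul]
      congr 1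
      ring
    rw [e2, Nm_row hG g p, smul_smul, smul_smul]
    congr 1
    have h9 : (χ g : W.K) ^ j = (χ g : W.K) ^ (X (c p)).X.dim *
        (χ g : W.K) ^ (j - (X (c p)).X.dim) := by
      rw [← pow_add]
      congr 1
      omega
    rw [h9]
    ring

/-- **The insertion gives an algebraic class.** -/
theorem asm_insert (hmid : ∀ i, transcendental W (X i).X ≤ W.gr (X i).X (X i).X.dim)
    (hDX : ∀ i, HomEqNum W (X i).X) {Z : DG W Γ} {l : List Λ} {m j : ℕ} {p q : Λ} (hp : p ∈ l)
    (hq : q ∈ l) (hpq : p ≠ q) (hc : c p = c q) (hl : l.Nodup)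
    (hS : St χ X c f Z ((l.erase p).erase q)) {y : (Λ → Lt κ) → W.H Z.X}
    (hy : IsT χ X c f Z ((l.erase p).erase q) m j y) (h1 : ∀ a, upd p a y = y)
    (h2 : ∀ a, upd q a y = y) :
    asm X c f Z l (iw f c p q y) ∈ algSpan W (tow X Z c l).X := by
  have hperm := perm_two hp hq hpq
  obtain ⟨φ, ε, h5⟩ := asm_perm (X := X) (c := c) (f := f) (Z := Z) hmid hperm hl
  rw [h5]
  refine Submodule.smul_mem _ _ (algSpan_map _ ?_)
  have h6 := asm_pair (X := X) (c := c) (f := f) (Z := Z) (l := (l.erase p).erase q) hpq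
    (F' := y) h1 h2
  change asm X c f Z (p :: q :: (l.erase p).erase q) (fun J =>
    (omz (f (c p)).g (J p) (J q) : W.K) • y J) ∈ _
  rw [h6]
  exact algSpan_mul (algSpan_map _ (dOm_alg' hc (hDX _) (hmid _))) (algSpan_map _ (hS _ _ _ hy))

section tr

variable [Fintype Λ]

/-- The space of Tate functions. -/
def TV (χ : Γ →* W.Kˣ) (X : ι → DG W Γ) (c : Λ → ι) (f : ∀ i, SFrame κ (X i).X W)
    (B : DG W Γ) (l : List Λ) (m j : ℕ) (hdeg : m + dsum X c l = 2 * j) :
    Submodule W.K ((Λ → Lt κ) → W.H B.X) where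
  carrier := {F | IsT χ X c f B l m j F}
  zero_mem' := ⟨fun _ _ _ => rfl, fun _ => Submodule.zero_mem _, hdeg, ⊤, inferInstance,
    fun g _ => by
      have h1 : (fun J : Λ → Lt κ => B.act g ((0 : (Λ → Lt κ) → W.H B.X) J)) = 0 :=
        funext fun J => map_zero _
      rw [h1, SL_zero, smul_zero]⟩
  add_mem' := by
    rintro F F' ⟨d1, g1, -, Δ, hΔ, a1⟩ ⟨d2, g2, -, Δ', hΔ', a2⟩
    refine ⟨fun J J' hJ => ?_, fun J => Submodule.add_mem _ (g1 J) (g2 J), hdeg, Δ ⊓ Δ',
      inferInstance, fun g hg => ?_⟩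
    · rw [Pi.add_apply, Pi.add_apply, d1 J J' hJ, d2 J J' hJ]
    · have h1 : (fun J => B.act g ((F + F') J)) =
          (fun J => B.act g (F J)) + fun J => B.act g (F' J) := funext fun J => map_add _ _ _
      rw [h1, SL_add, a1 g hg.1, a2 g hg.2, smul_add]
  smul_mem' := by
    rintro x F ⟨d1, g1, -, Δ, hΔ, a1⟩
    refine ⟨fun J J' hJ => ?_, fun J => Submodule.smul_mem _ _ (g1 J), hdeg, Δ, hΔ,
      fun g hg => ?_⟩
    · rw [Pi.smul_apply, Pi.smul_apply, d1 J J' hJ]
    · have h1 : (fun J => B.act g ((x • F) J)) = x • fun J => B.act g (F J) :=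
        funext fun J => map_smul _ _ _
      rw [h1, SL_smul, a1 g hg, smul_comm]

theorem iw_add (p q : Λ) {E : Type*} [AddCommGroup E] [Module W.K E] (y y' : (Λ → Lt κ) → E) :
    iw f c p q (y + y') = iw f c p q y + iw f c p q y' := by
  funext J
  exact smul_add _ _ _

theorem iw_smul (p q : Λ) {E : Type*} [AddCommGroup E] [Module W.K E] (x : W.K)
    (y : (Λ → Lt κ) → E) : iw f c p q (x • y) = x • iw f c p q y := by
  funext J
  exact smul_comm _ _ _

/-- **Traceless functions.** -/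
theorem exists_tr (hG : ∀ i, IsGalois W χ (X i).X (X i).act)
    (hmid : ∀ i, transcendental W (X i).X ≤ W.gr (X i).X (X i).X.dim)
    (hDX : ∀ i, HomEqNum W (X i).X) {Z : DG W Γ} {l : List Λ}
    (hl : l.Nodup) (hS : ∀ p ∈ l, ∀ q ∈ l, p ≠ q → St χ X c f Z ((l.erase p).erase q))
    {m j : ℕ} {F : (Λ → Lt κ) → W.H Z.X} (hF : IsT χ X c f Z l m j F)
    (hna : asm X c f Z l F ∉ algSpan W (tow X Z c l).X) :
    ∃ F' : (Λ → Lt κ) → W.H Z.X, IsT χ X c f Z l m j F' ∧ F' ≠ 0 ∧
      ∀ p ∈ l, ∀ q ∈ l, p ≠ q → c p = c q → ∀ J, ctw p q F' J = 0 := by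
  classical
  let S : Finset (Λ × Λ) := univ.filter fun p => p.1 ∈ l ∧ p.2 ∈ l ∧ p.1 ≠ p.2 ∧ c p.1 = c p.2
  have hSm : ∀ p, p ∈ S ↔ p.1 ∈ l ∧ p.2 ∈ l ∧ p.1 ≠ p.2 ∧ c p.1 = c p.2 := fun p => by simp [S]
  let V := TV χ X c f Z l m j hF.deg
  have hV : ∀ F, F ∈ V ↔ IsT χ X c f Z l m j F := fun F => Iff.rfl
  let Om : ((Λ → Lt κ) → W.H Z.X) → ((Λ → Lt κ) → W.H Z.X) := fun F =>
    ∑ p ∈ S, iw f c p.1 p.2 (cw p.1 p.2 F)
  have hOm : ∀ F ∈ V, Om F ∈ V := by
    intro F hF'
    refine Submodule.sum_mem _ fun p hp => ?_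
    obtain ⟨h1, h2, h3, h4⟩ := (hSm p).1 hp
    exact IsT.insert hG h1 h2 h3 h4 hl hF.deg
      (IsT.contract hG ((hV F).1 hF') h1 h2 h3 h4 hl)
  have hadd : ∀ F F', Om (F + F') = Om F + Om F' := by
    intro F F'
    rw [← Finset.sum_add_distrib]
    exact Finset.sum_congr rfl fun p _ => by rw [cw_add, iw_add]
  have hsmul : ∀ (x : W.K) F, Om (x • F) = x • Om F := by
    intro x F
    rw [Finset.smul_sum]
    exact Finset.sum_congr rfl fun p _ => by rw [cw_smul, iw_smul]
  let L : V →ₗ[W.K] V :=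
    { toFun := fun F => ⟨Om F.1, hOm F.1 F.2⟩
      map_add' := fun F F' => Subtype.ext (hadd _ _)
      map_smul' := fun x F => Subtype.ext (hsmul _ _) }
  have hns : ¬Function.Surjective L := by
    intro hsurj
    obtain ⟨F₁, hF₁⟩ := hsurj ⟨F, hF⟩
    apply hna
    have h1 : F = Om F₁.1 := (congrArg Subtype.val hF₁).symm
    rw [h1, asm_sum]
    refine Submodule.sum_mem _ fun p hp => ?_
    obtain ⟨h2, h3, h4, h5⟩ := (hSm p).1 hp
    exact asm_insert hmid hDX h2 h3 h4 h5 hl (hS _ h2 _ h3 h4)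
      (IsT.contract hG ((hV _).1 F₁.2) h2 h3 h4 h5 hl) (fun a => cw_upd1 _ a)
      (fun a => cw_upd2 h4 _ a)
  have hni : ¬Function.Injective L := fun h => hns (LinearMap.injective_iff_surjective.1 h)
  obtain ⟨F₀, h0, hne⟩ : ∃ F₀ : V, L F₀ = 0 ∧ F₀ ≠ 0 := by
    by_contra hcon
    push Not at hcon
    exact hni ((injective_iff_map_eq_zero L).2 hcon)
  refine ⟨F₀.1, (hV _).1 F₀.2, fun h => hne (Subtype.ext h), fun p hp q hq hpq hc => ?_⟩
  let _ : Module ℚ (W.H Z.X) := Module.compHom (W.H Z.X) (algebraMap ℚ W.K)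
  refine omega_zero (S := S) (g := fun s => (f (c s)).g) (F := F₀.1)
    (fun p hp => ((hSm p).1 hp).2.2.1) (fun p hp J hJ => ?_) (fun J => ?_) (p, q)
    ((hSm _).2 ⟨hp, hq, hpq, hc⟩)
  · exact ((hV _).1 F₀.2).off hl ((hSm p).1 hp).1 hJ
  · have h1 := congrFun (congrArg Subtype.val h0) J
    have h2 : (L F₀ : (Λ → Lt κ) → W.H Z.X) J = ∑ p ∈ S,
        iw f c p.1 p.2 (cw p.1 p.2 F₀.1) J := Finset.sum_apply _ _ _
    rw [h2] at h1
    refine Eq.trans (Finset.sum_congr rfl fun p _ => ?_) h1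
    rw [iw, Int.cast_smul_eq_zsmul]
    rfl

end tr

end Pool.Agent.Y132.AF
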