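import Pool.Agent.TH125.Gal.Pub2

/-!
# Families of varieties with irreducible adjoint representations: definitions
-/

open CategoryTheory AlgebraicGeometry

universe u

namespace Pool.Agent.Y132.AF

open Pool.Agent.TH125.Gal

section Alg

variable {K : Type} [Field K] {A : Type} [Ring A] [Algebra K A] {B : Type} [Ring B] [Algebra K B]
  {Γ : Type} [Group Γ]

/-- The operator `N` on the subspace `T` is skew with respect to the form `tr (x * y)`. -/
def SkewOp (tr : A →ₗ[K] K) (T : Submodule K A) (N : T →ₗ[K] T) : Prop :=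
  ∀ x y : T, tr ((N x : A) * y) + tr (x * (N y : A)) = 0

theorem skewOp_zero (tr : A →ₗ[K] K) (T : Submodule K A) : SkewOp tr T 0 := fun x y => by
  simp

theorem skewOp_add (tr : A →ₗ[K] K) (T : Submodule K A) {N N' : T →ₗ[K] T}
    (hN : SkewOp tr T N) (hN' : SkewOp tr T N') : SkewOp tr T (N + N') := fun x y => by
  have h1 := hN x y
  have h2 := hN' x y
  simp only [LinearMap.add_apply, Submodule.coe_add, add_mul, mul_add, map_add]
  linear_combination h1 + h2

theorem skewOp_smul (tr : A →ₗ[K] K) (T : Submodule K A) (r : K) {N : T →ₗ[K] T}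
    (hN : SkewOp tr T N) : SkewOp tr T (r • N) := fun x y => by
  have h1 := hN x y
  simp only [LinearMap.smul_apply, Submodule.coe_smul, smul_mul_assoc, mul_smul_comm, map_smul,
    smul_eq_mul]
  linear_combination r * h1

/-- The operators on `T` which are skew with respect to the form `tr (x * y)`. -/
def skewOps (tr : A →ₗ[K] K) (T : Submodule K A) : Submodule K (T →ₗ[K] T) where
  carrier := {N | SkewOp tr T N}
  zero_mem' := skewOp_zero tr T
  add_mem' := skewOp_add tr T
  smul_mem' := fun r _ hN => skewOp_smul tr T r hN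

/-- `N'` is the conjugate `g N g⁻¹` of the skew operator `N` on `T`. -/
def ConjSkew (tr : A →ₗ[K] K) (T : Submodule K A) (ρ : Γ →* (A ≃ₐ[K] A)) (g : Γ)
    (N N' : skewOps tr T) : Prop := ∀ t t' : T, (t' : A) = ρ g t → (N'.1 t' : A) = ρ g (N.1 t)

/-- Every subspace which is stable under the relations `R g` is zero or the whole space. -/
def RelIrr (K : Type) [Field K] {Γ V : Type} [AddCommMonoid V] [Module K V]
    (R : Γ → V → V → Prop) : Prop :=
  ∀ U : Submodule K V, (∀ (g : Γ) (x y : V), R g x y → x ∈ U → y ∈ U) → U = ⊥ ∨ U = ⊤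

/-- Some linear isomorphism is compatible with the relations `R g` and `R' g`. -/
def RelIso (K : Type) [Field K] {Γ V V' : Type} [AddCommMonoid V] [Module K V] [AddCommMonoid V']
    [Module K V'] (R : Γ → V → V → Prop) (R' : Γ → V' → V' → Prop) : Prop :=
  ∃ f : V ≃ₗ[K] V', ∀ (g : Γ) (x y : V), R g x y → R' g (f x) (f y)

/-- The representations of `Γ` on the skew operators on `T` and `T'` are isomorphic. -/
def AdIsoAct (tr : A →ₗ[K] K) (T : Submodule K A) (ρ : Γ →* (A ≃ₐ[K] A)) (tr' : B →ₗ[K] K)
    (T' : Submodule K B) (ρ' : Γ →* (B ≃ₐ[K] B)) : Prop :=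
  RelIso K (ConjSkew tr T ρ) (ConjSkew tr' T' ρ')

/-- Some element has two eigenvalues on `T` whose quotient is not a root of unity. -/
def HypAct (T : Submodule K A) (ρ : Γ →* (A ≃ₐ[K] A)) : Prop :=
  ∃ F : Γ, ∃ x ∈ T, ∃ y ∈ T, x ≠ 0 ∧ y ≠ 0 ∧ ∃ a b : K, ρ F x = a • x ∧ ρ F y = b • y ∧
    ∀ k : ℕ, 0 < k → a ^ k ≠ b ^ k

/-- The action `ρ` has the formal properties of a Galois action; the dimension `n` is odd; the
subspace `T` is in the middle degree; the group acts irreducibly on the skew operators on `T`, or
`T` has dimension two and is irreducible under all subgroups of finite index; some element has two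
eigenvalues on `T` whose quotient is not a root of unity. -/
structure AdAct (χ : Γ →* Kˣ) (gr : ℕ → Submodule K A) (n : ℕ) (tr : A →ₗ[K] K)
    (C : ℕ → Set A) (T : Submodule K A) (ρ : Γ →* (A ≃ₐ[K] A)) : Prop where
  galois : IsGaloisAct χ gr n tr C ρ
  odd : Odd n
  middle : T ≤ gr n
  irreducible : RelIrr K (ConjSkew tr T ρ) ∨ (Module.finrank K T = 2 ∧ IrredAct ρ T)
  hyperbolic : HypAct T ρ

/-- The action preserves the subspaces `gr i`. -/
def GradedAct (gr : ℕ → Submodule K A) (ρ : Γ →* (A ≃ₐ[K] A)) : Prop :=
  ∀ g i, ∀ a ∈ gr i, ρ g a ∈ gr i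

/-- The homomorphisms from the multiplicative group of `K` to the additive group `ℚ`. -/
abbrev Val (K : Type) [Field K] : Type := Additive Kˣ →+ ℚ

/-- The value of the homomorphism `ν` at the element `a`. -/
def val (ν : Val K) (a : Kˣ) : ℚ := ν (Additive.ofMul a)

/-- `ν a ∈ [0, n]` for all eigenvalues `a` of `g`. -/
def SlopesAct (ν : Val K) (ρ : Γ →* (A ≃ₐ[K] A)) (g : Γ) (n : ℕ) : Prop :=
  ∀ (a : Kˣ) (z : A), z ≠ 0 → ρ g z = (a : K) • z → 0 ≤ val ν a ∧ val ν a ≤ n

/-- `|2 ν a - n| ≥ δ` for all eigenvalues `a` of `g` on `T`. -/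
def GapAct (ν : Val K) (T : Submodule K A) (ρ : Γ →* (A ≃ₐ[K] A)) (g : Γ) (n : ℕ) (δ : ℚ) :
    Prop :=
  ∀ (a : Kˣ) (z : A), z ∈ T → z ≠ 0 → ρ g z = (a : K) • z → δ ≤ |2 * val ν a - n|

/-- The dimension of the subspace `T`. -/
noncomputable def subDim (T : Submodule K A) : ℕ := Module.finrank K T

end Alg

open Pool.Agent.H914 Pool.Agent.H914.VarClass Pool.Agent.H914.VarClass.Obj
  Pool.Agent.H914.WeilCohomology Pool.Agent.H281R3.HT Pool.Agent.W552

variable {k : Type u} [Field k] {𝒱 : VarClass k} {ops : CycleOps 𝒱}
  {W : WeilCohomology.{u, 0} ops} {Γ : Type} [Group Γ]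

/-- The dimension of the transcendental cohomology of `X`. -/
noncomputable def trRank (X : GVar W Γ) : ℕ := subDim (transcendental W X.X)

/-- The dimension of the cohomology of `X` in degree `m`. -/
noncomputable def degRank (X : GVar W Γ) (m : ℕ) : ℕ := subDim (W.gr X.X m)

/-- The dimension of the total cohomology of `X`. -/
noncomputable def totRank (X : GVar W Γ) : ℕ := Module.finrank W.K (W.H X.X)

/-- `X` is odd-dimensional, `Γ` acts on the cohomology like a Galois group, homological and
numerical equivalence coincide, the transcendental cohomology is in the middle degree, `Γ` acts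
irreducibly on the operators on it which are skew with respect to the intersection form (or the
transcendental cohomology has dimension two and is irreducible under all subgroups of finite index),
and some element has two eigenvalues on it whose quotient is not a root of unity. -/
structure AdVar (χ : Γ →* W.Kˣ) (X : GVar W Γ) : Prop where
  act : AdAct χ (W.gr X.X) X.X.dim (W.tr X.X) (algClasses W X.X) (transcendental W X.X) X.act
  homEqNum : HomEqNum W X.X

/-- The representations of `Γ` on the operators on the transcendental cohomology which are skew with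
respect to the intersection form are isomorphic. -/
def AdIso (X Y : GVar W Γ) : Prop :=
  AdIsoAct (W.tr X.X) (transcendental W X.X) X.act (W.tr Y.X) (transcendental W Y.X) Y.act

/-- All `X i` satisfy the conditions `AdVar`, and the adjoint representations of different `X i` are
not isomorphic. -/
structure AdFamily (χ : Γ →* W.Kˣ) {ι : Type} (X : ι → GVar W Γ) : Prop where
  var : ∀ i, AdVar χ (X i)
  adjoint : ∀ i j, i ≠ j → ¬AdIso (X i) (X j)

/-- `Y` is the product `X i₁ × (X i₂ × (⋯ × Z))` for the list `[i₁, i₂, …]`, with a compatible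
action of `Γ` on the cohomology. -/
inductive IsTower {ι : Type} (X : ι → GVar W Γ) (Z : GVar W Γ) : List ι → GVar W Γ → Prop
  | nil : IsTower X Z [] Z
  | cons (i : ι) {L : List ι} {Y Y' : GVar W Γ} : IsTower X Z L Y → IsProdVar (X i) Y Y' →
      IsTower X Z (i :: L) Y'

/-- The action of `Γ` on the cohomology of `Z` preserves the degrees. -/
def GradedVar (Z : GVar W Γ) : Prop := GradedAct (W.gr Z.X) Z.act

/-- `ν a ∈ [0, dim Z]` for all eigenvalues `a` of `g` on the cohomology of `Z`. -/
def SlopesBounded (ν : Val W.K) (g : Γ) (Z : GVar W Γ) : Prop := SlopesAct ν Z.act g Z.X.dim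

/-- `|2 ν a - dim X| ≥ δ` for all eigenvalues `a` of `g` on the transcendental cohomology of
`X`. -/
def SlopeGap (ν : Val W.K) (g : Γ) (X : GVar W Γ) (δ : ℚ) : Prop :=
  GapAct ν (transcendental W X.X) X.act g X.X.dim δ

/-- The sum of the dimensions of the `X i` for the entries `i` of the list. -/
def sumDim {ι : Type} (X : ι → GVar W Γ) (L : List ι) : ℕ := (L.map fun i => (X i).X.dim).sum

/-- The entries of the list `L` are in `B`, and for some degree `m` of the parity of the sum of the
dimensions of the `X i`: the product of the numbers `(number of the entries i) + 1` and the sum of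
the ranks of the transcendental cohomologies of the `X i`, over the different entries `i`, are at
most the dimension of the cohomology of `Z` in degree `m`; if `ν (χ g) = 1`, the slopes of `g` on
the cohomology of `Z` are in `[0, dim Z]` and the slopes on the transcendental cohomology of `X i`
have at least the distance `δ i / 2` from `dim X i / 2`, then the sum of the `δ i` over the entries
of the list is at most `m` and at most `2 dim Z - m`. -/
structure SmallList (χ : Γ →* W.Kˣ) {ι : Type} [DecidableEq ι] (X : ι → GVar W Γ)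
    (Z : GVar W Γ) (B : Finset ι) (L : List ι) : Prop where
  mem : ∀ i ∈ L, i ∈ B
  degree : ∃ m, Even (m + sumDim X L) ∧
    ∏ i ∈ L.toFinset, (L.count i + 1) ≤ degRank Z m ∧
    ∑ i ∈ L.toFinset, trRank (X i) ≤ degRank Z m ∧
    ∀ (ν : Val W.K) (g : Γ) (δ : ι → ℚ), val ν (χ g) = 1 →
      SlopesBounded ν g Z → (∀ i ∈ L, SlopeGap ν g (X i) (δ i)) →
        (L.map δ).sum ≤ m ∧ m + (L.map δ).sum ≤ 2 * Z.X.dim

end Pool.Agent.Y132.AF
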