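import Mathlib
import Pool.Agent.Y132.EP.Goursat
import Pool.Agent.Y132.AF.Pos2

/-!
# The operators on symplectic words
-/

set_option linter.unusedSectionVars false
set_option linter.unusedVariables false

namespace Pool.Agent.Y132.AF

open Module Finset Function Pool.Agent.Y132.EP

variable {K : Type} [Field K] {I : Type} [DecidableEq I] {T : I → Type}
  [∀ i, AddCommGroup (T i)] [∀ i, Module K (T i)] {E : Type} [AddCommGroup E] [Module K E]
  {Γ : Type} [Group Γ]

/-- All contractions of the multilinear map vanish. -/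
def Tr (B : ∀ i, T i →ₗ[K] T i →ₗ[K] K) {n : ℕ} {c : Fin n → I}
    (h : MultilinearMap K (fun s => T (c s)) E) : Prop :=
  ∀ p q, p ≠ q → c p = c q → ∀ (v : ∀ s, T (c s)) (G g : ℕ) (b : ∀ i, Lt G → T i),
    SBas (B (c p)) g (b (c p)) → ∑ r, sg r • h (update (update v p (b (c p) r)) q
      (b (c q) (bar r))) = 0

/-- The values on the words. -/
def wd {G n : ℕ} {c : Fin n → I} (b : ∀ i, Lt G → T i)
    (h : MultilinearMap K (fun s => T (c s)) E) (J : Fin n → Lt G) : E :=
  h fun s => b (c s) (J s)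

theorem Tr.wd {B : ∀ i, T i →ₗ[K] T i →ₗ[K] K} {n : ℕ} {c : Fin n → I}
    {h : MultilinearMap K (fun s => T (c s)) E} (hT : Tr B h) {G : ℕ} {g : I → ℕ}
    {b : ∀ i, Lt G → T i} (hb : ∀ i, SBas (B i) (g i) (b i)) (p q : Fin n) (hpq : p ≠ q)
    (hc : c p = c q) (J : Fin n → Lt G) : ctw p q (wd b h) J = 0 := by
  have h1 := hT p q hpq hc (fun s => b (c s) (J s)) G (g (c p)) b (hb (c p))
  rw [← h1, ctw]
  refine Finset.sum_congr rfl fun r _ => ?_
  congr 1
  rw [AF.wd]
  congr 1
  funext s
  by_cases hq : s = q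
  · subst hq
    rw [update_self, update_self]
  · rw [update_of_ne hq, update_of_ne hq]
    by_cases hp : s = p
    · subst hp
      rw [update_self, update_self]
    · rw [update_of_ne hp, update_of_ne hp]

theorem update_wd {G n : ℕ} {c : Fin n → I} (b : ∀ i, Lt G → T i)
    (h : MultilinearMap K (fun s => T (c s)) E) (J : Fin n → Lt G) (s : Fin n) (r : Lt G) :
    h (update (fun s => b (c s) (J s)) s (b (c s) r)) = wd b h (update J s r) := by
  rw [wd]
  congr 1
  funext s'
  by_cases hs : s' = s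
  · subst hs
    rw [update_self, update_self]
  · rw [update_of_ne hs, update_of_ne hs]

variable {B : ∀ i, T i →ₗ[K] T i →ₗ[K] K} {χ : Γ →* Kˣ} {w : I → ℕ}
  {ρ : ∀ i, Γ →* (T i →ₗ[K] T i)} {τ : Γ →* (E →ₗ[K] E)}

/-- A multilinear map which vanishes on the words vanishes. -/
theorem wd_zero {G n : ℕ} {c : Fin n → I} {b : ∀ i, Lt G → T i}
    (hspan : ∀ i, Submodule.span K (Set.range (b i)) = ⊤)
    (h : MultilinearMap K (fun s => T (c s)) E) (h0 : ∀ J, wd b h J = 0) : h = 0 := by
  have key : ∀ S : Finset (Fin n), ∀ v : ∀ s, T (c s),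
      (∀ s, s ∉ S → ∃ r, v s = b (c s) r) → h v = 0 := by
    intro S
    induction S using Finset.induction_on with
    | empty =>
      intro v hv
      choose J hJ using fun s => hv s (Finset.notMem_empty s)
      have h1 : v = fun s => b (c s) (J s) := funext hJ
      rw [h1]
      exact h0 J
    | insert s S hs ih =>
      intro v hv
      have h2 : ∀ x : T (c s), h (update v s x) = 0 := by
        intro x
        have hx : x ∈ Submodule.span K (Set.range (b (c s))) := by
          rw [hspan]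
          exact Submodule.mem_top
        induction hx using Submodule.span_induction with
        | mem x hx =>
          obtain ⟨r, rfl⟩ := hx
          refine ih _ fun s' hs' => ?_
          by_cases h3 : s' = s
          · subst h3
            exact ⟨r, by rw [update_self]⟩
          · rw [update_of_ne h3]
            exact hv s' fun h4 => (Finset.mem_insert.1 h4).elim h3 hs'
        | zero => exact h.map_coord_zero s (by rw [update_self])
        | add x y _ _ hx hy => rw [h.map_update_add, hx, hy, add_zero]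
        | smul r x _ hx => rw [h.map_update_smul, hx, smul_zero]
      have h3 := h2 (v s)
      rwa [update_eq_self] at h3
  refine MultilinearMap.ext fun v => ?_
  rw [key univ v fun s hs => absurd (Finset.mem_univ s) hs]
  rfl

section

variable [CharZero K] [IsAlgClosed K] [Fintype I] [∀ i, FiniteDimensional K (T i)]
  [FiniteDimensional K E]

/-- **The operators.** -/
theorem exists_D (h : AdFam χ w B ρ) (halt : ∀ i x, B i x x = 0) (τ : Γ →* (E →ₗ[K] E)) {G : ℕ}
    {g : I → ℕ} {b : ∀ i, Lt G → T i} (hb : ∀ i, SBas (B i) (g i) (b i)) (i : I)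
    (r₁ r₂ : Lt G) (h1 : (r₁.2 : ℕ) < g i) (h2 : (r₂.2 : ℕ) < g i) :
    ∃ D : E →ₗ[K] E, ∀ (n : ℕ) (c : Fin n → I) (a : ℤ)
      (f : MultilinearMap K (fun s => T (c s)) E), TateMap χ ρ τ c a f → ∀ J : Fin n → Lt G,
        D (wd b f J) = (sg r₁ : K) • (∑ s, if c s = i ∧ J s = bar r₁ then
          wd b f (update J s r₂) else 0) + (sg r₂ : K) • (∑ s, if c s = i ∧ J s = bar r₂ then
          wd b f (update J s r₁) else 0) := by
  obtain ⟨D, hD⟩ := exists_single h τ i (A := opA (B i) (b i r₁) (b i r₂))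
    (fun x y => opA_skew (halt i) _ _ x y)
  refine ⟨D, fun n c a f hf J => ?_⟩
  have h3 := (mem_GG.1 hD).2 n c a f hf (fun s => b (c s) (J s))
  simp only [mul_zero, zero_smul, add_zero] at h3
  rw [wd, ← h3, Finset.smul_sum, Finset.smul_sum, ← Finset.sum_add_distrib]
  refine Finset.sum_congr rfl fun s _ => ?_
  by_cases hs : c s = i
  · subst hs
    have e1 : (Pi.single (c s) (opA (B (c s)) (b (c s) r₁) (b (c s) r₂)) :
        ∀ i, T i →ₗ[K] T i) (c s) (b (c s) (J s)) =
        (if J s = bar r₁ then (sg r₁ : K) else 0) • b (c s) r₂ +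
          (if J s = bar r₂ then (sg r₂ : K) else 0) • b (c s) r₁ := by
      rw [Pi.single_eq_same, opA_apply, (hb (c s)).form, (hb (c s)).form]
      congr 2
      · exact if_congr (and_iff_left h1) rfl rfl
      · exact if_congr (and_iff_left h2) rfl rfl
    rw [e1, f.map_update_add, f.map_update_smul, f.map_update_smul, update_wd, update_wd]
    congr 1
    · by_cases h4 : J s = bar r₁
      · rw [if_pos h4, if_pos ⟨rfl, h4⟩]
      · rw [if_neg h4, if_neg fun h => h4 h.2, zero_smul, smul_zero]
    · by_cases h4 : J s = bar r₂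
      · rw [if_pos h4, if_pos ⟨rfl, h4⟩]
      · rw [if_neg h4, if_neg fun h => h4 h.2, zero_smul, smul_zero]
  · rw [if_neg fun h => hs h.1, if_neg fun h => hs h.1, smul_zero, smul_zero, add_zero]
    refine f.map_coord_zero s ?_
    rw [update_self]
    have e1 : (Pi.single i (opA (B i) (b i r₁) (b i r₂)) : ∀ i, T i →ₗ[K] T i) (c s) = 0 :=
      Pi.single_eq_of_ne hs _
    rw [e1, LinearMap.zero_apply]

theorem wd_off {G : ℕ} {g : I → ℕ} {b : ∀ i, Lt G → T i} (hb : ∀ i, SBas (B i) (g i) (b i))
    {n : ℕ} {c : Fin n → I} (f : MultilinearMap K (fun s => T (c s)) E) (J : Fin n → Lt G)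
    (s : Fin n) (hs : g (c s) ≤ ((J s).2 : ℕ)) : wd b f J = 0 :=
  f.map_coord_zero s ((hb (c s)).off _ hs)

/-- **The corner.** -/
theorem exists_corner (h : AdFam χ w B ρ) (halt : ∀ i x, B i x x = 0) {G : ℕ} {g : I → ℕ}
    {b : ∀ i, Lt G → T i} (hb : ∀ i, SBas (B i) (g i) (b i)) {n : ℕ} {c : Fin n → I} {a : ℤ}
    {f : MultilinearMap K (fun s => T (c s)) E} (hf : TateMap χ ρ τ c a f) (hne : f ≠ 0)
    (hT : Tr B f) : ∃ J, wd b f J ≠ 0 ∧ ∀ s, (J s).1 = 0 := by
  letI : Module ℚ E := Module.compHom E (algebraMap ℚ K)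
  refine corner (c := c) (g := g) (F := wd b f) (fun J s hs => wd_off hb f J s hs)
    (fun p q hpq hc J => hT.wd hb p q hpq hc J) (fun i k l hk hl => ?_) ?_
  · obtain ⟨D, hD⟩ := exists_D h halt τ hb i (1, k) (1, l) hk hl
    refine ⟨(-D).toAddMonoidHom, fun J => ?_⟩
    have h1 := hD n c a f hf J
    change _ = -(D (wd b f J))
    rw [h1]
    simp only [bar_one, sg_one, Int.cast_neg, Int.cast_one, neg_smul, one_smul]
    abel
  · by_contra hcon
    push Not at hcon
    exact hne (wd_zero (fun i => (hb i).span) f hcon)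

/-- Replacing a letter of a corner by a new letter. -/
theorem new_letter (h : AdFam χ w B ρ) (halt : ∀ i x, B i x x = 0) {G : ℕ} {g : I → ℕ}
    {b : ∀ i, Lt G → T i} (hb : ∀ i, SBas (B i) (g i) (b i)) {n : ℕ} {c : Fin n → I} {a : ℤ}
    {f : MultilinearMap K (fun s => T (c s)) E} (hf : TateMap χ ρ τ c a f)
    {J : Fin n → Lt G} (hJ : wd b f J ≠ 0) (hJ0 : ∀ s, (J s).1 = 0) (s₀ : Fin n)
    (k : Fin (G + 1)) (hk : (k : ℕ) < g (c s₀)) :
    ∃ J' : Fin n → Lt G, wd b f J' ≠ 0 ∧ (∀ s, (J' s).1 = 0) ∧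
      ∃ s, c s = c s₀ ∧ J' s = (0, k) := by
  by_cases hex : ∃ s, c s = c s₀ ∧ J s = (0, k)
  · obtain ⟨s, hs⟩ := hex
    exact ⟨J, hJ, hJ0, s, hs⟩
  · push Not at hex
    refine ⟨update J s₀ (0, k), ?_, ?_, s₀, rfl, update_self _ _ _⟩
    · intro h0
      have hk₀ : ((J s₀).2 : ℕ) < g (c s₀) := by
        by_contra hcon
        exact hJ (wd_off hb f J s₀ (not_lt.1 hcon))
      have hJs : J s₀ = (0, (J s₀).2) := Prod.ext (hJ0 s₀) rfl
      obtain ⟨D, hD⟩ := exists_D h halt τ hb (c s₀) (1, k) (0, (J s₀).2) hk hk₀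
      have h1 := hD n c a f hf (update J s₀ (0, k))
      rw [h0, map_zero] at h1
      have h2 : (∑ s, if c s = c s₀ ∧ update J s₀ (0, k) s = bar ((0, (J s₀).2) : Lt G) then
          wd b f (update (update J s₀ (0, k)) s (1, k)) else 0) = 0 := by
        refine Finset.sum_eq_zero fun s _ => if_neg ?_
        rintro ⟨-, h3⟩
        have h4 : (update J s₀ (0, k) s).1 = 0 := by
          by_cases hs : s = s₀
          · rw [hs, update_self]
          · rw [update_of_ne hs, hJ0]
        rw [h3] at h4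
        exact absurd h4 (by simp)
      have h3 : (∑ s, if c s = c s₀ ∧ update J s₀ (0, k) s = bar ((1, k) : Lt G) then
          wd b f (update (update J s₀ (0, k)) s (0, (J s₀).2)) else 0) = wd b f J := by
        rw [Finset.sum_eq_single s₀]
        · rw [if_pos ⟨rfl, by rw [update_self]; rfl⟩, update_idem, ← hJs, update_eq_self]
        · intro s _ hs
          rw [if_neg]
          rintro ⟨h4, h5⟩
          rw [update_of_ne hs] at h5
          exact hex s h4 h5
        · intro h4
          exact absurd (Finset.mem_univ _) h4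
      rw [h2, h3, smul_zero, add_zero] at h1
      simp only [sg_one, Int.cast_neg, Int.cast_one, neg_smul, one_smul] at h1
      exact hJ (neg_eq_zero.1 h1.symm)
    · intro s
      by_cases hs : s = s₀
      · rw [hs, update_self]
      · rw [update_of_ne hs, hJ0]

end

end Pool.Agent.Y132.AF
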