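import Mathlib
import Pool.Agent.Y132.EP.Weights
import Pool.Agent.Y132.AF.Ops

/-!
# Functions on words in two letters; symmetrization
-/

set_option linter.unusedSectionVars false
set_option linter.unusedVariables false

namespace Pool.Agent.Y132.AF

open Module Finset Function Pool.Agent.Y132.EP

section words

variable {K : Type} [Field K] [CharZero K] {E : Type} [AddCommGroup E] [Module K E]
  {I : Type} [DecidableEq I] {Λ : Type} [Fintype Λ] [DecidableEq Λ]

/-- the permutations which preserve the colours -/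
noncomputable def pc (c : Λ → I) : Finset (Equiv.Perm Λ) :=
  univ.filter fun σ => ∀ s, c (σ s) = c s

theorem mem_pc {c : Λ → I} {σ : Equiv.Perm Λ} : σ ∈ pc c ↔ ∀ s, c (σ s) = c s := by
  rw [pc, Finset.mem_filter]
  exact ⟨fun h => h.2, fun h => ⟨Finset.mem_univ _, h⟩⟩

/-- the symmetrization -/
noncomputable def symf (c : Λ → I) (F : (Λ → Fin 2) → E) (w : Λ → Fin 2) : E :=
  ∑ σ ∈ pc c, F (w ∘ σ)

theorem symf_sy (c : Λ → I) (F : (Λ → Fin 2) → E) : Sy c (symf c F) := by
  intro p q hpq J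
  have hsw : ∀ s, c (Equiv.swap p q s) = c s := by
    intro s
    by_cases h1 : s = p
    · rw [h1, Equiv.swap_apply_left, hpq]
    · by_cases h2 : s = q
      · rw [h2, Equiv.swap_apply_right, hpq]
      · rw [Equiv.swap_apply_of_ne_of_ne h1 h2]
  refine Finset.sum_equiv (Equiv.mulLeft (Equiv.swap p q)) (fun σ => ?_) fun σ _ => ?_
  · rw [mem_pc, mem_pc]
    refine forall_congr' fun s => ?_
    rw [Equiv.coe_mulLeft, Equiv.Perm.mul_apply, hsw]
  · rfl

theorem symf_const (c : Λ → I) (F : (Λ → Fin 2) → E) (a : Fin 2) :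
    symf c F (fun _ => a) = ((pc c).card : K) • F fun _ => a := by
  have h1 : ∀ σ ∈ pc c, F ((fun _ => a) ∘ (σ : Λ → Λ)) = F fun _ => a := fun σ _ => rfl
  rw [symf, Finset.sum_congr rfl h1, Finset.sum_const, Nat.cast_smul_eq_nsmul]

theorem card_pc_ne (c : Λ → I) : ((pc c).card : K) ≠ 0 := by
  rw [Nat.cast_ne_zero]
  exact Finset.card_ne_zero_of_mem (mem_pc.2 (fun _ => rfl : ∀ s, c ((1 : Equiv.Perm Λ) s) = c s))

theorem update_comp_perm (w : Λ → Fin 2) (σ : Equiv.Perm Λ) (s : Λ) (a : Fin 2) :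
    update (w ∘ σ) s a = update w (σ s) a ∘ σ := by
  funext t
  rw [Function.comp_apply]
  by_cases h : t = s
  · rw [h, update_self, update_self]
  · rw [update_of_ne h, update_of_ne fun h' => h (σ.injective h')]
    rfl

theorem symf_sum (c : Λ → I) (F : (Λ → Fin 2) → E) (i : I) (w : Λ → Fin 2) (a a' : Fin 2) :
    ∑ σ ∈ pc c, (∑ s, if c s = i ∧ (w ∘ σ) s = a then F (update (w ∘ σ) s a') else 0) =
      ∑ s, if c s = i ∧ w s = a then symf c F (update w s a') else 0 := by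
  have h1 : ∀ σ ∈ pc c, (∑ s, if c s = i ∧ (w ∘ σ) s = a then F (update (w ∘ σ) s a') else 0) =
      ∑ s, if c s = i ∧ w s = a then F (update w s a' ∘ σ) else 0 := by
    intro σ hσ
    refine Fintype.sum_equiv σ _ _ fun s => ?_
    rw [mem_pc.1 hσ s, update_comp_perm]
    rfl
  rw [Finset.sum_congr rfl h1, Finset.sum_comm]
  refine Finset.sum_congr rfl fun s _ => ?_
  by_cases h2 : c s = i ∧ w s = a
  · simp only [if_pos h2]
    rfl
  · simp only [if_neg h2]
    exact Finset.sum_const_zero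

theorem wt_comp (c : Λ → I) (w : Λ → Fin 2) {σ : Equiv.Perm Λ} (hσ : σ ∈ pc c) (i : I) :
    wt c (w ∘ σ) i = wt c w i := by
  refine Fintype.sum_equiv σ _ _ fun s => ?_
  rw [mem_pc.1 hσ s]
  rfl

theorem symf_sl {c : Λ → I} {F : (Λ → Fin 2) → E} {De Df Dh : I → (E →ₗ[K] E)}
    (h : SlAct c F De Df Dh) : SlAct c (symf c F) De Df Dh := by
  refine ⟨fun i w => ?_, fun i w => ?_, fun i w => ?_⟩
  · rw [symf, map_sum, ← symf_sum c F i w 1 0]
    exact Finset.sum_congr rfl fun σ _ => h.e i _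
  · rw [symf, map_sum, ← symf_sum c F i w 0 1]
    exact Finset.sum_congr rfl fun σ _ => h.f i _
  · rw [symf, map_sum, Finset.smul_sum]
    refine Finset.sum_congr rfl fun σ hσ => ?_
    rw [h.h, wt_comp c w hσ]

end words

section families

variable {K : Type} [Field K] [CharZero K] {E : Type} [AddCommGroup E] [Module K E]
  {I : Type} [DecidableEq I] [Fintype I]

/-- **The number of colours.** Every colour is involved in a nonzero symmetric function with values
in the space `U`, on which the operators act. -/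
theorem colours_leU {U : Submodule K E} [FiniteDimensional K U] (De Df Dh : I → (E →ₗ[K] E))
    (hex : ∀ i : I, ∃ (n : ℕ) (c : Fin n → I) (F : (Fin n → Fin 2) → E), Sy c F ∧
      SlAct (K := K) c F De Df Dh ∧ (∃ J, F J ≠ 0) ∧ (∀ J, F J ∈ U) ∧ ∃ s, c s = i) :
    2 * Fintype.card I ≤ finrank K U := by
  classical
  choose n c F hF hD hJ hFU hi using hex
  -- the supports
  let Φ : I → Finset I := fun i => univ.image (c i)
  have hΦ : ∀ i, i ∈ Φ i := fun i => by
    obtain ⟨s, hs⟩ := hi i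
    exact Finset.mem_image.2 ⟨s, mem_univ _, hs⟩
  let 𝒮 : Finset (Finset I) := univ.image Φ
  have hrep : ∀ Ψ : 𝒮, ∃ i, Φ i = Ψ := fun Ψ => by
    obtain ⟨i, -, h⟩ := Finset.mem_image.1 Ψ.2
    exact ⟨i, h⟩
  choose r hr using hrep
  -- the words
  let Jw : ∀ (Ψ : 𝒮) (S : Finset I), Fin (n (r Ψ)) → Fin 2 := fun Ψ S s =>
    if c (r Ψ) s ∈ S then 1 else 0
  have hwt : ∀ (Ψ : 𝒮) (S : Finset I) (j : I), wt (c (r Ψ)) (Jw Ψ S) j =
      (if j ∈ S then -1 else 1) * ((univ.filter fun s => c (r Ψ) s = j).card : ℤ) := by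
    intro Ψ S j
    rw [wt_eq]
    by_cases hj : j ∈ S
    · have h1 : (univ.filter fun s => c (r Ψ) s = j ∧ Jw Ψ S s = 1) =
          univ.filter fun s => c (r Ψ) s = j := by
        refine Finset.filter_congr fun s _ => ⟨fun h => h.1, fun h => ⟨h, ?_⟩⟩
        change (if c (r Ψ) s ∈ S then (1 : Fin 2) else 0) = 1
        rw [h, if_pos hj]
      rw [h1, if_pos hj]
      ring
    · have h1 : (univ.filter fun s => c (r Ψ) s = j ∧ Jw Ψ S s = 1) = ∅ := by
        refine Finset.filter_eq_empty_iff.2 fun s _ h => ?_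
        have h2 : (if c (r Ψ) s ∈ S then (1 : Fin 2) else 0) = 1 := h.2
        rw [h.1, if_neg hj] at h2
        exact absurd h2 (by decide)
      rw [h1, if_neg hj]
      simp
  have hpos : ∀ (Ψ : 𝒮) (j : I), (univ.filter fun s => c (r Ψ) s = j).card ≠ 0 ↔
      j ∈ (Ψ : Finset I) := by
    intro Ψ j
    rw [← hr Ψ, Finset.card_ne_zero, Finset.mem_image]
    constructor
    · rintro ⟨s, hs⟩
      exact ⟨s, mem_univ _, (Finset.mem_filter.1 hs).2⟩
    · rintro ⟨s, -, hs⟩
      exact ⟨s, Finset.mem_filter.2 ⟨mem_univ _, hs⟩⟩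
  -- the index set
  let A : Type := Σ Ψ : 𝒮, (Ψ : Finset I).powerset
  have hA : Fintype.card A = ∑ Ψ : 𝒮, 2 ^ (Ψ : Finset I).card := by
    rw [Fintype.card_sigma]
    refine Finset.sum_congr rfl fun Ψ _ => ?_
    rw [Fintype.card_coe, Finset.card_powerset]
  have h1 := card_le_of_joint (K := K) (U := U) Dh
    (fun a : A => wt (c (r a.1)) (Jw a.1 a.2.1))
    (fun a b hab => by
      obtain ⟨Ψ, S, hS⟩ := a
      obtain ⟨Ψ', S', hS'⟩ := b
      have h2 : ∀ j, (if j ∈ S then (-1 : ℤ) else 1) *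
          ((univ.filter fun s => c (r Ψ) s = j).card : ℤ) =
          (if j ∈ S' then (-1 : ℤ) else 1) *
          ((univ.filter fun s => c (r Ψ') s = j).card : ℤ) := fun j => by
        rw [← hwt, ← hwt]
        exact congrFun hab j
      have h3 : Ψ = Ψ' := by
        apply Subtype.ext
        ext j
        rw [← hpos Ψ, ← hpos Ψ', not_iff_not]
        have h4 := h2 j
        constructor
        · intro h5
          rw [h5, Nat.cast_zero, mul_zero] at h4
          have h6 : (if j ∈ S' then (-1 : ℤ) else 1) ≠ 0 := by split_ifs <;> norm_num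
          exact_mod_cast (mul_eq_zero.1 h4.symm).resolve_left h6
        · intro h5
          rw [h5, Nat.cast_zero, mul_zero] at h4
          have h6 : (if j ∈ S then (-1 : ℤ) else 1) ≠ 0 := by split_ifs <;> norm_num
          exact_mod_cast (mul_eq_zero.1 h4).resolve_left h6
      subst h3
      have h4 : S = S' := by
        ext j
        by_cases hj : j ∈ (Ψ : Finset I)
        · have h5 := h2 j
          have h6 : ((univ.filter fun s => c (r Ψ) s = j).card : ℤ) ≠ 0 := by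
            exact_mod_cast (hpos Ψ j).2 hj
          have h7 := mul_right_cancel₀ h6 h5
          by_cases h8 : j ∈ S <;> by_cases h9 : j ∈ S'
          · simp [h8, h9]
          · rw [if_pos h8, if_neg h9] at h7
            norm_num at h7
          · rw [if_neg h8, if_pos h9] at h7
            norm_num at h7
          · simp [h8, h9]
        · have h5 : j ∉ S := fun h => hj (Finset.mem_powerset.1 hS h)
          have h6 : j ∉ S' := fun h => hj (Finset.mem_powerset.1 hS' h)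
          simp [h5, h6]
      subst h4
      rfl)
    (fun a => F (r a.1) (Jw a.1 a.2.1))
    (fun a => by
      obtain ⟨J, hJ'⟩ := hJ (r a.1)
      exact all_ne (hF _) (hD _) hJ' _)
    (fun a i => (hD _).h i _) (fun a => hFU _ _)
  rw [hA] at h1
  refine le_trans ?_ h1
  have h2 : (univ : Finset I) = 𝒮.biUnion id := by
    ext j
    simp only [Finset.mem_univ, Finset.mem_biUnion, id, true_iff]
    exact ⟨Φ j, Finset.mem_image_of_mem _ (mem_univ _), hΦ j⟩
  have h3 : Fintype.card I ≤ ∑ Ψ ∈ 𝒮, Ψ.card := by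
    rw [← Finset.card_univ, h2]
    exact Finset.card_biUnion_le
  have h4 : ∀ m : ℕ, 2 * m ≤ 2 ^ m := by
    intro m
    induction m with
    | zero => norm_num
    | succ m ih =>
      rcases Nat.eq_zero_or_pos m with rfl | hm
      · norm_num
      · rw [pow_succ]
        omega
  calc 2 * Fintype.card I ≤ 2 * ∑ Ψ ∈ 𝒮, Ψ.card := Nat.mul_le_mul_left 2 h3
    _ = ∑ Ψ ∈ 𝒮, 2 * Ψ.card := by rw [Finset.mul_sum]
    _ ≤ ∑ Ψ ∈ 𝒮, 2 ^ Ψ.card := Finset.sum_le_sum fun Ψ _ => h4 _
    _ = ∑ Ψ : 𝒮, 2 ^ (Ψ : Finset I).card := by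
      rw [← Finset.sum_coe_sort 𝒮 fun Ψ => 2 ^ Ψ.card]

end families

section corners

variable {K : Type} [Field K] {I : Type} [DecidableEq I] {T : I → Type}
  [∀ i, AddCommGroup (T i)] [∀ i, Module K (T i)] {E : Type} [AddCommGroup E] [Module K E]
  {Γ : Type} [Group Γ] {B : ∀ i, T i →ₗ[K] T i →ₗ[K] K} {χ : Γ →* Kˣ} {w : I → ℕ}
  {ρ : ∀ i, Γ →* (T i →ₗ[K] T i)} {τ : Γ →* (E →ₗ[K] E)}
  [CharZero K] [IsAlgClosed K] [Fintype I] [∀ i, FiniteDimensional K (T i)]
  [FiniteDimensional K E]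

/-- the refined colours -/
abbrev RC (G : ℕ) (g : I → ℕ) := {x : I × Fin (G + 1) // (x.2 : ℕ) < g x.1}

theorem card_RC {G : ℕ} {g : I → ℕ} (hg : ∀ i, g i ≤ G + 1) :
    Fintype.card (RC G g) = ∑ i, g i := by
  have h1 : Fintype.card (RC G g) = Fintype.card (Σ i, Fin (g i)) :=
    Fintype.card_congr
      { toFun := fun x => ⟨x.1.1, ⟨x.1.2, x.2⟩⟩
        invFun := fun y => ⟨(y.1, ⟨y.2, lt_of_lt_of_le y.2.2 (hg y.1)⟩), y.2.2⟩
        left_inv := fun x => rfl
        right_inv := fun y => rfl }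
  rw [h1, Fintype.card_sigma]
  simp

/-- **The operators of the refined colours.** -/
theorem exists_ref (h : AdFam χ w B ρ) (halt : ∀ i x, B i x x = 0) (τ : Γ →* (E →ₗ[K] E)) {G : ℕ}
    {g : I → ℕ} {b : ∀ i, Lt G → T i} (hb : ∀ i, SBas (B i) (g i) (b i)) :
    ∃ De Df Dh : RC G g → (E →ₗ[K] E), ∀ (n : ℕ) (c : Fin n → I) (a : ℤ)
      (f : MultilinearMap K (fun s => T (c s)) E), TateMap χ ρ τ c a f →
        ∀ (κ : Fin n → Fin (G + 1)) (hκ : ∀ s, (κ s : ℕ) < g (c s)),
          SlAct (K := K) (fun s => (⟨(c s, κ s), hκ s⟩ : RC G g))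
            (fun u => wd b f fun s => (u s, κ s)) De Df Dh := by
  have h1 := fun x : RC G g => exists_D h halt τ hb x.1.1 (0, x.1.2) (0, x.1.2) x.2 x.2
  have h2 := fun x : RC G g => exists_D h halt τ hb x.1.1 (1, x.1.2) (1, x.1.2) x.2 x.2
  have h3 := fun x : RC G g => exists_D h halt τ hb x.1.1 (0, x.1.2) (1, x.1.2) x.2 x.2
  choose D1 hD1 using h1
  choose D2 hD2 using h2
  choose D3 hD3 using h3
  have two : (2 : K) ≠ 0 := two_ne_zero
  have hupd : ∀ {n : ℕ} (κ : Fin n → Fin (G + 1)) (u : Fin n → Fin 2) (s : Fin n) (a : Fin 2)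
      (k : Fin (G + 1)), κ s = k → update (fun s => ((u s, κ s) : Lt G)) s (a, k) =
        fun s' => (update u s a s', κ s') := by
    rintro n κ u s a k rfl
    funext s'
    by_cases hs : s' = s
    · subst hs
      rw [update_self, update_self]
    · rw [update_of_ne hs, update_of_ne hs]
  have hsum : ∀ {n : ℕ} {c : Fin n → I} (f : MultilinearMap K (fun s => T (c s)) E)
      (κ : Fin n → Fin (G + 1)) (hκ : ∀ s, (κ s : ℕ) < g (c s)) (u : Fin n → Fin 2)
      (x : RC G g) (a a' : Fin 2),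
      (∑ s, if c s = x.1.1 ∧ ((u s, κ s) : Lt G) = (a, x.1.2) then
        wd b f (update (fun s => ((u s, κ s) : Lt G)) s (a', x.1.2)) else 0) =
      ∑ s, if (⟨(c s, κ s), hκ s⟩ : RC G g) = x ∧ u s = a then
        wd b f (fun s' => (update u s a' s', κ s')) else 0 := by
    intro n c f κ hκ u x a a'
    refine Finset.sum_congr rfl fun s _ => ?_
    by_cases h4 : c s = x.1.1 ∧ ((u s, κ s) : Lt G) = (a, x.1.2)
    · have h5 := congrArg Prod.fst h4.2
      have h6 := congrArg Prod.snd h4.2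
      simp only at h5 h6
      rw [if_pos h4, if_pos ⟨Subtype.ext (Prod.ext h4.1 h6), h5⟩, hupd κ u s a' _ h6]
    · rw [if_neg h4, if_neg]
      rintro ⟨h5, h6⟩
      apply h4
      have h7 := congrArg (fun y : RC G g => y.1.1) h5
      have h8 := congrArg (fun y : RC G g => y.1.2) h5
      exact ⟨h7, Prod.ext h6 h8⟩
  refine ⟨fun x => (2 : K)⁻¹ • D1 x, fun x => -((2 : K)⁻¹ • D2 x), fun x => -D3 x,
    fun n c a f hf κ hκ => ⟨fun x u => ?_, fun x u => ?_, fun x u => ?_⟩⟩
  · rw [LinearMap.smul_apply, hD1 x n c a f hf, bar_zero, hsum f κ hκ u x 1 0]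
    simp only [sg_zero, Int.cast_one, one_smul]
    rw [← two_smul K, smul_smul, inv_mul_cancel₀ two, one_smul]
  · rw [LinearMap.neg_apply, LinearMap.smul_apply, hD2 x n c a f hf, bar_one,
      hsum f κ hκ u x 0 1]
    simp only [sg_one, Int.cast_neg, Int.cast_one, neg_smul, one_smul]
    rw [← neg_add, smul_neg, neg_neg, ← two_smul K, smul_smul, inv_mul_cancel₀ two, one_smul]
  · rw [LinearMap.neg_apply, hD3 x n c a f hf, bar_zero, bar_one, hsum f κ hκ u x 1 1,
      hsum f κ hκ u x 0 0]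
    simp only [sg_zero, sg_one, Int.cast_neg, Int.cast_one, neg_smul, one_smul]
    rw [neg_add, neg_neg, wt, Int.cast_sum, Finset.sum_smul, ← Finset.sum_neg_distrib,
      ← Finset.sum_add_distrib]
    refine Finset.sum_congr rfl fun s _ => ?_
    by_cases h4 : (⟨(c s, κ s), hκ s⟩ : RC G g) = x
    · rcases fin2 (u s) with h5 | h5
      · have h01 : ¬((0 : Fin 2) = 1) := by decide
        rw [if_pos h4, h5, if_pos rfl, if_neg fun h => h01 h.2, if_pos ⟨h4, rfl⟩, neg_zero,
          zero_add, ← h5, update_eq_self]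
        simp
      · have h01 : ¬((1 : Fin 2) = 0) := by decide
        rw [if_pos h4, h5, if_neg h01, if_pos ⟨h4, rfl⟩, if_neg fun h => h01 h.2, add_zero,
          ← h5, update_eq_self]
        simp
    · rw [if_neg h4, if_neg fun h => h4 h.1, if_neg fun h => h4 h.1]
      simp

/-- An occurrence: a nonzero traceless semi-equivariant map with values in a subspace. -/
structure OccA (χ : Γ →* Kˣ) (B : ∀ i, T i →ₗ[K] T i →ₗ[K] K)
    (ρ : ∀ i, Γ →* (T i →ₗ[K] T i)) (τ : Γ →* (E →ₗ[K] E)) (U : Submodule K E) {n : ℕ}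
    (c : Fin n → I) (a : ℤ) (f : MultilinearMap K (fun s => T (c s)) E) : Prop where
  tate : TateMap χ ρ τ c a f
  mem : ∀ v, f v ∈ U
  ne : f ≠ 0
  tr : Tr B f

/-- The two-letter function of a corner. -/
theorem OccA.two (h : AdFam χ w B ρ) (halt : ∀ i x, B i x x = 0) {G : ℕ} {g : I → ℕ}
    {b : ∀ i, Lt G → T i} (hb : ∀ i, SBas (B i) (g i) (b i)) {De Df Dh : RC G g → (E →ₗ[K] E)}
    (hD : ∀ (n : ℕ) (c : Fin n → I) (a : ℤ)
      (f : MultilinearMap K (fun s => T (c s)) E), TateMap χ ρ τ c a f →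
        ∀ (κ : Fin n → Fin (G + 1)) (hκ : ∀ s, (κ s : ℕ) < g (c s)),
          SlAct (K := K) (fun s => (⟨(c s, κ s), hκ s⟩ : RC G g))
            (fun u => wd b f fun s => (u s, κ s)) De Df Dh)
    {U : Submodule K E} {n : ℕ} {c : Fin n → I} {a : ℤ}
    {f : MultilinearMap K (fun s => T (c s)) E} (hf : OccA χ B ρ τ U c a f)
    {J : Fin n → Lt G} (hJ : wd b f J ≠ 0) (hJ0 : ∀ s, (J s).1 = 0) :
    ∃ hκ : ∀ s, ((J s).2 : ℕ) < g (c s),
      ∃ F : (Fin n → Fin 2) → E, Sy (fun s => (⟨(c s, (J s).2), hκ s⟩ : RC G g)) F ∧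
        SlAct (K := K) (fun s => (⟨(c s, (J s).2), hκ s⟩ : RC G g)) F De Df Dh ∧
        (∃ u, F u ≠ 0) ∧ (∀ u, F u ∈ U) ∧
        ∀ u : Fin 2, F (fun _ => u) ≠ 0 → wd b f (fun s => (u, (J s).2)) ≠ 0 := by
  have hκ : ∀ s, ((J s).2 : ℕ) < g (c s) := by
    intro s
    by_contra hcon
    exact hJ (wd_off hb f J s (not_lt.1 hcon))
  refine ⟨hκ, symf (fun s => (⟨(c s, (J s).2), hκ s⟩ : RC G g))
    (fun u => wd b f fun s => (u s, (J s).2)), symf_sy _ _,
    symf_sl (hD n c a f hf.tate _ hκ), ⟨fun _ => 0, ?_⟩, fun u => ?_, fun u hu h0 => ?_⟩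
  · rw [symf_const (K := K)]
    refine smul_ne_zero (card_pc_ne _) ?_
    have h1 : (fun s => ((0 : Fin 2), (J s).2)) = J := funext fun s => Prod.ext (hJ0 s).symm rfl
    rw [h1]
    exact hJ
  · exact Submodule.sum_mem _ fun σ _ => hf.mem _
  · apply hu
    rw [symf_const (K := K), h0, smul_zero]

/-- **All-negative words.** -/
theorem OccA.neg (h : AdFam χ w B ρ) (halt : ∀ i x, B i x x = 0) {G : ℕ} {g : I → ℕ}
    {b : ∀ i, Lt G → T i} (hb : ∀ i, SBas (B i) (g i) (b i))
    {U : Submodule K E} {n : ℕ} {c : Fin n → I} {a : ℤ}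
    {f : MultilinearMap K (fun s => T (c s)) E} (hf : OccA χ B ρ τ U c a f) :
    ∃ κ : Fin n → Fin (G + 1), wd b f (fun s => (0, κ s)) ≠ 0 ∧
      wd b f (fun s => (1, κ s)) ≠ 0 := by
  obtain ⟨J, hJ, hJ0⟩ := exists_corner h halt hb hf.tate hf.ne hf.tr
  obtain ⟨De, Df, Dh, hD⟩ := exists_ref h halt τ hb
  obtain ⟨hκ, F, h1, h2, ⟨u, hu⟩, -, h3⟩ := OccA.two h halt hb hD hf hJ hJ0
  exact ⟨fun s => (J s).2, h3 0 (all_ne h1 h2 hu _), h3 1 (all_ne h1 h2 hu _)⟩

theorem one_add_sum_le {R : Type} [DecidableEq R] (S : Finset R) (m : R → ℕ) :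
    (∑ x ∈ S, m x) + 1 ≤ ∏ x ∈ S, (m x + 1) := by
  induction S using Finset.induction_on with
  | empty => simp
  | insert x S hx ih =>
    rw [Finset.sum_insert hx, Finset.prod_insert hx]
    nlinarith [Nat.zero_le (m x), Nat.zero_le (∑ x ∈ S, m x)]

/-- **The product bound.** -/
theorem OccA.prod (h : AdFam χ w B ρ) (halt : ∀ i x, B i x x = 0) {G : ℕ} {g : I → ℕ}
    {b : ∀ i, Lt G → T i} (hb : ∀ i, SBas (B i) (g i) (b i))
    {U : Submodule K E} {n : ℕ} {c : Fin n → I} {a : ℤ}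
    {f : MultilinearMap K (fun s => T (c s)) E} (hf : OccA χ B ρ τ U c a f) :
    ∏ i, ((univ.filter fun s => c s = i).card + 1) ≤ finrank K U := by
  classical
  obtain ⟨J, hJ, hJ0⟩ := exists_corner h halt hb hf.tate hf.ne hf.tr
  obtain ⟨De, Df, Dh, hD⟩ := exists_ref h halt τ hb
  obtain ⟨hκ, F, h1, h2, ⟨u, hu⟩, hU, h3⟩ := OccA.two h halt hb hD hf hJ hJ0
  refine le_trans ?_ (prod_le h1 h2 hu hU)
  set c' : Fin n → RC G g := fun s => ⟨(c s, (J s).2), hκ s⟩ with hc'
  have e1 : ∀ i, (univ.filter fun s => c s = i).card + 1 ≤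
      ∏ x ∈ univ.filter (fun x : RC G g => x.1.1 = i), ((univ.filter fun s => c' s = x).card + 1) := by
    intro i
    refine le_trans (le_of_eq ?_) (one_add_sum_le _ _)
    congr 1
    rw [← Finset.card_biUnion]
    · congr 1
      ext s
      simp only [Finset.mem_filter, Finset.mem_univ, true_and, Finset.mem_biUnion]
      constructor
      · intro hs
        exact ⟨c' s, hs, rfl⟩
      · rintro ⟨x, hx, hs⟩
        rw [← hx, ← hs]
    · intro x _ y _ hxy
      rw [Function.onFun, Finset.disjoint_left]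
      intro s hs hs'
      rw [Finset.mem_filter] at hs hs'
      exact hxy (hs.2.symm.trans hs'.2)
  refine (Finset.prod_le_prod' fun i _ => e1 i).trans (le_of_eq ?_)
  exact Finset.prod_fiberwise (univ : Finset (RC G g)) (fun x => x.1.1)
    (fun x => (univ.filter fun s => c' s = x).card + 1)

/-- **The bound for the ranks.** -/
theorem ranks_le (h : AdFam χ w B ρ) (halt : ∀ i x, B i x x = 0) {G : ℕ} {g : I → ℕ}
    (hg : ∀ i, g i ≤ G + 1) {b : ∀ i, Lt G → T i} (hb : ∀ i, SBas (B i) (g i) (b i))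
    {U : Submodule K E} (hocc : ∀ i, ∃ (n : ℕ) (c : Fin n → I) (a : ℤ)
      (f : MultilinearMap K (fun s => T (c s)) E), OccA χ B ρ τ U c a f ∧ ∃ s, c s = i) :
    ∑ i, finrank K (T i) ≤ finrank K U := by
  classical
  obtain ⟨De, Df, Dh, hD⟩ := exists_ref h halt τ hb
  have key := colours_leU (U := U) De Df Dh fun x => by
    obtain ⟨⟨i, k⟩, hk⟩ := x
    obtain ⟨n, c, a, f, hf, s₀, rfl⟩ := hocc i
    obtain ⟨J, hJ, hJ0⟩ := exists_corner h halt hb hf.tate hf.ne hf.tr
    obtain ⟨J', hJ', hJ0', s, hs, hsk⟩ := new_letter h halt hb hf.tate hJ hJ0 s₀ k hk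
    obtain ⟨hκ, F, h1, h2, hu, hU, h3⟩ := OccA.two h halt hb hD hf hJ' hJ0'
    have h9 : (J' s).2 = k := congrArg Prod.snd hsk
    exact ⟨n, _, F, h1, h2, hu, hU, s, Subtype.ext (Prod.ext hs h9)⟩
  rw [card_RC hg, Finset.mul_sum] at key
  exact (Finset.sum_le_sum fun i _ => (hb i).card_le (hg i)).trans key

end corners

end Pool.Agent.Y132.AF
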