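import Mathlib
import Pool.Agent.Y132.AF.Two

/-!
# Slopes
-/

set_option linter.unusedSectionVars false
set_option linter.unusedVariables false

namespace Pool.Agent.Y132.AF

open Module Finset Function Pool.Agent.Y132.EP Pool.Agent.TH118.SG

section one

variable {K : Type} [Field K] [CharZero K] [IsAlgClosed K] {V : Type} [AddCommGroup V]
  [Module K V] [FiniteDimensional K V]

/-- the additive character with values in `K` -/
noncomputable def nuK (ν : Additive Kˣ →+ ℚ) : Additive Kˣ →+ K :=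
  ((algebraMap ℚ K : ℚ →+* K) : ℚ →+ K).comp ν

theorem ext0_nu (ν : Additive Kˣ →+ ℚ) (β : Kˣ) :
    ext0 (nuK ν) (β : K) = ((ν (Additive.ofMul β) : ℚ) : K) := by
  rw [ext0_ne (nuK ν) (Units.ne_zero β), Units.mk0_val]
  rfl

theorem ext0_rat (ν : Additive Kˣ →+ ℚ) (β : K) : ∃ q : ℚ, ext0 (nuK ν) β = (q : K) := by
  by_cases h : β = 0
  · exact ⟨0, by rw [h, ext0_zero, Rat.cast_zero]⟩
  · exact ⟨_, ext0_nu ν (Units.mk0 β h)⟩

theorem exists_eigvec {F : V →ₗ[K] V} {β : K} {x : V} (hx : x ≠ 0)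
    (hm : x ∈ Module.End.maxGenEigenspace F β) : ∃ y, y ≠ 0 ∧ F y = β • y := by
  classical
  obtain ⟨n, hn⟩ := mem_gen.1 hm
  have hex : ∃ n : ℕ, ((F - algebraMap K (End K V) β) ^ n) x = 0 := ⟨n, hn⟩
  set m := Nat.find hex with hmdef
  have hm0 : ((F - algebraMap K (End K V) β) ^ m) x = 0 := Nat.find_spec hex
  obtain ⟨m', hm'⟩ : ∃ m', m = m' + 1 := by
    refine Nat.exists_eq_succ_of_ne_zero fun h0 => hx ?_
    rwa [h0, pow_zero, Module.End.one_apply] at hm0
  refine ⟨((F - algebraMap K (End K V) β) ^ m') x, Nat.find_min hex (by omega), ?_⟩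
  rw [hm', pow_succ', Module.End.mul_apply, LinearMap.sub_apply, Module.algebraMap_end_apply] at hm0
  exact sub_eq_zero.1 hm0

/-- Eigenvalues with prescribed image under the additive character. -/
theorem exists_ev (ν : Additive Kˣ →+ ℚ) {F Y : V →ₗ[K] V} (hinj : Function.Injective F)
    (hY : ∀ β, ∀ x ∈ Module.End.maxGenEigenspace F β, Y x = ext0 (nuK ν) β • x) {z : V}
    (hz : z ≠ 0) {q : ℚ} (hYz : Y z = (q : K) • z) :
    ∃ β : Kˣ, ∃ x, x ≠ 0 ∧ F x = (β : K) • x ∧ ν (Additive.ofMul β) = q := by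
  by_contra hcon
  push Not at hcon
  set D : V →ₗ[K] V := Y - (q : K) • LinearMap.id with hD
  have h1 : ∀ β, Module.End.maxGenEigenspace F β ≤ LinearMap.range D := by
    intro β x hx
    by_cases hx0 : x = 0
    · rw [hx0]
      exact Submodule.zero_mem _
    · obtain ⟨y, hy, hFy⟩ := exists_eigvec hx0 hx
      have hβ : β ≠ 0 := by
        rintro rfl
        rw [zero_smul] at hFy
        exact hy (hinj (by rw [hFy, map_zero]))
      have h2 := hcon (Units.mk0 β hβ) y hy hFy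
      have h3 : ext0 (nuK ν) β ≠ (q : K) := by
        have h4 := ext0_nu ν (Units.mk0 β hβ)
        rw [Units.val_mk0] at h4
        rw [h4]
        exact_mod_cast h2
      have h4 : ext0 (nuK ν) β - (q : K) ≠ 0 := sub_ne_zero.2 h3
      refine ⟨(ext0 (nuK ν) β - (q : K))⁻¹ • x, ?_⟩
      rw [map_smul, hD, LinearMap.sub_apply, hY β x hx, LinearMap.smul_apply,
        LinearMap.id_apply, ← sub_smul, smul_smul, inv_mul_cancel₀ h4, one_smul]
  have h2 : LinearMap.range D = ⊤ := by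
    rw [eq_top_iff, ← Module.End.iSup_maxGenEigenspace_eq_top F]
    exact iSup_le h1
  have h3 : Function.Injective D :=
    LinearMap.injective_iff_surjective.2 (LinearMap.range_eq_top.1 h2)
  apply hz
  apply h3
  rw [map_zero, hD, LinearMap.sub_apply, hYz, LinearMap.smul_apply, LinearMap.id_apply, sub_self]

theorem span_ev (ν : Additive Kˣ →+ ℚ) {F Y : V →ₗ[K] V}
    (hY : ∀ β, ∀ x ∈ Module.End.maxGenEigenspace F β, Y x = ext0 (nuK ν) β • x) :
    Submodule.span K {x | ∃ a : ℚ, Y x = (a : K) • x} = ⊤ := by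
  rw [eq_top_iff, ← Module.End.iSup_maxGenEigenspace_eq_top F]
  refine iSup_le fun β x hx => Submodule.subset_span ?_
  obtain ⟨q, hq⟩ := ext0_rat ν β
  exact ⟨q, by rw [hY β x hx, hq]⟩

end one

variable {K : Type} [Field K] {I : Type} [DecidableEq I] {T : I → Type}
  [∀ i, AddCommGroup (T i)] [∀ i, Module K (T i)] {E : Type} [AddCommGroup E] [Module K E]
  {Γ : Type} [Group Γ] {B : ∀ i, T i →ₗ[K] T i →ₗ[K] K} {χ : Γ →* Kˣ} {w : I → ℕ}
  {ρ : ∀ i, Γ →* (T i →ₗ[K] T i)} {τ : Γ →* (E →ₗ[K] E)}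
  [CharZero K] [IsAlgClosed K] [Fintype I] [∀ i, FiniteDimensional K (T i)]
  [FiniteDimensional K E]

/-- **The bounds for the slopes.** -/
theorem OccA.slopes (h : AdFam χ w B ρ) (halt : ∀ i x, B i x x = 0)
    (hnd : ∀ i x, (∀ y, B i x y = 0) → x = 0) {ν : Additive Kˣ →+ ℚ} {g₀ : Γ}
    (hχ : ν (Additive.ofMul (χ g₀)) = 1) {N : ℚ}
    (hE : ∀ (β : Kˣ) (z : E), z ≠ 0 → τ g₀ z = (β : K) • z →
      0 ≤ ν (Additive.ofMul β) ∧ ν (Additive.ofMul β) ≤ N) {δ : I → ℚ}
    {U : Submodule K E} {n : ℕ} {c : Fin n → I} {a : ℤ}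
    (hδ : ∀ s, ∀ (β : Kˣ) (x : T (c s)), x ≠ 0 → ρ (c s) g₀ x = (β : K) • x →
      δ (c s) ≤ |2 * ν (Additive.ofMul β) - w (c s)|)
    {f : MultilinearMap K (fun s => T (c s)) E} (hf : OccA χ B ρ τ U c a f) :
    (a : ℚ) ≤ ∑ s, ((w (c s) : ℚ) - δ (c s)) / 2 ∧
      ∑ s, ((w (c s) : ℚ) + δ (c s)) / 2 ≤ N + a := by
  have hinj : ∀ i, Function.Injective (ρ i g₀) := fun i x y hxy => by
    have h1 := congrArg (ρ i g₀⁻¹) hxy
    rwa [ginv', ginv'] at h1
  have hinjE : Function.Injective (τ g₀) := fun x y hxy => by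
    have h1 := congrArg (τ g₀⁻¹) hxy
    rwa [ginv', ginv'] at h1
  choose Y hY using fun i => exists_op (ρ i g₀) (ext0 (nuK ν))
  obtain ⟨D, hD⟩ := exists_op (τ g₀) (ext0 (nuK ν))
  have hmem := mem_GG.1 (log_mem h.form (nuK ν) g₀ hY hD)
  have h1 : ext0 (nuK ν) ((χ g₀ : Kˣ) : K) = 1 := by
    rw [ext0_nu, hχ, Rat.cast_one]
  simp only [h1, mul_one] at hmem
  set G : ℕ := ∑ i, finrank K (T i) with hG
  have hex : ∀ i, ∃ g ≤ G + 1, ∃ b : Lt G → T i, ∃ α : Fin (G + 1) → ℚ,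
      SBas (B i) g b ∧ Part (B i) (Y i) (w i : ℚ) g b α := fun i =>
    exists_sbas (halt i) (hnd i) (fun x y => by
      rw [Rat.cast_natCast]
      exact hmem.1 i x y) (span_ev ν (hY i))
      (Finset.single_le_sum (f := fun i => finrank K (T i)) (fun _ _ => Nat.zero_le _)
        (Finset.mem_univ i))
  choose g hg b α hb hp using hex
  obtain ⟨κ, h2, h3⟩ := hf.neg h halt hb
  have hκ : ∀ s, ((κ s : Fin (G + 1)) : ℕ) < g (c s) := by
    intro s
    by_contra hcon
    exact h2 (wd_off hb f _ s (not_lt.1 hcon))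
  -- the slopes of the basis
  have hsl : ∀ s, α (c s) (κ s) ≤ ((w (c s) : ℚ) - δ (c s)) / 2 := by
    intro s
    have e1 : b (c s) (0, κ s) ≠ 0 := by
      intro h0
      have h4 := (hb (c s)).pair (κ s) (hκ s)
      rw [h0, map_zero, LinearMap.zero_apply] at h4
      exact zero_ne_one h4
    obtain ⟨β, x, hx, hxβ, hβ⟩ := exists_ev ν (hinj (c s)) (hY (c s)) e1 ((hp (c s)).eig0 (κ s))
    have h4 := hδ s β x hx hxβ
    have h5 := (hp (c s)).small (κ s)
    rw [hβ, abs_of_nonpos (by linarith)] at h4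
    linarith
  -- the value
  have hval : ∀ u : Fin 2, wd b f (fun s => (u, κ s)) ≠ 0 →
      0 ≤ ∑ s, evl (w (c s) : ℚ) (α (c s)) (u, κ s) - a ∧
        ∑ s, evl (w (c s) : ℚ) (α (c s)) (u, κ s) - a ≤ N := by
    intro u hu
    have h4 := hmem.2 n c a f hf.tate (fun s => b (c s) (u, κ s))
    have h5 : ∀ s, f (update (fun s => b (c s) (u, κ s)) s (Y (c s) (b (c s) (u, κ s)))) =
        ((evl (w (c s) : ℚ) (α (c s)) (u, κ s) : ℚ) : K) • wd b f (fun s => (u, κ s)) := by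
      intro s
      rw [(hp (c s)).eig, f.map_update_smul, update_eq_self]
      rfl
    rw [Finset.sum_congr rfl fun s _ => h5 s, ← Finset.sum_smul] at h4
    have h6 : D (wd b f (fun s => (u, κ s))) =
        ((∑ s, evl (w (c s) : ℚ) (α (c s)) (u, κ s) - a : ℚ) : K) •
          wd b f (fun s => (u, κ s)) := by
      push_cast
      rw [sub_smul, h4]
      simp only [wd]
      rw [add_sub_cancel_right]
    obtain ⟨β, x, hx, hxβ, hβ⟩ := exists_ev ν hinjE hD hu h6
    rw [← hβ]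
    exact hE β x hx hxβ
  have h4 := (hval 0 h2).1
  have h5 := (hval 1 h3).2
  have e0 : ∀ s, evl (w (c s) : ℚ) (α (c s)) (0, κ s) = α (c s) (κ s) := fun s => rfl
  have e1 : ∀ s, evl (w (c s) : ℚ) (α (c s)) (1, κ s) = w (c s) - α (c s) (κ s) := fun s => rfl
  simp only [e0] at h4
  simp only [e1] at h5
  constructor
  · have h6 := Finset.sum_le_sum fun s (_ : s ∈ (univ : Finset (Fin n))) => hsl s
    linarith
  · have h6 : ∑ s, ((w (c s) : ℚ) + δ (c s)) / 2 ≤ ∑ s, ((w (c s) : ℚ) - α (c s) (κ s)) :=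
      Finset.sum_le_sum fun s _ => by
        have := hsl s
        linarith
    linarith

end Pool.Agent.Y132.AF
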