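import Pool.Agent.Y132.AF.Flat
import Pool.Agent.Y132.AF.Slope
import Pool.Agent.Y132.AF.Defs

/-!
# The adjoint representations of a family; words which occur
-/

open CategoryTheory AlgebraicGeometry Finset Function
open Pool.Agent.Y132.EP (DG tow lin lin_apply TateMap cj cj_apply sk sk_irr AdFam isProdVar_unique
  isProdVar_prod)

set_option linter.unusedSectionVars false

universe u v w

namespace Pool.Agent.Y132.AF

open Pool.Agent.H914 Pool.Agent.H914.VarClass Pool.Agent.H914.VarClass.Obj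
  Pool.Agent.H914.WeilCohomology Pool.Agent.H281R3.HT Pool.Agent.W552 Pool.Agent.TH125.Gal

/-- An irreducible adjoint representation has no invariants. -/
theorem no_inv {K : Type} [Field K] [CharZero K] {T : Type} [AddCommGroup T] [Module K T]
    {Γ : Type} [Group Γ] {B : T →ₗ[K] T →ₗ[K] K} {ρ : Γ →* (T →ₗ[K] T)}
    (halt : ∀ x, B x x = 0) (hnd : ∀ x, (∀ y, B x y = 0) → x = 0)
    (hirr : ∀ U ≤ sk B, (∀ g, ∀ A ∈ U, cj ρ g A ∈ U) → U = ⊥ ∨ U = sk B)
    (hne : ∃ x : T, x ≠ 0) {N : T →ₗ[K] T} (hN : N ∈ sk B) (hinv : ∀ g, cj ρ g N = N) :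
    N = 0 := by
  by_contra hN0
  obtain ⟨x, hx⟩ := hne
  obtain ⟨y, hy⟩ : ∃ y, B x y ≠ 0 := by
    by_contra hcon
    push Not at hcon
    exact hx (hnd x hcon)
  have hyx : B y x ≠ 0 := by
    rw [anti halt]
    exact neg_ne_zero.2 hy
  rcases hirr (Submodule.span K {N}) ((Submodule.span_singleton_le_iff_mem N _).2 hN)
    (fun g A hA => by
      obtain ⟨r, rfl⟩ := Submodule.mem_span_singleton.1 hA
      refine Submodule.mem_span_singleton.2 ⟨r, ?_⟩
      rw [Pool.Agent.Y132.EP.cj_smul, hinv]) with h | h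
  · have h1 : N ∈ Submodule.span K {N} := Submodule.mem_span_singleton_self N
    rw [h, Submodule.mem_bot] at h1
    exact hN0 h1
  · have h1 : opA B x x ∈ Submodule.span K {N} := by
      rw [h]
      exact fun u v => opA_skew halt _ _ u v
    have h2 : opA B y y ∈ Submodule.span K {N} := by
      rw [h]
      exact fun u v => opA_skew halt _ _ u v
    obtain ⟨r, hr⟩ := Submodule.mem_span_singleton.1 h1
    obtain ⟨s, hs⟩ := Submodule.mem_span_singleton.1 h2
    have two : (2 : K) ≠ 0 := two_ne_zero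
    have hr0 : r ≠ 0 := by
      rintro rfl
      rw [zero_smul] at hr
      have h3 := congrArg (fun f => B (f y) y) hr
      simp only [LinearMap.zero_apply, map_zero, opA_apply, map_add, map_smul,
        LinearMap.add_apply, LinearMap.smul_apply, smul_eq_mul] at h3
      have h4 : B x y * B x y * 2 = 0 := by linear_combination -h3
      exact (mul_ne_zero (mul_ne_zero hy hy) two) h4
    have h3 : N x = 0 := by
      have h4 := congrArg (fun f => f x) hr
      simp only [LinearMap.smul_apply, opA_apply, halt, zero_smul, add_zero] at h4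
      exact (smul_eq_zero.1 h4).resolve_left hr0
    have h4 := congrArg (fun f => f x) hs
    simp only [LinearMap.smul_apply, h3, smul_zero, opA_apply] at h4
    rw [← two_smul K, smul_smul] at h4
    have h5 := (smul_eq_zero.1 h4.symm).resolve_left (mul_ne_zero two hyx)
    rw [h5, map_zero] at hy
    exact hy rfl

variable {k : Type u} [Field k] {𝒱 : VarClass k} {ops : CycleOps 𝒱}
  {W : WeilCohomology.{u, 0} ops} {Γ : Type} [Group Γ]

section tower

variable {ι : Type} {Λ : Type}

theorem isTower_unique {X : ι → DG W Γ} {Z : DG W Γ} {c : Λ → ι} (l : List Λ) :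
    ∀ {Y : GVar W Γ}, IsTower (fun i => (X i).toGVar) Z.toGVar (l.map c) Y →
      Y = (tow X Z c l).toGVar := by
  induction l with
  | nil =>
    intro Y h
    cases h
    rfl
  | cons s l ih =>
    intro Y h
    cases h with
    | cons _ h1 h2 =>
      have h3 := ih h1
      subst h3
      exact isProdVar_unique h2

theorem isTower_tow (X : ι → DG W Γ) (Z : DG W Γ) (c : Λ → ι) (l : List Λ) :
    IsTower (fun i => (X i).toGVar) Z.toGVar (l.map c) (tow X Z c l).toGVar := by
  induction l with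
  | nil => exact IsTower.nil
  | cons s l ih => exact IsTower.cons _ ih (isProdVar_prod _ _)

end tower

variable {I : Type} {χ : Γ →* W.Kˣ}

/-- The hypotheses. -/
structure Hy (χ : Γ →* W.Kˣ) (X : I → DG W Γ) : Prop where
  gal : ∀ i, IsGalois W χ (X i).X (X i).act
  hom : ∀ i, HomEqNum W (X i).X
  mid : ∀ i, transcendental W (X i).X ≤ W.gr (X i).X (X i).X.dim
  odd : ∀ i, Odd (X i).X.dim
  irr : ∀ i, RelIrr W.K (ConjSkew (W.tr (X i).X) (transcendental W (X i).X) (X i).act) ∨
    (Module.finrank W.K (transcendental W (X i).X) = 2 ∧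
      IrredAct (X i).act (transcendental W (X i).X))
  hyp : ∀ i, HypAct (transcendental W (X i).X) (X i).act
  iso : ∀ i j, i ≠ j → ¬AdIso (X i).toGVar (X j).toGVar

theorem Hy.comp {X : I → DG W Γ} (h : Hy χ X) {I' : Type} (e : I' → I)
    (he : Function.Injective e) : Hy χ (fun i => X (e i)) :=
  ⟨fun i => h.gal (e i), fun i => h.hom (e i), fun i => h.mid (e i), fun i => h.odd (e i),
    fun i => h.irr (e i), fun i => h.hyp (e i), fun _ _ hij => h.iso _ _ (he.ne hij)⟩

variable {X : I → DG W Γ}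

/-- the form on the transcendental cohomology -/
noncomputable abbrev fB (X : I → DG W Γ) (i : I) :
    transcendental W (X i).X →ₗ[W.K] transcendental W (X i).X →ₗ[W.K] W.K :=
  rform W (X i).X (transcendental W (X i).X)

theorem Hy.alt (h : Hy χ X) (i : I) (v : transcendental W (X i).X) : fB X i v v = 0 := by
  have h1 := trans_symm (h.mid i) v.2 v.2
  rw [(h.odd i).neg_one_pow] at h1
  rw [fB, rform_apply]
  have h2 : (2 : W.K) * bil W (X i).X v v = 0 := by linear_combination h1
  exact (mul_eq_zero.1 h2).resolve_left two_ne_zero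

theorem Hy.nd (h : Hy χ X) (i : I) (v : transcendental W (X i).X) (hv : ∀ y, fB X i v y = 0) :
    v = 0 := trans_nondeg (h.hom i) v hv

theorem conj_iff (h : Hy χ X) (i : I) (g : Γ)
    (A A' : skewOps (W.tr (X i).X) (transcendental W (X i).X)) :
    ConjSkew (W.tr (X i).X) (transcendental W (X i).X) (X i).act g A A' ↔
      (A' : transcendental W (X i).X →ₗ[W.K] transcendental W (X i).X) =
        cj (rhoT (h.gal i)) g A := by
  constructor
  · intro h1
    apply LinearMap.ext
    intro t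
    apply Subtype.ext
    refine h1 (rhoT (h.gal i) g⁻¹ t) t ?_
    rw [rhoT_apply]
    exact (act_inv _ g _).symm
  · intro h1 t t' ht
    have h2 : t' = rhoT (h.gal i) g t := Subtype.ext ht
    rw [h1, h2, cj_apply, Pool.Agent.Y132.EP.ginv', rhoT_apply]

theorem Hy.sk_irr [IsAlgClosed W.K] (h : Hy χ X) (i : I)
    (U : Submodule W.K (transcendental W (X i).X →ₗ[W.K] transcendental W (X i).X))
    (hU : U ≤ sk (fB X i)) (hst : ∀ g, ∀ A ∈ U, cj (rhoT (h.gal i)) g A ∈ U) :
    U = ⊥ ∨ U = sk (fB X i) := by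
  rcases h.irr i with h1 | ⟨h1, h2⟩
  · rcases h1 (U.comap (skewOps (W.tr (X i).X) (transcendental W (X i).X)).subtype)
      (fun g A A' hAA hA => by
        have h3 := hst g A.1 hA
        rw [← (conj_iff h i g A A').1 hAA] at h3
        exact h3) with h3 | h3
    · left
      rw [Submodule.eq_bot_iff]
      intro A hA
      have h4 : (⟨A, hU hA⟩ : skewOps (W.tr (X i).X) (transcendental W (X i).X)) ∈
          U.comap (skewOps (W.tr (X i).X) (transcendental W (X i).X)).subtype := hA
      rw [h3, Submodule.mem_bot] at h4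
      exact congrArg Subtype.val h4
    · right
      refine le_antisymm hU fun A hA => ?_
      have h4 : (⟨A, hA⟩ : skewOps (W.tr (X i).X) (transcendental W (X i).X)) ∈
          U.comap (skewOps (W.tr (X i).X) (transcendental W (X i).X)).subtype := by
        rw [h3]
        exact Submodule.mem_top
      exact h4
  · exact Pool.Agent.Y132.EP.sk_irr (σ := rhoT (h.gal i)) (h.alt i) (h.nd i) h1
      (SI_rhoT (P := ⟨(X i).X, 0⟩) (h.gal i) h2) U hU hst

/-- The adjoint representations. -/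
theorem adFam [IsAlgClosed W.K] (h : Hy χ X) : AdFam χ (fun i => (X i).X.dim)
    (fun i => fB X i) (fun i => rhoT (h.gal i)) := by
  refine ⟨fun i g x y => bil_act (h.gal i) g x y, fun i U hU hst => h.sk_irr i U hU hst,
    fun i A hA hst => ?_, fun i j hij hf => ?_, fun i => ?_⟩
  · obtain ⟨F, x, hx, y, hy, hx0, -⟩ := h.hyp i
    exact no_inv (h.alt i) (h.nd i) (fun U hU hst => h.sk_irr i U hU hst)
      ⟨⟨x, hx⟩, fun h => hx0 (congrArg Subtype.val h)⟩ hA hst
  · obtain ⟨f, hf⟩ := hf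
    refine h.iso i j hij ⟨f, fun g A A' hAA => ?_⟩
    exact (conj_iff h j g (f A) (f A')).2 (hf g A A' ((conj_iff h i g A A').1 hAA))
  · obtain ⟨F, x, hx, y, hy, hx0, hy0, a, b, h1, h2, h3⟩ := h.hyp i
    exact ⟨F, ⟨x, hx⟩, ⟨y, hy⟩, fun h => hx0 (congrArg Subtype.val h),
      fun h => hy0 (congrArg Subtype.val h), a, b, Subtype.ext h1, Subtype.ext h2, h3⟩

/-- The word `c` occurs in the degree `m`. -/
def Occ (h : Hy χ X) (Z : DG W Γ) {n : ℕ} (c : Fin n → I) (m j : ℕ) : Prop :=
  m + ∑ s, (X (c s)).X.dim = 2 * j ∧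
    ∃ f : MultilinearMap W.K (fun s => transcendental W (X (c s)).X) (W.H Z.X),
      OccA χ (fun i => fB X i) (fun i => rhoT (h.gal i)) (lin Z.toGVar) (W.gr Z.X m) c
        ((∑ s, ((X (c s)).X.dim : ℤ)) - j) f

/-- restriction of the colours -/
theorem Occ.restrict (h : Hy χ X) {Z : DG W Γ} {n : ℕ} {c : Fin n → I} {m j : ℕ}
    (hO : Occ h Z c m j) (S : Finset I) (hS : ∀ s, c s ∈ S) :
    Occ (h.comp (fun i : S => (i : I)) Subtype.val_injective) Z
      (fun s => (⟨c s, hS s⟩ : S)) m j := by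
  classical
  obtain ⟨h1, f, hf⟩ := hO
  refine ⟨h1, f, ⟨hf.tate, hf.mem, hf.ne, fun p q hpq hc v G g b hb => ?_⟩⟩
  have h2 := hf.tr p q hpq (congrArg Subtype.val hc) v G g
    (fun i => if hi : i ∈ S then b ⟨i, hi⟩ else 0) (by
      beta_reduce
      rw [dif_pos (hS p)]
      exact hb)
  beta_reduce at h2
  rw [dif_pos (hS p), dif_pos (hS q)] at h2
  exact h2

variable [DecidableEq I]

section bounds

variable [IsAlgClosed W.K] {Z : DG W Γ} {n : ℕ} {c : Fin n → I} {m j : ℕ}

theorem exists_bases [Fintype I] (h : Hy χ X) : ∃ (G : ℕ) (g : I → ℕ)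
    (b : ∀ i, Lt G → transcendental W (X i).X), (∀ i, g i ≤ G + 1) ∧
      ∀ i, SBas (fB X i) (g i) (b i) := by
  set G : ℕ := ∑ i, Module.finrank W.K (transcendental W (X i).X) with hG
  have hex : ∀ i, ∃ g ≤ G + 1, ∃ b : Lt G → transcendental W (X i).X, SBas (fB X i) g b :=
    fun i => exists_sbas0 (h.alt i) (h.nd i)
      (Finset.single_le_sum (f := fun i => Module.finrank W.K (transcendental W (X i).X))
        (fun _ _ => Nat.zero_le _) (Finset.mem_univ i))
  choose g hg b hb using hex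
  exact ⟨G, g, b, hg, hb⟩

/-- **The product of the multiplicities.** -/
theorem Occ.prod (h : Hy χ X) (hO : Occ h Z c m j) :
    ∏ i ∈ univ.image c, ((univ.filter fun s => c s = i).card + 1) ≤
      Module.finrank W.K (W.gr Z.X m) := by
  have hS : ∀ s, c s ∈ univ.image c := fun s => Finset.mem_image_of_mem _ (Finset.mem_univ s)
  obtain ⟨-, f, hf⟩ := hO.restrict h (univ.image c) hS
  have hX := h.comp (fun i : (univ.image c : Finset I) => (i : I)) Subtype.val_injective
  obtain ⟨G, g, b, -, hb⟩ := exists_bases hX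
  have h1 := hf.prod (adFam hX) hX.alt hb
  refine le_trans (le_of_eq ?_) h1
  rw [← Finset.prod_coe_sort (univ.image c) fun i => (univ.filter fun s => c s = i).card + 1]
  refine Finset.prod_congr rfl fun i _ => ?_
  congr 2
  ext s
  simp only [Finset.mem_filter, Finset.mem_univ, true_and]
  exact ⟨fun h => Subtype.ext h, fun h => congrArg Subtype.val h⟩

/-- **The sum of the ranks.** -/
theorem Occ.ranks (h : Hy χ X) (hO : Occ h Z c m j) :
    ∑ i ∈ univ.image c, Module.finrank W.K (transcendental W (X i).X) ≤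
      Module.finrank W.K (W.gr Z.X m) := by
  have hS : ∀ s, c s ∈ univ.image c := fun s => Finset.mem_image_of_mem _ (Finset.mem_univ s)
  obtain ⟨-, f, hf⟩ := hO.restrict h (univ.image c) hS
  have hX := h.comp (fun i : (univ.image c : Finset I) => (i : I)) Subtype.val_injective
  obtain ⟨G, g, b, hg, hb⟩ := exists_bases hX
  have h1 := ranks_le (adFam hX) hX.alt hg hb (τ := lin Z.toGVar) (U := W.gr Z.X m)
    (fun i => by
      obtain ⟨i, hi⟩ := i
      obtain ⟨s, -, hs⟩ := Finset.mem_image.1 hi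
      exact ⟨n, _, _, f, hf, s, Subtype.ext hs⟩)
  refine le_trans (le_of_eq ?_) h1
  exact (Finset.sum_coe_sort (univ.image c)
    fun i => Module.finrank W.K (transcendental W (X i).X)).symm

/-- **The slopes.** -/
theorem Occ.slopes (h : Hy χ X) (hO : Occ h Z c m j) {ν : Val W.K} {g : Γ} {δ : I → ℚ}
    (hχ : val ν (χ g) = 1) (hZ : SlopesBounded ν g Z.toGVar)
    (hδ : ∀ s, SlopeGap ν g (X (c s)).toGVar (δ (c s))) :
    ∑ s, δ (c s) ≤ m ∧ m + ∑ s, δ (c s) ≤ 2 * Z.X.dim := by
  have hS : ∀ s, c s ∈ univ.image c := fun s => Finset.mem_image_of_mem _ (Finset.mem_univ s)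
  obtain ⟨hdeg, f, hf⟩ := hO.restrict h (univ.image c) hS
  have hX := h.comp (fun i : (univ.image c : Finset I) => (i : I)) Subtype.val_injective
  have hZ' : ∀ (β : W.Kˣ) (z : W.H Z.X), z ≠ 0 → lin Z.toGVar g z = (β : W.K) • z →
      0 ≤ ν (Additive.ofMul β) ∧ ν (Additive.ofMul β) ≤ (Z.X.dim : ℚ) :=
    fun β z hz hβ => hZ β z hz hβ
  have hδ' : ∀ s, ∀ (β : W.Kˣ) (x : transcendental W (X (c s)).X), x ≠ 0 →
      rhoT (h.gal (c s)) g x = (β : W.K) • x →
        δ (c s) ≤ |2 * ν (Additive.ofMul β) - ((X (c s)).X.dim : ℕ)| := fun s β x hx hβ =>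
    hδ s β x x.2 (fun h => hx (Subtype.ext h)) (congrArg Subtype.val hβ)
  have h1 := OccA.slopes (w := fun i : (univ.image c : Finset I) => (X i).X.dim) (adFam hX)
    hX.alt hX.nd (ν := ν) (g₀ := g) hχ (N := (Z.X.dim : ℚ)) hZ'
    (δ := fun i : (univ.image c : Finset I) => δ i) hδ' hf
  have h2 : (m : ℚ) + ∑ s, ((X (c s)).X.dim : ℚ) = 2 * j := by exact_mod_cast hdeg
  obtain ⟨h3, h4⟩ := h1
  have e1 : ∑ s, (((X (c s)).X.dim : ℚ) - δ (c s)) / 2 =
      (∑ s, ((X (c s)).X.dim : ℚ) - ∑ s, δ (c s)) / 2 := by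
    rw [← Finset.sum_div, Finset.sum_sub_distrib]
  have e2 : ∑ s, (((X (c s)).X.dim : ℚ) + δ (c s)) / 2 =
      (∑ s, ((X (c s)).X.dim : ℚ) + ∑ s, δ (c s)) / 2 := by
    rw [← Finset.sum_div, Finset.sum_add_distrib]
  rw [e1] at h3
  rw [e2] at h4
  push_cast at h3 h4
  constructor <;> linarith

/-- **The ranks of the varieties whose indices occur.** -/
theorem colour_bound (h : Hy χ X) (Z : DG W Γ) (S₀ : Finset I)
    (hocc : ∀ i ∈ S₀, ∃ (n : ℕ) (c : Fin n → I) (m j : ℕ), Occ h Z c m j ∧ ∃ s, c s = i) :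
    ∑ i ∈ S₀, Module.finrank W.K (transcendental W (X i).X) ≤
      Module.finrank W.K (W.H Z.X) := by
  choose n c m j hO s hs using hocc
  let S : Finset I := S₀.attach.biUnion fun i => univ.image (c i.1 i.2)
  have hS : ∀ (i : I) (hi : i ∈ S₀) (t : Fin (n i hi)), c i hi t ∈ S := by
    intro i hi t
    rw [Finset.mem_biUnion]
    exact ⟨⟨i, hi⟩, Finset.mem_attach _ _, Finset.mem_image_of_mem _ (Finset.mem_univ t)⟩
  have hsub : S₀ ⊆ S := by
    intro i hi
    have h1 := hS i hi (s i hi)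
    rwa [hs] at h1
  have hX := h.comp (fun i : S => (i : I)) Subtype.val_injective
  obtain ⟨G, g, b, hg, hb⟩ := exists_bases hX
  have h1 := ranks_le (adFam hX) hX.alt hg hb (τ := lin Z.toGVar) (U := ⊤) (fun i => by
    obtain ⟨⟨i₀, hi₀⟩, -, h2⟩ := Finset.mem_biUnion.1 i.2
    obtain ⟨t, -, ht⟩ := Finset.mem_image.1 h2
    obtain ⟨-, f, hf⟩ := (hO i₀ hi₀).restrict h S (hS i₀ hi₀)
    exact ⟨n i₀ hi₀, _, _, f, ⟨hf.tate, fun _ => Submodule.mem_top, hf.ne, hf.tr⟩, t,
      Subtype.ext ht⟩)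
  rw [finrank_top] at h1
  refine (Finset.sum_le_sum_of_subset hsub).trans (le_trans (le_of_eq ?_) h1)
  exact (Finset.sum_coe_sort S fun i => Module.finrank W.K (transcendental W (X i).X)).symm

/-- The indices which occur. -/
theorem exists_B (h : Hy χ X) (Z : DG W Γ) : ∃ B : Finset I,
    ∑ i ∈ B, Module.finrank W.K (transcendental W (X i).X) ≤ Module.finrank W.K (W.H Z.X) ∧
      ∀ (n : ℕ) (c : Fin n → I) (m j : ℕ), Occ h Z c m j → ∀ s, c s ∈ B := by
  let P : Set I := {i | ∃ (n : ℕ) (c : Fin n → I) (m j : ℕ), Occ h Z c m j ∧ ∃ s, c s = i}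
  have hpos : ∀ i, 1 ≤ Module.finrank W.K (transcendental W (X i).X) := by
    intro i
    obtain ⟨F, x, hx, y, hy, hx0, -⟩ := h.hyp i
    have : Nontrivial (transcendental W (X i).X) :=
      ⟨⟨⟨x, hx⟩, 0, fun h => hx0 (congrArg Subtype.val h)⟩⟩
    exact Module.finrank_pos
  have hfin : P.Finite := by
    by_contra hinf
    obtain ⟨t, ht, hcard⟩ := (Set.not_finite.1 hinf).exists_subset_card_eq
      (Module.finrank W.K (W.H Z.X) + 1)
    have h1 := colour_bound h Z t fun i hi => ht hi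
    have h2 := Finset.card_nsmul_le_sum t
      (fun i => Module.finrank W.K (transcendental W (X i).X)) 1 fun i _ => hpos i
    rw [smul_eq_mul, mul_one] at h2
    omega
  refine ⟨hfin.toFinset, colour_bound h Z _ fun i hi => ?_, fun n c m j h s => ?_⟩
  · exact hfin.mem_toFinset.1 hi
  · exact hfin.mem_toFinset.2 ⟨n, c, m, j, h, s, rfl⟩

end bounds

end Pool.Agent.Y132.AF
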