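import Pool.Agent.Y132.EP.Mul
import Pool.Agent.Y132.AF.Asm4
import Pool.Agent.Y132.AF.Ops

/-!
# Words over initial segments of the integers
-/

open CategoryTheory AlgebraicGeometry Finset Function
open Pool.Agent.Y132.EP (DG tow get_inj lin lin_apply TateMap)

set_option linter.unusedSectionVars false

universe u v w

namespace Pool.Agent.Y132.AF

open Pool.Agent.H914 Pool.Agent.H914.VarClass Pool.Agent.H914.VarClass.Obj
  Pool.Agent.H914.WeilCohomology Pool.Agent.H281R3.HT Pool.Agent.W552 Pool.Agent.TH125.Gal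

section words

variable {κ : ℕ} {K : Type*} [Field K] {E : Type*} [AddCommGroup E] [Module K E] {Λ : Type}
  [DecidableEq Λ]

theorem extend_cons {t : Λ} {l : List Λ} (hl : (t :: l).Nodup) (b : Lt κ)
    (J' : Fin l.length → Lt κ) (K' : Λ → Lt κ) :
    extend l.get J' (update K' t b) = extend (t :: l).get (Fin.cons b J') K' := by
  have h1 := get_inj hl
  have h2 := get_inj (List.nodup_cons.1 hl).2
  have ht := (List.nodup_cons.1 hl).1
  funext x
  by_cases hx : ∃ i, l.get i = x
  · obtain ⟨i, rfl⟩ := hx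
    rw [h2.extend_apply]
    have h3 : l.get i = (t :: l).get i.succ := rfl
    rw [h3, h1.extend_apply]
    rfl
  · rw [extend_apply' _ _ _ hx]
    by_cases hxt : x = t
    · rw [hxt, update_self]
      exact (h1.extend_apply (Fin.cons b J' : Fin (l.length + 1) → Lt κ) K' 0).symm
    · rw [update_of_ne hxt, extend_apply']
      rintro ⟨i, hi⟩
      refine Fin.cases (fun h => hxt h.symm) (fun i h => hx ⟨i, h⟩) i hi

/-- The action of matrices, as a sum over all words. -/
theorem SL_eq (N : Λ → Lt κ → Lt κ → K) (l : List Λ) (hl : l.Nodup) (G : (Λ → Lt κ) → E)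
    (K' : Λ → Lt κ) : SL N l G K' = ∑ J' : Fin l.length → Lt κ,
      (∏ s, N (l.get s) (K' (l.get s)) (J' s)) • G (extend l.get J' K') := by
  induction l generalizing K' with
  | nil =>
    rw [SL]
    have h1 : (univ : Finset (Fin ([] : List Λ).length → Lt κ)) = {Fin.elim0} := by
      ext J'
      simp only [Finset.mem_univ, Finset.mem_singleton, true_iff]
      funext i
      exact i.elim0
    rw [h1, Finset.sum_singleton]
    have h2 : (univ : Finset (Fin ([] : List Λ).length)) = ∅ := by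
      ext i
      exact i.elim0
    rw [h2, Finset.prod_empty, one_smul]
    congr 1
    funext x
    rw [extend_apply']
    rintro ⟨i, _⟩
    exact i.elim0
  | cons t l ih =>
    have hl' := (List.nodup_cons.1 hl).2
    have ht := (List.nodup_cons.1 hl).1
    rw [SL, Sp]
    have h1 := Fintype.sum_equiv (Fin.consEquiv fun _ : Fin (l.length + 1) => Lt κ)
      (fun y : Lt κ × (Fin l.length → Lt κ) => N t (K' t) y.1 •
        ((∏ s, N (l.get s) (K' (l.get s)) (y.2 s)) • G (extend l.get y.2 (update K' t y.1))))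
      (fun J' : Fin (t :: l).length → Lt κ => (∏ s, N ((t :: l).get s) (K' ((t :: l).get s))
        (J' s)) • G (extend (t :: l).get J' K'))
      (fun y => by
        rw [extend_cons hl, smul_smul]
        congr 1
        exact (Fin.prod_univ_succ (n := l.length) fun s => N ((t :: l).get s)
          (K' ((t :: l).get s)) ((Fin.cons y.1 y.2 : Fin (l.length + 1) → Lt κ) s)).symm)
    refine Eq.trans ?_ h1
    rw [Fintype.sum_prod_type (f := fun y : Lt κ × (Fin l.length → Lt κ) => N t (K' t) y.1 •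
      ((∏ s, N (l.get s) (K' (l.get s)) (y.2 s)) • G (extend l.get y.2 (update K' t y.1))))]
    refine Finset.sum_congr rfl fun b _ => ?_
    rw [ih hl', Finset.smul_sum]
    refine Finset.sum_congr rfl fun J' _ => ?_
    congr 2
    refine Finset.prod_congr rfl fun s _ => ?_
    rw [update_of_ne]
    rintro h
    exact ht (h ▸ List.get_mem l s)

theorem extend_agree {l : List Λ} (hl : l.Nodup) (J : Fin l.length → Lt κ) (K' K'' : Λ → Lt κ)
    (s : Λ) (hs : s ∈ l) : extend l.get J K' s = extend l.get J K'' s := by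
  obtain ⟨i, rfl⟩ := List.get_of_mem hs
  rw [(get_inj hl).extend_apply, (get_inj hl).extend_apply]

theorem extend_update {l : List Λ} (hl : l.Nodup) (J : Fin l.length → Lt κ) (K' : Λ → Lt κ)
    (p : Fin l.length) (r : Lt κ) : extend l.get (update J p r) K' =
      update (extend l.get J K') (l.get p) r := by
  have h1 := get_inj hl
  funext x
  by_cases hx : ∃ i, l.get i = x
  · obtain ⟨i, rfl⟩ := hx
    rw [h1.extend_apply]
    by_cases hi : i = p
    · rw [hi, update_self, update_self]
    · rw [update_of_ne hi, update_of_ne fun h => hi (h1 h), h1.extend_apply]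
  · rw [extend_apply' _ _ _ hx, update_of_ne, extend_apply' _ _ _ hx]
    rintro rfl
    exact hx ⟨p, rfl⟩

end words

variable {κ : ℕ} {k : Type u} [Field k] {𝒱 : VarClass k} {ops : CycleOps 𝒱}
  {W : WeilCohomology.{u, 0} ops} {Γ : Type} [Group Γ] {ι : Type}

/-- The function `F` on words of length `n` has values in degree `m` and is multiplied by the `j`-th
power of the character. -/
structure FT (χ : Γ →* W.Kˣ) (X : ι → DG W Γ) (f : ∀ i, SFrame κ (X i).X W) (Z : DG W Γ) {n : ℕ}
    (c : Fin n → ι) (m j : ℕ) (F : (Fin n → Lt κ) → W.H Z.X) : Prop where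
  gr : ∀ J, F J ∈ W.gr Z.X m
  deg : m + ∑ s, (X (c s)).X.dim = 2 * j
  off : ∀ J s, (f (c s)).g ≤ ((J s).2 : ℕ) → F J = 0
  act : ∃ Δ : Subgroup Γ, Δ.FiniteIndex ∧ ∀ g ∈ Δ, ∀ J, ∑ J' : Fin n → Lt κ,
    (∏ s, Nm X c f g s (J s) (J' s)) • Z.act g (F J') = (χ g : W.K) ^ j • F J

variable {χ : Γ →* W.Kˣ} {X : ι → DG W Γ} {f : ∀ i, SFrame κ (X i).X W} {Z : DG W Γ}

theorem IsT.flat {Λ : Type} [DecidableEq Λ] {c : Λ → ι} {l : List Λ} (hl : l.Nodup) {m j : ℕ}
    {F : (Λ → Lt κ) → W.H Z.X} (hF : IsT χ X c f Z l m j F) (hF0 : F ≠ 0)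
    (htr : ∀ p ∈ l, ∀ q ∈ l, p ≠ q → c p = c q → ∀ J, cw p q F J = 0) :
    ∃ F' : (Fin l.length → Lt κ) → W.H Z.X, FT χ X f Z (fun s => c (l.get s)) m j F' ∧
      (∃ J, F' J ≠ 0) ∧ ∀ p q, p ≠ q → c (l.get p) = c (l.get q) → ∀ J, ctw p q F' J = 0 := by
  have h1 := get_inj hl
  refine ⟨fun J => F (extend l.get J fun _ => 0), ⟨fun J => hF.gr _, ?_, ?_, ?_⟩, ?_, ?_⟩
  · rw [← hF.deg]
    congr 1
    rw [dsum, ← List.sum_ofFn]
    congr 1
    conv_rhs => rw [← List.ofFn_get l]
    rw [List.map_ofFn]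
    rfl
  · intro J s hs
    refine hF.off hl (List.get_mem l s) ?_
    rw [h1.extend_apply]
    exact hs
  · obtain ⟨Δ, hΔ, hact⟩ := hF.act
    refine ⟨Δ, hΔ, fun g hg J => ?_⟩
    have h2 := congrFun (hact g hg) (extend l.get J fun _ => 0)
    rw [SL_eq _ l hl, Pi.smul_apply] at h2
    rw [← h2]
    refine Finset.sum_congr rfl fun J' _ => ?_
    congr 1
    · refine Finset.prod_congr rfl fun s _ => ?_
      rw [h1.extend_apply]
      rfl
    · congr 1
      exact hF.dep _ _ fun s hs => extend_agree hl J' _ _ s hs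
  · obtain ⟨J, hJ⟩ := Function.ne_iff.1 hF0
    refine ⟨fun s => J (l.get s), ?_⟩
    have h2 : F (extend l.get (fun s => J (l.get s)) fun _ => 0) = F J := by
      refine hF.dep _ _ fun s hs => ?_
      obtain ⟨i, rfl⟩ := List.get_of_mem hs
      rw [h1.extend_apply]
    change F (extend l.get (fun s => J (l.get s)) fun _ => 0) ≠ 0
    rw [h2]
    exact hJ
  · intro p q hpq hc J
    have h2 := htr _ (List.get_mem l p) _ (List.get_mem l q) (fun h => hpq (h1 h)) hc
      (extend l.get J fun _ => 0)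
    rw [← h2, ctw, cw]
    refine Finset.sum_congr rfl fun r _ => ?_
    rw [extend_update hl, extend_update hl]

variable {n : ℕ} {c : Fin n → ι} {m j : ℕ} {F : (Fin n → Lt κ) → W.H Z.X}

/-- The multilinear map. -/
noncomputable def hmul (X : ι → DG W Γ) (f : ∀ i, SFrame κ (X i).X W) (Z : DG W Γ) {n : ℕ}
    (c : Fin n → ι) (F : (Fin n → Lt κ) → W.H Z.X) :
    MultilinearMap W.K (fun s => transcendental W (X (c s)).X) (W.H Z.X) :=
  ∑ J : Fin n → Lt κ, ((MultilinearMap.mkPiAlgebra W.K (Fin n) W.K).compLinearMap fun s =>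
    ((bil W (X (c s)).X).flip ((f (c s)).t (J s))) ∘ₗ
      (transcendental W (X (c s)).X).subtype).smulRight (F J)

theorem hmul_apply (v : ∀ s, transcendental W (X (c s)).X) : hmul X f Z c F v =
    ∑ J : Fin n → Lt κ, (∏ s, bil W (X (c s)).X (v s) ((f (c s)).t (J s))) • F J := by
  rw [hmul, _root_.sum_apply]
  refine Finset.sum_congr rfl fun J _ => ?_
  rw [MultilinearMap.smulRight_apply, MultilinearMap.compLinearMap_apply,
    MultilinearMap.mkPiAlgebra_apply]
  rfl

/-- **Semi-equivariance.** -/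
theorem hmul_tate (hG : ∀ i, IsGalois W χ (X i).X (X i).act) (hF : FT χ X f Z c m j F) :
    TateMap χ (fun i => rhoT (hG i)) (lin Z.toGVar) c
      ((∑ s, ((X (c s)).X.dim : ℤ)) - j) (hmul X f Z c F) := by
  obtain ⟨Δ, hΔ, hact⟩ := hF.act
  refine ⟨Δ, hΔ, fun g hg v => ?_⟩
  have hχ : (χ g : W.K) ≠ 0 := Units.ne_zero _
  have h1 : (χ g : W.K) ^ j • hmul X f Z c F (fun s => rhoT (hG (c s)) g (v s)) =
      (∏ s, (χ g : W.K) ^ (X (c s)).X.dim) • Z.act g (hmul X f Z c F v) := by
    rw [hmul_apply, hmul_apply, Finset.smul_sum, map_sum, Finset.smul_sum]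
    have e1 : ∀ J : Fin n → Lt κ, (χ g : W.K) ^ j • (∏ s, bil W (X (c s)).X
        (rhoT (hG (c s)) g (v s) : transcendental W (X (c s)).X) ((f (c s)).t (J s))) • F J =
        ∑ J' : Fin n → Lt κ, (∏ s, bil W (X (c s)).X
          (rhoT (hG (c s)) g (v s) : transcendental W (X (c s)).X) ((f (c s)).t (J s)) *
            Nm X c f g s (J s) (J' s)) • Z.act g (F J') := by
      intro J
      rw [smul_comm, ← hact g hg J, Finset.smul_sum]
      refine Finset.sum_congr rfl fun J' _ => ?_
      rw [smul_smul, ← Finset.prod_mul_distrib]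
    rw [Finset.sum_congr rfl fun J _ => e1 J, Finset.sum_comm]
    refine Finset.sum_congr rfl fun J' _ => ?_
    rw [← Finset.sum_smul, map_smul, smul_smul]
    congr 1
    have e2 := Fintype.prod_sum (fun (s : Fin n) (a : Lt κ) => bil W (X (c s)).X
      (rhoT (hG (c s)) g (v s) : transcendental W (X (c s)).X) ((f (c s)).t a) *
        Nm X c f g s a (J' s))
    rw [← e2, ← Finset.prod_mul_distrib]
    refine Finset.prod_congr rfl fun s _ => ?_
    rw [← bil_act (hG (c s)) g]
    conv_rhs => rw [(f (c s)).expand_t (act_trans (hG (c s)) g ((f (c s)).t_mem (J' s)))]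
    rw [map_sum]
    refine Finset.sum_congr rfl fun a _ => ?_
    rw [map_smul, smul_eq_mul, mul_comm]
    rfl
  rw [Finset.prod_pow_eq_pow_sum] at h1
  rw [lin_apply]
  apply smul_right_injective _ (pow_ne_zero j hχ)
  beta_reduce
  rw [h1, smul_smul]
  congr 1
  rw [Units.val_zpow_eq_zpow_val, ← zpow_natCast, ← zpow_natCast, ← zpow_add₀ hχ]
  congr 1
  push_cast
  ring

theorem hmul_u (hF : FT χ X f Z c m j F) (J : Fin n → Lt κ) :
    hmul X f Z c F (fun s => ⟨(f (c s)).u (J s), (f (c s)).u_mem (J s)⟩) = F J := by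
  rw [hmul_apply, Finset.sum_eq_single J]
  · by_cases hJ : ∃ s, (f (c s)).g ≤ ((J s).2 : ℕ)
    · obtain ⟨s, hs⟩ := hJ
      rw [hF.off J s hs, smul_zero]
    · push Not at hJ
      rw [Finset.prod_eq_one, one_smul]
      intro s _
      rw [SFrame.u_t, if_pos ⟨rfl, hJ s⟩]
  · intro J' _ hJ
    obtain ⟨s, hs⟩ := Function.ne_iff.1 hJ
    rw [Finset.prod_eq_zero (Finset.mem_univ s), zero_smul]
    rw [SFrame.u_t, if_neg fun h => hs h.1]
  · intro h
    exact absurd (Finset.mem_univ _) h

theorem hmul_ne (hF : FT χ X f Z c m j F) (hne : ∃ J, F J ≠ 0) : hmul X f Z c F ≠ 0 := by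
  obtain ⟨J, hJ⟩ := hne
  intro h0
  apply hJ
  rw [← hmul_u hF J, h0]
  rfl

theorem canon_pair {i i' : ι} (hi : i = i') {G g : ℕ}
    {b : ∀ i, Lt G → transcendental W (X i).X}
    (hb : SBas (rform W (X i).X (transcendental W (X i).X)) g (b i)) (x y : Lt κ) :
    ∑ r, (sg r : W.K) * (bil W (X i).X (b i r) ((f i).t x) *
      bil W (X i').X (b i' (bar r)) ((f i').t y)) = (omz (f i).g x y : W.K) := by
  subst hi
  have h1 := hb.canon (f i).alt ⟨(f i).t x, (f i).t_mem x⟩ ⟨(f i).t y, (f i).t_mem y⟩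
  rw [← (f i).bil_t]
  exact h1

/-- **The contractions of the multilinear map.** -/
theorem hmul_tr (hF : FT χ X f Z c m j F)
    (htr : ∀ p q, p ≠ q → c p = c q → ∀ J, ctw p q F J = 0) :
    Tr (fun i => rform W (X i).X (transcendental W (X i).X)) (hmul X f Z c F) := by
  intro p q hpq hc v G g b hb
  set M : (Fin n → Lt κ) → W.K := fun J => ∏ s ∈ (univ.erase p).erase q,
    bil W (X (c s)).X (v s) ((f (c s)).t (J s)) with hM
  have h1 : ∀ r, hmul X f Z c F (update (update v p (b (c p) r)) q (b (c q) (bar r))) =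
      ∑ J : Fin n → Lt κ, ((bil W (X (c p)).X (b (c p) r) ((f (c p)).t (J p)) *
        bil W (X (c q)).X (b (c q) (bar r)) ((f (c q)).t (J q))) * M J) • F J := by
    intro r
    rw [hmul_apply]
    refine Finset.sum_congr rfl fun J _ => ?_
    congr 1
    rw [← Finset.mul_prod_erase univ _ (Finset.mem_univ p),
      ← Finset.mul_prod_erase (univ.erase p) _ (Finset.mem_erase.2 ⟨hpq.symm, Finset.mem_univ q⟩),
      update_self, update_of_ne hpq, update_self, ← mul_assoc]
    congr 1
    refine Finset.prod_congr rfl fun s hs => ?_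
    rw [Finset.mem_erase, Finset.mem_erase] at hs
    rw [update_of_ne hs.1, update_of_ne hs.2.1]
  have h2 : ∑ r, sg r • hmul X f Z c F (update (update v p (b (c p) r)) q (b (c q) (bar r))) =
      ∑ J : Fin n → Lt κ, (omz (f (c p)).g (J p) (J q)) • (M J • F J) := by
    have e1 : ∀ r, sg r • hmul X f Z c F (update (update v p (b (c p) r)) q (b (c q) (bar r))) =
        ∑ J : Fin n → Lt κ, ((sg r : W.K) * (bil W (X (c p)).X (b (c p) r) ((f (c p)).t (J p)) *
        bil W (X (c q)).X (b (c q) (bar r)) ((f (c q)).t (J q)))) • (M J • F J) := by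
      intro r
      rw [h1, ← Int.cast_smul_eq_zsmul W.K, Finset.smul_sum]
      refine Finset.sum_congr rfl fun J _ => ?_
      rw [smul_smul, smul_smul]
      congr 1
      ring
    rw [Finset.sum_congr rfl fun r _ => e1 r, Finset.sum_comm]
    refine Finset.sum_congr rfl fun J _ => ?_
    rw [← Finset.sum_smul, canon_pair hc hb, Int.cast_smul_eq_zsmul]
  rw [h2]
  have h3 := sum_update2 (R := Lt κ) p q (fun J : Fin n → Lt κ =>
    (omz (f (c p)).g (J p) (J q)) • (M J • F J))
  have h4 : ∀ J : Fin n → Lt κ, ∑ a, ∑ a', (omz (f (c p)).g (update (update J p a) q a' p)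
      (update (update J p a) q a' q)) • (M (update (update J p a) q a') •
        F (update (update J p a) q a')) = 0 := by
    intro J
    have e1 : ∀ a a', M (update (update J p a) q a') = M J := by
      intro a a'
      refine Finset.prod_congr rfl fun s hs => ?_
      rw [Finset.mem_erase, Finset.mem_erase] at hs
      rw [update_of_ne hs.1, update_of_ne hs.2.1]
    simp only [e1, update_self, update_of_ne hpq]
    rw [sum_omz (f (c p)).g (fun a a' => M J • F (update (update J p a) q a'))]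
    · have e2 := htr p q hpq hc J
      rw [ctw] at e2
      have e3 := congrArg (fun x => M J • x) e2
      simp only [Finset.smul_sum, smul_zero] at e3
      refine Eq.trans (Finset.sum_congr rfl fun r _ => ?_) e3
      exact smul_comm _ _ _
    · intro a a' ha
      rw [hF.off (update (update J p a) q a') p (by
        rw [update_of_ne hpq, update_self]
        exact ha), smul_zero]
  rw [Finset.sum_congr rfl fun J _ => h4 J, Finset.sum_const_zero] at h3
  have h5 : (Fintype.card (Lt κ) : W.K) ≠ 0 := by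
    rw [Nat.cast_ne_zero]
    exact Fintype.card_ne_zero
  have h6 := h3.symm
  rw [← Nat.cast_smul_eq_nsmul W.K, ← Nat.cast_smul_eq_nsmul W.K] at h6
  exact (smul_eq_zero.1 ((smul_eq_zero.1 h6).resolve_left h5)).resolve_left h5

end Pool.Agent.Y132.AF
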