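import Pool.Agent.Y132.AF.Fam
import Pool.Agent.Y132.EP.Conv

/-!
# The Tate conjecture for products with powers: finitely many cases suffice
-/

open CategoryTheory AlgebraicGeometry Finset Function
open Pool.Agent.Y132.EP (DG tow lin lin_apply TateMap tate_sublist get_inj)

set_option linter.unusedSectionVars false

universe u v w

namespace Pool.Agent.Y132.AF

open Pool.Agent.H914 Pool.Agent.H914.VarClass Pool.Agent.H914.VarClass.Obj
  Pool.Agent.H914.WeilCohomology Pool.Agent.H281R3.HT Pool.Agent.W552 Pool.Agent.TH125.Gal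

theorem ofFn_count {ι : Type} [DecidableEq ι] (i : ι) : ∀ {n : ℕ} (c : Fin n → ι),
    (List.ofFn c).count i = (univ.filter fun s => c s = i).card := by
  intro n
  induction n with
  | zero =>
    intro c
    simp
  | succ n ih =>
    intro c
    rw [List.ofFn_succ, List.count_cons, ih, Fin.card_filter_univ_succ]
    by_cases h : c 0 = i
    · rw [if_pos h, if_pos (by simpa using h)]
    · rw [if_neg h, if_neg (by simpa using h), add_zero]

theorem ofFn_toFinset {ι : Type} [DecidableEq ι] {n : ℕ} (c : Fin n → ι) :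
    (List.ofFn c).toFinset = univ.image c := by
  ext i
  rw [List.mem_toFinset, List.mem_ofFn, Finset.mem_image]
  simp

theorem map_get {ι Λ : Type} (c : Λ → ι) (l : List Λ) :
    l.map c = List.ofFn fun s => c (l.get s) := by
  conv_lhs => rw [← List.ofFn_get l]
  rw [List.map_ofFn]
  rfl

variable {k : Type u} [Field k] {𝒱 : VarClass k} {ops : CycleOps 𝒱}
  {W : WeilCohomology.{u, 0} ops} {Γ : Type} [Group Γ] {ι : Type} {χ : Γ →* W.Kˣ}

section

variable {X : ι → DG W Γ} {Z : DG W Γ}

/-- The lists over which there are nonzero traceless maps are small. -/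
theorem Occ.small [IsAlgClosed W.K] [DecidableEq ι] (h : Hy χ X) {B : Finset ι}
    (hB : ∀ (n : ℕ) (c : Fin n → ι) (m j : ℕ), Occ h Z c m j → ∀ s, c s ∈ B)
    {n : ℕ} {c : Fin n → ι} {m j : ℕ} (hO : Occ h Z c m j) :
    SmallList χ (fun i => (X i).toGVar) Z.toGVar B (List.ofFn c) := by
  have hsum : sumDim (fun i => (X i).toGVar) (List.ofFn c) = ∑ s, (X (c s)).X.dim := by
    rw [sumDim, List.map_ofFn, List.sum_ofFn]
    rfl
  refine ⟨fun i hi => ?_, ⟨m, ?_, ?_, ?_, fun ν g δ hχ hZ hδ => ?_⟩⟩
  · obtain ⟨s, rfl⟩ := List.mem_ofFn.1 hi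
    exact hB n c m j hO s
  · rw [hsum, hO.1]
    exact even_two_mul j
  · have h1 := hO.prod h
    rw [ofFn_toFinset]
    refine le_trans (le_of_eq ?_) h1
    refine Finset.prod_congr rfl fun i _ => ?_
    rw [ofFn_count]
  · have h1 := hO.ranks h
    rw [ofFn_toFinset]
    exact h1
  · have h1 := hO.slopes h (δ := δ) hχ hZ fun s => hδ _ (List.mem_ofFn.2 ⟨s, rfl⟩)
    rw [List.map_ofFn, List.sum_ofFn]
    exact h1

/-- extension of the colours -/
theorem Occ.unrestrict (h : Hy χ X) (S : Finset ι) {n : ℕ} {c : Fin n → S} {m j : ℕ}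
    (hO : Occ (h.comp (fun i : S => (i : ι)) Subtype.val_injective) Z c m j) :
    Occ h Z (fun s => (c s : ι)) m j := by
  obtain ⟨h1, f, hf⟩ := hO
  refine ⟨h1, f, ⟨hf.tate, hf.mem, hf.ne, fun p q hpq hc v G g b hb => ?_⟩⟩
  exact hf.tr p q hpq (Subtype.ext hc) v G g (fun i => b i) hb

/-- From Tate functions to multilinear maps. -/
theorem exists_occ [IsAlgClosed W.K] (h : Hy χ X) {κ : ℕ} {f : ∀ i, SFrame κ (X i).X W}
    {n : ℕ} {c : Fin n → ι} {l : List (Fin n)} (hl : l.Nodup)
    (hS : ∀ p ∈ l, ∀ q ∈ l, p ≠ q → St χ X c f Z ((l.erase p).erase q)) {m j : ℕ}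
    {F : (Fin n → Lt κ) → W.H Z.X} (hF : IsT χ X c f Z l m j F)
    (hna : asm X c f Z l F ∉ algSpan W (tow X Z c l).X) :
    ∃ m j, Occ h Z (fun s => c (l.get s)) m j := by
  obtain ⟨F', hF', hne, htr⟩ := exists_tr h.gal h.mid h.hom hl hS hF hna
  obtain ⟨F₂, h1, h2, h3⟩ := hF'.flat hl hne fun p hp q hq hpq hc J => htr p hp q hq hpq hc J
  exact ⟨m, j, h1.deg, hmul X f Z _ F₂, ⟨hmul_tate h.gal h1, fun v => by
    rw [hmul_apply]
    exact Submodule.sum_mem _ fun J _ => Submodule.smul_mem _ _ (h1.gr J),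
    hmul_ne h1 h2, hmul_tr h1 h3⟩⟩

theorem tow_comp (X : ι → DG W Γ) (Z : DG W Γ) {Λ : Type} (S : Finset ι) (c : Λ → S)
    (l : List Λ) : tow (fun i : S => X i) Z c l = tow X Z (fun s => (c s : ι)) l := by
  induction l with
  | nil => rfl
  | cons s l ih =>
    change (X (c s)).prod (tow (fun i : S => X i) Z c l) = _
    rw [ih]

/-- **Main theorem**, for the products over lists. -/
theorem main_tow [IsAlgClosed W.K] [DecidableEq ι] (h : Hy χ X)
    {B : Finset ι} (hB : ∀ (n : ℕ) (c : Fin n → ι) (m j : ℕ), Occ h Z c m j → ∀ s, c s ∈ B)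
    {n : ℕ} (c : Fin n → ι) {l : List (Fin n)} (hl : l.Nodup)
    (hT : ∀ l', l'.Sublist l → SmallList χ (fun i => (X i).toGVar) Z.toGVar B (l'.map c) →
      TateConjecture χ (tow X Z c l').toGVar) : TateConjecture χ (tow X Z c l).toGVar := by
  set S : Finset ι := univ.image c with hSdef
  have hS : ∀ s, c s ∈ S := fun s => Finset.mem_image_of_mem _ (Finset.mem_univ s)
  set c' : Fin n → S := fun s => ⟨c s, hS s⟩ with hc'
  have hX : Hy χ (fun i : S => X i) :=
    h.comp (fun i : S => (i : ι)) Subtype.val_injective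
  have htow : ∀ l : List (Fin n), tow (fun i : S => X i) Z c' l = tow X Z c l :=
    fun l => tow_comp X Z S c' l
  obtain ⟨κ, g, b, -, hb⟩ := exists_bases hX
  have f : ∀ i : S, SFrame κ (X i).X W := fun i =>
    ⟨(exists_SB (h.hom i)).some, g i, b i, hb i, h.alt i⟩
  rw [← htow l]
  refine tate_of_sub (f := f) hX.gal hX.mid hl ?_
  have hocc : ∀ l' : List (Fin n), l'.Sublist l →
      (∃ m j, Occ hX Z (fun s => c' (l'.get s)) m j) → St χ (fun i : S => X i) c' f Z l' := by
    rintro l' hsub ⟨m, j, hO⟩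
    have h1 := Occ.small h hB (Occ.unrestrict h S hO)
    have h2 : l'.map c = List.ofFn fun s => ((c' (l'.get s) : S) : ι) := map_get c l'
    rw [← h2] at h1
    refine St.of_tate (fun i g t ht => act_trans (hX.gal i) g ht) hX.mid (hl.sublist hsub) ?_
    rw [htow l']
    exact hT l' hsub h1
  have key : ∀ (N : ℕ) (l' : List (Fin n)), l'.length ≤ N → l'.Sublist l →
      St χ (fun i : S => X i) c' f Z l' := by
    intro N
    induction N with
    | zero =>
      intro l' hl' hsub
      by_cases ho : ∃ m j, Occ hX Z (fun s => c' (l'.get s)) m j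
      · exact hocc l' hsub ho
      · intro m j F hF
        by_contra hna
        have hnil : l' = [] := List.length_eq_zero_iff.1 (Nat.le_zero.1 hl')
        exact ho (exists_occ hX (hl.sublist hsub) (fun p hp => by
          rw [hnil] at hp
          exact absurd hp List.not_mem_nil) hF hna)
    | succ N ih =>
      intro l' hl' hsub
      by_cases ho : ∃ m j, Occ hX Z (fun s => c' (l'.get s)) m j
      · exact hocc l' hsub ho
      · intro m j F hF
        by_contra hna
        exact ho (exists_occ hX (hl.sublist hsub) (fun p hp q hq hpq => ih _ (by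
          have hq' : q ∈ l'.erase p := (List.mem_erase_of_ne hpq.symm).2 hq
          rw [List.length_erase_of_mem hq', List.length_erase_of_mem hp]
          omega) ((List.erase_sublist.trans List.erase_sublist).trans hsub)) hF hna)
  exact fun l' hl' => key l'.length l' le_rfl hl'

end

/-- **Finitely many products suffice.** -/
theorem tate_iff [IsAlgClosed W.K] [DecidableEq ι] {X : ι → GVar W Γ} {Z : GVar W Γ}
    (hX : AdFamily χ X) (hZ : GradedVar Z) :
    ∃ B : Finset ι, ∑ i ∈ B, trRank (X i) ≤ totRank Z ∧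
      ∀ (L : List ι) (Y : GVar W Γ), IsTower X Z L Y →
        (TateConjecture χ Y ↔ ∀ (L' : List ι) (Y' : GVar W Γ), L'.Sublist L →
          SmallList χ X Z B L' → IsTower X Z L' Y' → TateConjecture χ Y') := by
  let X' : ι → DG W Γ := fun i => ⟨X i, (hX.var i).act.galois.gr_mem⟩
  let Z' : DG W Γ := ⟨Z, hZ⟩
  have hX' : Hy χ X' := ⟨fun i => isGalois (hX.var i).act.galois,
    fun i => (hX.var i).homEqNum, fun i => (hX.var i).act.middle, fun i => (hX.var i).act.odd,
    fun i => (hX.var i).act.irreducible, fun i => (hX.var i).act.hyperbolic, hX.adjoint⟩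
  obtain ⟨B, hBcard, hB⟩ := exists_B hX' Z'
  refine ⟨B, hBcard, fun L Y hY => ⟨fun hT L' Y' hsub _ hY' => ?_, fun hT => ?_⟩⟩
  · -- subproducts
    have e : ∀ L : List ι, L = L.map id := fun L => (List.map_id L).symm
    have hone : ∀ i, (1 : W.H (X' i).X) ≠ 0 := by
      intro i h0
      obtain ⟨F, x, hx, y, hy, hx0, -⟩ := hX'.hyp i
      apply hx0
      rw [← one_mul x]
      change (1 : W.H (X' i).X) * x = 0
      rw [h0, zero_mul]
    rw [e L] at hY
    rw [e L'] at hY'
    have h2 := isTower_unique (X := X') (Z := Z') L hY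
    have h3 := isTower_unique (X := X') (Z := Z') L' hY'
    subst h2
    subst h3
    exact tate_sublist hX'.hom hone hsub hT
  · -- reduction to small lists
    have e : L = (List.finRange L.length).map L.get := by
      rw [← List.ofFn_eq_map, List.ofFn_get]
    have hY' : IsTower X Z ((List.finRange L.length).map L.get) Y := by
      rw [← e]
      exact hY
    have h2 := isTower_unique (X := X') (Z := Z') (List.finRange L.length) hY'
    subst h2
    refine main_tow hX' hB L.get (List.nodup_finRange _) fun l' hl' hsmall => ?_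
    refine hT (l'.map L.get) _ ?_ hsmall (isTower_tow X' Z' L.get l')
    have h3 := hl'.map L.get
    rwa [← e] at h3

end Pool.Agent.Y132.AF
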